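import Pool.Agent.H85.TS.En

/-!
An asymmetric Balog–Szemerédi–Gowers theorem.
-/

set_option autoImplicit false

namespace Pool.Agent.H85.TS

open Finset
open scoped Pointwise Classical

variable {M : Type*} [AddCommGroup M]

/-- either a structured part, or a part of small energy -/
theorem part (U V : Finset M) (hU : U.Nonempty) (hV : V.Nonempty) {K κ : ℝ} (hK : 1 ≤ K)
    (hκ : 1 ≤ κ) (hE : (U.card : ℝ) * (V.card : ℝ) ^ 2 ≤ K * U.addEnergy V) :
    (∃ R ⊆ V, R.Nonempty ∧ (V.card : ℝ) ≤ 4 * K * R.card ∧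
      (U.card : ℝ) * (R.card : ℝ) ^ 2 ≤ 4 * K * U.addEnergy R ∧
      κ * R.addEnergy R < (R.card : ℝ) ^ 3) ∨
    (∃ H ⊆ V, H.Nonempty ∧ ((H - H).card : ℝ) ≤ 2 ^ 22 * κ ^ 10 * H.card ∧
      (V.card : ℝ) ≤ 32 * K * κ * H.card ∧
      (U.card : ℝ) * (H.card : ℝ) ^ 2 ≤ 4 * K * (32 * K * κ) ^ 2 * U.addEnergy H) := by
  have cU : (0 : ℝ) < U.card := by exact_mod_cast hU.card_pos
  have cV : (0 : ℝ) < V.card := by exact_mod_cast hV.card_pos
  have hEpos : (0 : ℝ) < U.addEnergy V := by exact_mod_cast addEnergy_pos hU hV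
  -- the families
  set St : Finset M → Prop := fun H => H.Nonempty ∧
    ((H - H).card : ℝ) ≤ 2 ^ 22 * κ ^ 10 * H.card ∧ (V.card : ℝ) ≤ 32 * K * κ * H.card with hSt
  set T : Finset (Finset (Finset M)) := V.powerset.powerset.filter fun F =>
    (∀ H ∈ F, St H) ∧ (F : Set (Finset M)).PairwiseDisjoint id with hT
  have hTn : T.Nonempty := ⟨∅, by
    rw [hT, mem_filter]
    exact ⟨by simp, by simp, by simp⟩⟩
  obtain ⟨F, hFT, hFmax⟩ := exists_max_image T Finset.card hTn
  obtain ⟨hFV, hFSt, hFd⟩ := mem_filter.1 hFT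
  have hFsub : ∀ H ∈ F, H ⊆ V := fun H hH => mem_powerset.1 ((mem_powerset.1 hFV) hH)
  set W : Finset M := F.biUnion id with hW
  have hWV : W ⊆ V := biUnion_subset.2 hFsub
  set R : Finset M := V \ W with hR
  have hRV : R ⊆ V := sdiff_subset
  have hdisj : Disjoint R W := sdiff_disjoint
  have hunion : R ∪ W = V := by rw [hR]; exact sdiff_union_of_subset hWV
  have hFn : (F.card : ℝ) ≤ 32 * K * κ := by
    have h1 : (W.card : ℝ) = ∑ H ∈ F, (H.card : ℝ) := by
      rw [hW, card_biUnion hFd]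
      push_cast
      rfl
    have h2 : (F.card : ℝ) * (V.card / (32 * K * κ)) ≤ W.card := by
      rw [h1, ← nsmul_eq_mul]
      apply card_nsmul_le_sum
      intro H hH
      rw [div_le_iff₀ (by positivity)]
      have := (hFSt H hH).2.2
      linarith
    have h3 : (W.card : ℝ) ≤ V.card := by exact_mod_cast card_le_card hWV
    have h4 : (F.card : ℝ) * (V.card / (32 * K * κ)) ≤ V.card := h2.trans h3
    rw [mul_div_assoc', div_le_iff₀ (by positivity)] at h4
    have h5 : (F.card : ℝ) * V.card ≤ (32 * K * κ) * V.card := by linarith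
    exact le_of_mul_le_mul_right h5 cV
  have hsplit := en_union U hdisj
  rw [hunion] at hsplit
  by_cases hc : (U.addEnergy V : ℝ) ≤ 4 * U.addEnergy R
  · left
    have hRe : (0 : ℝ) < U.addEnergy R := by linarith
    have hRn : R.Nonempty := by
      rw [nonempty_iff_ne_empty]
      intro h0
      rw [h0] at hRe
      simp at hRe
    have cR : (0 : ℝ) < R.card := by exact_mod_cast hRn.card_pos
    have h1 : (U.card : ℝ) * (V.card : ℝ) ^ 2 ≤ 4 * K * U.addEnergy R := by
      calc _ ≤ K * U.addEnergy V := hE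
        _ ≤ K * (4 * U.addEnergy R) := mul_le_mul_of_nonneg_left hc (by linarith)
        _ = _ := by ring
    have h2 : (V.card : ℝ) ≤ 4 * K * R.card := by
      have h3 := en_le_right U R
      have h4 : (U.card : ℝ) * (V.card : ℝ) ^ 2 ≤ U.card * (4 * K * (R.card : ℝ) ^ 2) := by
        calc _ ≤ 4 * K * U.addEnergy R := h1
          _ ≤ 4 * K * (U.card * (R.card : ℝ) ^ 2) := mul_le_mul_of_nonneg_left h3 (by linarith)
          _ = _ := by ring
      have h5 := le_of_mul_le_mul_left h4 cU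
      have h6 : (V.card : ℝ) ^ 2 ≤ (4 * K * R.card) ^ 2 := by
        have : 4 * K ≤ (4 * K) ^ 2 := by nlinarith
        calc _ ≤ 4 * K * (R.card : ℝ) ^ 2 := h5
          _ ≤ (4 * K) ^ 2 * (R.card : ℝ) ^ 2 := mul_le_mul_of_nonneg_right this (by positivity)
          _ = _ := by ring
      exact (pow_le_pow_iff_left₀ cV.le (by positivity) two_ne_zero).1 h6
    refine ⟨R, hRV, hRn, h2, ?_, ?_⟩
    · refine le_trans ?_ h1
      apply mul_le_mul_of_nonneg_left _ cU.le
      exact pow_le_pow_left₀ cR.le (by exact_mod_cast card_le_card hRV) 2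
    · by_contra hcon
      push Not at hcon
      obtain ⟨B, hBR, hBn, hB1, hB2⟩ := Pool.Agent.H217R3.AK.bsg R hRn κ (by linarith) hcon
      have hBV : B ⊆ V := hBR.trans hRV
      have hBSt : St B := ⟨hBn, hB2, by
        calc (V.card : ℝ) ≤ 4 * K * R.card := h2
          _ ≤ 4 * K * (8 * κ * B.card) := mul_le_mul_of_nonneg_left hB1 (by linarith)
          _ = _ := by ring⟩
      have hBW : Disjoint B W := disjoint_of_subset_left hBR hdisj
      have hBF : B ∉ F := by
        intro h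
        obtain ⟨x, hx⟩ := hBn
        exact (disjoint_left.1 hBW) hx (mem_biUnion.2 ⟨B, h, hx⟩)
      have hmem : insert B F ∈ T := by
        rw [hT, mem_filter]
        refine ⟨mem_powerset.2 (insert_subset (mem_powerset.2 hBV) (mem_powerset.1 hFV)), ?_, ?_⟩
        · intro H hH
          rcases mem_insert.1 hH with rfl | h
          · exact hBSt
          · exact hFSt H h
        · rw [coe_insert]
          apply hFd.insert
          intro H hH _
          exact disjoint_of_subset_right (subset_biUnion_of_mem id hH) hBW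
      have := hFmax _ hmem
      rw [card_insert_of_notMem hBF] at this
      omega
  · right
    push Not at hc
    have hWe : (U.addEnergy V : ℝ) ≤ 4 * U.addEnergy W := by linarith
    have hfam := en_family U F hFd
    have hWpos : (0 : ℝ) < U.addEnergy W := by linarith
    have hFne : F.Nonempty := by
      rw [nonempty_iff_ne_empty]
      intro h0
      rw [hW, h0] at hWpos
      simp at hWpos
    have cF : (0 : ℝ) < F.card := by exact_mod_cast hFne.card_pos
    obtain ⟨H, hH, hHe⟩ : ∃ H ∈ F, (U.addEnergy W : ℝ) ≤ (F.card : ℝ) ^ 2 * U.addEnergy H := by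
      by_contra hcon
      push Not at hcon
      have h1 : ∑ H ∈ F, (F.card : ℝ) ^ 2 * U.addEnergy H < ∑ _H ∈ F, (U.addEnergy W : ℝ) :=
        sum_lt_sum_of_nonempty hFne hcon
      rw [sum_const, nsmul_eq_mul, ← mul_sum] at h1
      have h2 : (F.card : ℝ) ^ 2 * ∑ H ∈ F, (U.addEnergy H : ℝ) =
          F.card * (F.card * ∑ H ∈ F, (U.addEnergy H : ℝ)) := by ring
      rw [h2] at h1
      have h3 := lt_of_mul_lt_mul_left h1 cF.le
      linarith
    obtain ⟨hHn, hH1, hH2⟩ := hFSt H hH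
    refine ⟨H, hFsub H hH, hHn, hH1, hH2, ?_⟩
    have cH : (0 : ℝ) < H.card := by exact_mod_cast hHn.card_pos
    calc (U.card : ℝ) * (H.card : ℝ) ^ 2 ≤ U.card * (V.card : ℝ) ^ 2 := by
          apply mul_le_mul_of_nonneg_left _ cU.le
          exact pow_le_pow_left₀ cH.le (by exact_mod_cast card_le_card (hFsub H hH)) 2
      _ ≤ K * U.addEnergy V := hE
      _ ≤ K * (4 * ((32 * K * κ) ^ 2 * U.addEnergy H)) := by
          apply mul_le_mul_of_nonneg_left _ (by linarith)
          refine hWe.trans (mul_le_mul_of_nonneg_left (hHe.trans ?_) (by norm_num))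
          apply mul_le_mul_of_nonneg_right _ (Nat.cast_nonneg _)
          exact pow_le_pow_left₀ cF.le hFn 2
      _ = _ := by ring

/-- the increment -/
theorem incr (U R : Finset M) (hU : U.Nonempty) (hR : R.Nonempty) {K κ ℓ : ℝ} (hK : 1 ≤ K)
    (hκ : 1 ≤ κ) (hℓ : (Nat.log 2 R.card : ℝ) + 1 ≤ ℓ)
    (hE : (U.card : ℝ) * (R.card : ℝ) ^ 2 ≤ K * U.addEnergy R)
    (hRe : κ * R.addEnergy R < (R.card : ℝ) ^ 3) :
    ∃ D ⊆ R - R, D.Nonempty ∧ (U.card : ℝ) * (D.card : ℝ) ^ 2 ≤ (4 * K * ℓ) ^ 2 * U.addEnergy D ∧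
      κ * R.card ≤ 16 * K ^ 2 * ℓ ^ 2 * D.card ∧
      ∀ (H : Finset M) (c : ℝ), 0 < c → (D.card : ℝ) ≤ c * (D ∩ H).card →
        ∃ y ∈ R, (R.card : ℝ) ≤ 4 * K * ℓ * c * (R ∩ H.image (fun h => y + h)).card := by
  have cU : (0 : ℝ) < U.card := by exact_mod_cast hU.card_pos
  have cR : (0 : ℝ) < R.card := by exact_mod_cast hR.card_pos
  have hℓ1 : 1 ≤ ℓ := by
    have : (0 : ℝ) ≤ Nat.log 2 R.card := Nat.cast_nonneg _
    linarith
  have hEpos : (0 : ℝ) < U.addEnergy R := by exact_mod_cast addEnergy_pos hU hR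
  set lv : M → ℕ := fun x => Nat.log 2 (qd R x) with hlv
  set I : Finset ℕ := range (Nat.log 2 R.card + 1) with hI
  have hlvI : ∀ x ∈ R - R, lv x ∈ I := by
    intro x _
    rw [hI, mem_range, hlv]
    have := Nat.log_mono_right (b := 2) (qd_le R x)
    simp only
    omega
  have hsum : (U.addEnergy R : ℝ) = ∑ j ∈ I, ∑ x ∈ (R - R).filter (fun x => lv x = j),
      (qd U x : ℝ) * qd R x := by
    rw [en_diff U R]
    exact (sum_fiberwise_of_maps_to hlvI _).symm
  obtain ⟨j, hj, hjE⟩ : ∃ j ∈ I, (U.addEnergy R : ℝ) ≤ ℓ *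
      ∑ x ∈ (R - R).filter (fun x => lv x = j), (qd U x : ℝ) * qd R x := by
    by_contra hcon
    push Not at hcon
    have hIn : I.Nonempty := ⟨0, by rw [hI]; simp⟩
    have h1 := sum_lt_sum_of_nonempty hIn hcon
    rw [← mul_sum, ← hsum, sum_const, nsmul_eq_mul, hI, card_range] at h1
    push_cast at h1
    have h2 : ((Nat.log 2 R.card : ℝ) + 1) * U.addEnergy R ≤ ℓ * U.addEnergy R :=
      mul_le_mul_of_nonneg_right hℓ hEpos.le
    linarith
  set D : Finset M := (R - R).filter fun x => lv x = j with hD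
  set P : ℝ := 2 ^ j with hP
  have hP0 : 0 < P := by positivity
  have hDlow : ∀ x ∈ D, P ≤ qd R x := by
    intro x hx
    obtain ⟨h1, h2⟩ := mem_filter.1 hx
    have h3 := qd_pos h1
    have h4 := Nat.pow_log_le_self 2 (show qd R x ≠ 0 by omega)
    rw [show Nat.log 2 (qd R x) = j from h2] at h4
    rw [hP]
    exact_mod_cast h4
  have hDup : ∀ x ∈ D, (qd R x : ℝ) ≤ 2 * P := by
    intro x hx
    obtain ⟨h1, h2⟩ := mem_filter.1 hx
    have h4 := Nat.lt_pow_succ_log_self (b := 2) (by norm_num) (qd R x)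
    rw [show Nat.log 2 (qd R x) = j from h2] at h4
    have h5 : ((qd R x : ℕ) : ℝ) ≤ 2 ^ (j + 1) := by exact_mod_cast h4.le
    rw [hP]
    calc _ ≤ _ := h5
      _ = _ := by ring
  have hsU : (U.addEnergy R : ℝ) ≤ 2 * P * ℓ * ∑ x ∈ D, (qd U x : ℝ) := by
    refine hjE.trans ?_
    have h1 : ∑ x ∈ D, (qd U x : ℝ) * qd R x ≤ ∑ x ∈ D, (qd U x : ℝ) * (2 * P) :=
      sum_le_sum fun x hx => mul_le_mul_of_nonneg_left (hDup x hx) (Nat.cast_nonneg _)
    rw [← sum_mul] at h1
    calc _ ≤ ℓ * ((∑ x ∈ D, (qd U x : ℝ)) * (2 * P)) := mul_le_mul_of_nonneg_left h1 (by linarith)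
      _ = _ := by ring
  have hsUle : ∑ x ∈ D, (qd U x : ℝ) ≤ D.card * U.card := by
    rw [← nsmul_eq_mul]
    exact sum_le_card_nsmul _ _ _ fun x _ => by exact_mod_cast qd_le U x
  have hPD : P * D.card ≤ (R.card : ℝ) ^ 2 := by
    have h1 : D.card • P ≤ ∑ x ∈ D, (qd R x : ℝ) := card_nsmul_le_sum _ _ _ hDlow
    rw [nsmul_eq_mul] at h1
    have := sum_qd R (S := D)
    linarith
  have hkey : (U.card : ℝ) * (R.card : ℝ) ^ 2 ≤ 2 * K * P * ℓ * ∑ x ∈ D, (qd U x : ℝ) := by
    calc _ ≤ K * U.addEnergy R := hE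
      _ ≤ K * (2 * P * ℓ * ∑ x ∈ D, (qd U x : ℝ)) := mul_le_mul_of_nonneg_left hsU (by linarith)
      _ = _ := by ring
  have hR2 : (R.card : ℝ) ^ 2 ≤ 2 * K * P * ℓ * D.card := by
    have h1 : (U.card : ℝ) * (R.card : ℝ) ^ 2 ≤ U.card * (2 * K * P * ℓ * D.card) := by
      calc _ ≤ 2 * K * P * ℓ * ∑ x ∈ D, (qd U x : ℝ) := hkey
        _ ≤ 2 * K * P * ℓ * (D.card * U.card) := mul_le_mul_of_nonneg_left hsUle (by positivity)
        _ = _ := by ring
    exact le_of_mul_le_mul_left h1 cU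
  have cD : (0 : ℝ) < D.card := by
    by_contra hcon
    push Not at hcon
    have h1 : 0 < (R.card : ℝ) ^ 2 := by positivity
    have h2 : 2 * K * P * ℓ * D.card ≤ 0 :=
      mul_nonpos_of_nonneg_of_nonpos (by positivity) hcon
    linarith
  have hDn : D.Nonempty := by
    rw [← card_pos]
    exact_mod_cast cD
  refine ⟨D, filter_subset _ _, hDn, ?_, ?_, ?_⟩
  · -- the energy with `D`
    have h1 : (U.card : ℝ) * D.card ≤ 2 * K * ℓ * ∑ x ∈ D, (qd U x : ℝ) := by
      have h2 : P * (U.card * D.card) ≤ P * (2 * K * ℓ * ∑ x ∈ D, (qd U x : ℝ)) := by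
        calc P * (U.card * D.card) = U.card * (P * D.card) := by ring
          _ ≤ U.card * (R.card : ℝ) ^ 2 := mul_le_mul_of_nonneg_left hPD cU.le
          _ ≤ _ := hkey
          _ = _ := by ring
      exact le_of_mul_le_mul_left h2 hP0
    have h2 := en_ge_qd U D
    have h3 : ((U.card : ℝ) * D.card) ^ 2 ≤ (2 * K * ℓ) ^ 2 * (U.card * U.addEnergy D) := by
      calc _ ≤ (2 * K * ℓ * ∑ x ∈ D, (qd U x : ℝ)) ^ 2 := pow_le_pow_left₀ (by positivity) h1 2
        _ = (2 * K * ℓ) ^ 2 * (∑ x ∈ D, (qd U x : ℝ)) ^ 2 := by ring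
        _ ≤ _ := mul_le_mul_of_nonneg_left h2 (by positivity)
    have h4 : (U.card : ℝ) * (U.card * (D.card : ℝ) ^ 2) ≤
        U.card * ((4 * K * ℓ) ^ 2 * U.addEnergy D) := by
      have h5 : 0 ≤ (2 * K * ℓ) ^ 2 * ((U.card : ℝ) * U.addEnergy D) := by positivity
      calc (U.card : ℝ) * (U.card * (D.card : ℝ) ^ 2) = ((U.card : ℝ) * D.card) ^ 2 := by ring
        _ ≤ (2 * K * ℓ) ^ 2 * (U.card * U.addEnergy D) := h3
        _ ≤ 4 * ((2 * K * ℓ) ^ 2 * (U.card * U.addEnergy D)) := by linarith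
        _ = _ := by ring
    exact le_of_mul_le_mul_left h4 cU
  · -- the size of `D`
    have h1 : P ^ 2 * D.card ≤ R.addEnergy R := by
      rw [en_diff R R]
      have h2 : D.card • P ^ 2 ≤ ∑ x ∈ D, (qd R x : ℝ) * qd R x := by
        apply card_nsmul_le_sum
        intro x hx
        rw [sq]
        exact mul_le_mul (hDlow x hx) (hDlow x hx) hP0.le (Nat.cast_nonneg _)
      rw [nsmul_eq_mul] at h2
      have h3 : ∑ x ∈ D, (qd R x : ℝ) * qd R x ≤ ∑ x ∈ R - R, (qd R x : ℝ) * qd R x :=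
        sum_le_sum_of_subset_of_nonneg (filter_subset _ _) fun x _ _ => by positivity
      linarith
    -- `κ P ≤ 2 K ℓ |R|`
    have h2 : κ * P ≤ 2 * K * ℓ * R.card := by
      have h3 : κ * P * (R.card : ℝ) ^ 2 ≤ 2 * K * ℓ * R.card * (R.card : ℝ) ^ 2 := by
        calc κ * P * (R.card : ℝ) ^ 2 ≤ κ * P * (2 * K * P * ℓ * D.card) :=
              mul_le_mul_of_nonneg_left hR2 (by positivity)
          _ = 2 * K * ℓ * (κ * (P ^ 2 * D.card)) := by ring
          _ ≤ 2 * K * ℓ * (κ * R.addEnergy R) := by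
              apply mul_le_mul_of_nonneg_left _ (by positivity)
              exact mul_le_mul_of_nonneg_left h1 (by linarith)
          _ ≤ 2 * K * ℓ * (R.card : ℝ) ^ 3 := mul_le_mul_of_nonneg_left hRe.le (by positivity)
          _ = _ := by ring
      exact le_of_mul_le_mul_right h3 (by positivity)
    have h3 : κ * R.card * R.card ≤ 16 * K ^ 2 * ℓ ^ 2 * D.card * R.card := by
      calc κ * R.card * R.card = κ * (R.card : ℝ) ^ 2 := by ring
        _ ≤ κ * (2 * K * P * ℓ * D.card) := mul_le_mul_of_nonneg_left hR2 (by linarith)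
        _ = 2 * K * ℓ * D.card * (κ * P) := by ring
        _ ≤ 2 * K * ℓ * D.card * (2 * K * ℓ * R.card) :=
            mul_le_mul_of_nonneg_left h2 (by positivity)
        _ = 4 * K ^ 2 * ℓ ^ 2 * D.card * R.card := by ring
        _ ≤ 16 * K ^ 2 * ℓ ^ 2 * D.card * R.card := by
            have : 0 ≤ K ^ 2 * ℓ ^ 2 * D.card * R.card := by positivity
            linarith
    exact le_of_mul_le_mul_right h3 cR
  · -- density
    intro H c hc hDH
    -- the pairs with difference in `H`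
    have h1 : ∑ x ∈ D ∩ H, (qd R x : ℝ) ≤
        ∑ y ∈ R, ((R ∩ H.image (fun h => y + h)).card : ℝ) := by
      have h2 : ∑ x ∈ D ∩ H, qd R x ≤ ∑ y ∈ R, (R ∩ H.image (fun h => y + h)).card := by
        unfold qd
        rw [← card_biUnion, ← card_sigma]
        · apply card_le_card_of_injOn (fun p => (⟨p.2, p.1⟩ : (_ : M) × M))
          · intro p hp
            rw [mem_coe, mem_biUnion] at hp
            obtain ⟨x, hx, hpx⟩ := hp
            obtain ⟨hp1, hp2⟩ := mem_filter.1 hpx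
            rw [mem_product] at hp1
            rw [mem_coe, mem_sigma]
            refine ⟨hp1.2, mem_inter.2 ⟨hp1.1, mem_image.2 ⟨x, (mem_inter.1 hx).2, ?_⟩⟩⟩
            simp only
            rw [← hp2, add_sub_cancel]
          · intro p _ q _ h
            simp only [Sigma.mk.injEq, heq_eq_eq] at h
            exact Prod.ext h.2 h.1
        · intro x _ y _ hxy
          apply disjoint_filter.2
          intro p _ h1 h2
          exact hxy (h1.symm.trans h2)
      exact_mod_cast h2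
    have h2 : P * (D ∩ H).card ≤ ∑ x ∈ D ∩ H, (qd R x : ℝ) := by
      rw [mul_comm, ← nsmul_eq_mul]
      exact card_nsmul_le_sum _ _ _ fun x hx => hDlow x (mem_inter.1 hx).1
    by_contra hcon
    push Not at hcon
    have h3 : ∑ y ∈ R, 4 * K * ℓ * c * ((R ∩ H.image (fun h => y + h)).card : ℝ) <
        ∑ _y ∈ R, (R.card : ℝ) := sum_lt_sum_of_nonempty hR hcon
    rw [← mul_sum, sum_const, nsmul_eq_mul] at h3
    have h4 : (R.card : ℝ) ^ 2 ≤ 2 * K * ℓ * c * ∑ y ∈ R,
        ((R ∩ H.image (fun h => y + h)).card : ℝ) := by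
      calc (R.card : ℝ) ^ 2 ≤ 2 * K * P * ℓ * D.card := hR2
        _ ≤ 2 * K * P * ℓ * (c * (D ∩ H).card) := mul_le_mul_of_nonneg_left hDH (by positivity)
        _ = 2 * K * ℓ * c * (P * (D ∩ H).card) := by ring
        _ ≤ _ := mul_le_mul_of_nonneg_left (h2.trans h1) (by positivity)
    have hS0 : 0 ≤ ∑ y ∈ R, ((R ∩ H.image (fun h => y + h)).card : ℝ) :=
      sum_nonneg fun y _ => Nat.cast_nonneg _
    generalize (∑ y ∈ R, ((R ∩ H.image (fun h => y + h)).card : ℝ)) = S at h3 h4 hS0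
    have hx : 0 ≤ K * ℓ * c * S := mul_nonneg (by positivity) hS0
    have e1 : 4 * K * ℓ * c * S = 4 * (K * ℓ * c * S) := by ring
    have e2 : 2 * K * ℓ * c * S = 2 * (K * ℓ * c * S) := by ring
    rw [e1] at h3
    rw [e2, sq] at h4
    linarith

end Pool.Agent.H85.TS
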