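import Pool.Agent.H85.TS.Chain

/-!
Sets of positive integers as sets of integers.
-/

set_option autoImplicit false

namespace Pool.Agent.H85.TS

open Finset
open Pool.Agent.TH83.SQ (cls dil)
open Pool.Agent.TH83.DC (card_dil)
open scoped Pointwise Classical

theorem zz_mul (A B : Finset ℕ) : zz (A * B) = zz A * zz B := by
  ext x
  simp only [zz, mem_image, mem_mul]
  constructor
  · rintro ⟨_, ⟨a, ha, b, hb, rfl⟩, rfl⟩
    exact ⟨a, ⟨a, ha, rfl⟩, b, ⟨b, hb, rfl⟩, by push_cast; rfl⟩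
  · rintro ⟨_, ⟨a, ha, rfl⟩, _, ⟨b, hb, rfl⟩, rfl⟩
    exact ⟨a * b, ⟨a, ha, b, hb, rfl⟩, by push_cast; rfl⟩

theorem zz_pow (S : Finset ℕ) (k : ℕ) : zz (S ^ k) = zz S ^ k := by
  induction k with
  | zero =>
    rw [pow_zero, pow_zero]
    change (({1} : Finset ℕ)).image (fun n : ℕ => (n : ℤ)) = ({1} : Finset ℤ)
    rw [image_singleton]
    norm_num
  | succ k ih => rw [pow_succ, pow_succ, zz_mul, ih]

theorem zz_card (S : Finset ℕ) : (zz S).card = S.card :=
  card_image_of_injective _ Nat.cast_injective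

theorem zz_zero {S : Finset ℕ} (h : 0 ∉ S) : (0 : ℤ) ∉ zz S := by
  intro h0
  obtain ⟨n, hn, hn0⟩ := mem_image.1 h0
  exact h (by rw [show n = 0 by exact_mod_cast hn0] at hn; exact hn)

theorem natAbs_set {A S : Finset ℤ} (hS : (0 : ℤ) ∉ S) :
    0 ∉ S.image Int.natAbs ∧ S.card ≤ 2 * (S.image Int.natAbs).card ∧
      (A * zz (S.image Int.natAbs)).card ≤ 2 * (A * S).card := by
  refine ⟨?_, ?_, ?_⟩
  · intro h
    obtain ⟨s, hs, h0⟩ := mem_image.1 h
    rw [Int.natAbs_eq_zero] at h0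
    exact hS (h0 ▸ hs)
  · have h1 : S ⊆ zz (S.image Int.natAbs) ∪ (zz (S.image Int.natAbs)).image (fun x => -x) := by
      intro s hs
      rw [mem_union]
      rcases Int.natAbs_eq s with h | h
      · left
        exact mem_image.2 ⟨s.natAbs, mem_image_of_mem _ hs, h.symm⟩
      · right
        exact mem_image.2 ⟨(s.natAbs : ℤ), mem_image.2 ⟨s.natAbs, mem_image_of_mem _ hs, rfl⟩,
          h.symm⟩
    have h2 := (card_le_card h1).trans (card_union_le _ _)
    have h3 : ((zz (S.image Int.natAbs)).image (fun x => -x)).card ≤ (S.image Int.natAbs).card :=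
      card_image_le.trans (zz_card _).le
    rw [zz_card] at h2
    omega
  · have h1 : A * zz (S.image Int.natAbs) ⊆ (A * S) ∪ (A * S).image (fun x => -x) := by
      intro x hx
      obtain ⟨a, ha, t, ht, rfl⟩ := mem_mul.1 hx
      obtain ⟨n, hn, rfl⟩ := mem_image.1 ht
      obtain ⟨s, hs, rfl⟩ := mem_image.1 hn
      rw [mem_union]
      rcases Int.natAbs_eq s with h | h
      · left
        rw [← h]
        exact mul_mem_mul ha hs
      · right
        refine mem_image.2 ⟨a * s, mul_mem_mul ha hs, ?_⟩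
        have : ((s.natAbs : ℕ) : ℤ) = -s := by omega
        rw [this]; ring
    have h2 := (card_le_card h1).trans (card_union_le _ _)
    have h3 : ((A * S).image (fun x => -x)).card ≤ (A * S).card := card_image_le
    omega

theorem card_le_mul_self {G : Finset ℕ} (h0 : 0 ∉ G) (hG : G.Nonempty) :
    G.card ≤ (G * G).card := by
  obtain ⟨g, hg⟩ := hG
  have hg0 : g ≠ 0 := fun h => h0 (h ▸ hg)
  have h1 : (G.image fun x => g * x).card = G.card :=
    card_image_of_injective _ fun x y h => Nat.eq_of_mul_eq_mul_left (Nat.pos_of_ne_zero hg0) h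
  rw [← h1]
  apply card_le_card
  intro x hx
  obtain ⟨y, hy, rfl⟩ := mem_image.1 hx
  exact mul_mem_mul hg hy

theorem zero_notMem_mul_nat {A B : Finset ℕ} (hA : 0 ∉ A) (hB : 0 ∉ B) : 0 ∉ A * B := by
  intro h
  obtain ⟨a, ha, b, hb, hab⟩ := mem_mul.1 h
  rcases mul_eq_zero.1 hab with h | h
  · exact hA (h ▸ ha)
  · exact hB (h ▸ hb)

theorem zero_notMem_pow_nat {S : Finset ℕ} (hS : 0 ∉ S) (k : ℕ) : 0 ∉ S ^ k := by
  induction k with
  | zero => simp
  | succ k ih => rw [pow_succ]; exact zero_notMem_mul_nat ih hS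

/-- one of the iterated product sets has few products -/
theorem exists_scale {S : Finset ℕ} (hS0 : 0 ∉ S) (hS : S.Nonempty) {δ₀ : ℝ} (hδ₀ : 0 ≤ δ₀)
    (I : ℕ) {M : ℝ} (hM : Real.log ((S ^ (2 ^ I)).card : ℝ) ≤ M)
    (hI : M < (1 + δ₀) ^ I * Real.log S.card) :
    ∃ i < I, ((S ^ (2 ^ i) * S ^ (2 ^ i)).card : ℝ) ≤ ((S ^ (2 ^ i)).card : ℝ) ^ (1 + δ₀) := by
  by_contra hcon
  push Not at hcon
  have h1 : ∀ i ≤ I, (1 + δ₀) ^ i * Real.log S.card ≤ Real.log ((S ^ (2 ^ i)).card : ℝ) := by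
    intro i
    induction i with
    | zero => intro _; simp
    | succ i ih =>
      intro hi
      have h2 := ih (by omega)
      have h3 := hcon i (by omega)
      have hn : (S ^ (2 ^ i)).Nonempty := hS.pow
      have c0 : (0 : ℝ) < (S ^ (2 ^ i)).card := by exact_mod_cast hn.card_pos
      have h4 : S ^ (2 ^ i) * S ^ (2 ^ i) = S ^ (2 ^ (i + 1)) := by
        rw [← pow_add]; congr 1; ring
      rw [h4] at h3
      have h5 := Real.log_le_log (by positivity) h3.le
      rw [Real.log_rpow c0] at h5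
      calc (1 + δ₀) ^ (i + 1) * Real.log S.card = (1 + δ₀) * ((1 + δ₀) ^ i * Real.log S.card) := by
            ring
        _ ≤ (1 + δ₀) * Real.log ((S ^ (2 ^ i)).card : ℝ) :=
            mul_le_mul_of_nonneg_left h2 (by linarith)
        _ ≤ _ := h5
  have := h1 I le_rfl
  linarith

theorem card_pow_two_ge {S : Finset ℕ} (hS0 : 0 ∉ S) (hS : S.Nonempty) (i : ℕ) :
    S.card ≤ (S ^ (2 ^ i)).card := by
  induction i with
  | zero => simp
  | succ i ih =>
    refine ih.trans ?_
    have h4 : S ^ (2 ^ i) * S ^ (2 ^ i) = S ^ (2 ^ (i + 1)) := by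
      rw [← pow_add]; congr 1; ring
    rw [← h4]
    exact card_le_mul_self (zero_notMem_pow_nat hS0 _) hS.pow

end Pool.Agent.H85.TS
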