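import Pool.Agent.H85.TS.En
import Pool.Agent.H85.TS.Nat

/-!
Multiplicative energies of finite sets of complex numbers, classes and scaling.
-/

set_option autoImplicit false

namespace Pool.Agent.H85.TS

open Finset
open scoped Pointwise Classical

/-- transport of energies -/
theorem en_map {α M : Type*} [DecidableEq α] [Mul α] [AddCommGroup M] {A P : Finset α}
    {f g : α → M}
    (hf : Set.InjOn f A) (hg : Set.InjOn g P)
    (h : ∀ a ∈ A, ∀ a' ∈ A, ∀ p ∈ P, ∀ p' ∈ P, (a * p = a' * p' ↔ f a + g p = f a' + g p')) :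
    A.mulEnergy P = (A.image f).addEnergy (P.image g) := by
  unfold Finset.mulEnergy Finset.addEnergy
  refine Finset.card_bij (fun x _ => (((f x.1.1, f x.1.2), (g x.2.1, g x.2.2)) :
    (M × M) × (M × M))) ?_ ?_ ?_
  · rintro ⟨⟨a, a'⟩, ⟨p, p'⟩⟩ hx
    simp only [mem_filter, mem_product] at hx ⊢
    obtain ⟨⟨⟨ha, ha'⟩, hp, hp'⟩, hE⟩ := hx
    exact ⟨⟨⟨mem_image_of_mem _ ha, mem_image_of_mem _ ha'⟩, mem_image_of_mem _ hp,
      mem_image_of_mem _ hp'⟩, (h a ha a' ha' p hp p' hp').1 hE⟩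
  · rintro ⟨⟨a, a'⟩, ⟨p, p'⟩⟩ hx ⟨⟨b, b'⟩, ⟨q, q'⟩⟩ hy hxy
    simp only [mem_filter, mem_product] at hx hy
    simp only [Prod.mk.injEq] at hxy
    obtain ⟨⟨⟨ha, ha'⟩, hp, hp'⟩, -⟩ := hx
    obtain ⟨⟨⟨hb, hb'⟩, hq, hq'⟩, -⟩ := hy
    obtain ⟨⟨h1, h2⟩, h3, h4⟩ := hxy
    rw [hf ha hb h1, hf ha' hb' h2, hg hp hq h3, hg hp' hq' h4]
  · rintro ⟨⟨u, u'⟩, ⟨v, v'⟩⟩ hx
    simp only [mem_filter, mem_product] at hx
    obtain ⟨⟨⟨hu, hu'⟩, hv, hv'⟩, hE⟩ := hx
    obtain ⟨a, ha, rfl⟩ := mem_image.1 hu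
    obtain ⟨a', ha', rfl⟩ := mem_image.1 hu'
    obtain ⟨p, hp, rfl⟩ := mem_image.1 hv
    obtain ⟨p', hp', rfl⟩ := mem_image.1 hv'
    refine ⟨((a, a'), (p, p')), ?_, rfl⟩
    simp only [mem_filter, mem_product]
    exact ⟨⟨⟨ha, ha'⟩, hp, hp'⟩, (h a ha a' ha' p hp p' hp').2 hE⟩

section classes

variable {M : Type*} [AddCommGroup M]

/-- a class with large relative energy -/
theorem exists_class (Γ : AddSubgroup M) (U V : Finset M) (hU : ∀ u ∈ U, ∀ u' ∈ U, u - u' ∈ Γ)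
    (hV : V.Nonempty) :
    ∃ W ⊆ V, W.Nonempty ∧ (∀ w ∈ W, ∀ w' ∈ W, w - w' ∈ Γ) ∧
      (U.addEnergy V : ℝ) * W.card ≤ U.addEnergy W * V.card := by
  set c : M → M ⧸ Γ := fun v => (v : M ⧸ Γ) with hc
  have hcc : ∀ v w : M, c v = c w ↔ w - v ∈ Γ := by
    intro v w
    rw [hc]
    simp only
    rw [QuotientAddGroup.eq]
    rw [neg_add_eq_sub]
  set W : M ⧸ Γ → Finset M := fun q => V.filter fun v => c v = q with hW
  have hsum : U.addEnergy V ≤ ∑ q ∈ V.image c, U.addEnergy (W q) := by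
    unfold Finset.addEnergy
    rw [Finset.card_eq_sum_card_fiberwise (f := fun p => c p.2.1) (t := V.image c)]
    · apply sum_le_sum
      intro q _
      apply card_le_card
      rintro ⟨⟨u, u'⟩, ⟨v, v'⟩⟩ hx
      simp only [mem_filter, mem_product] at hx ⊢
      obtain ⟨⟨⟨⟨hu, hu'⟩, hv, hv'⟩, hE⟩, hq⟩ := hx
      refine ⟨⟨⟨hu, hu'⟩, mem_filter.2 ⟨hv, hq⟩, mem_filter.2 ⟨hv', ?_⟩⟩, hE⟩
      rw [← hq, eq_comm, hcc]
      have h1 : v' - v = u - u' := by
        have : v' = u + v - u' := by rw [hE]; abel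
        rw [this]; abel
      rw [h1]
      exact hU u hu u' hu'
    · rintro ⟨⟨u, u'⟩, ⟨v, v'⟩⟩ hx
      simp only [coe_filter, mem_product, Set.mem_ofPred_eq] at hx
      exact mem_image_of_mem c hx.1.2.1
  have hcard : V.card = ∑ q ∈ V.image c, (W q).card := by
    apply Finset.card_eq_sum_card_fiberwise
    intro v hv
    exact mem_image_of_mem c hv
  by_contra hcon
  push Not at hcon
  have h1 : ∀ q ∈ V.image c,
      (U.addEnergy (W q) : ℝ) * V.card < (U.addEnergy V : ℝ) * (W q).card := by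
    intro q hq
    apply hcon (W q) (filter_subset _ _)
    · obtain ⟨v, hv, rfl⟩ := mem_image.1 hq
      exact ⟨v, mem_filter.2 ⟨hv, rfl⟩⟩
    · intro w hw w' hw'
      rw [← hcc, (mem_filter.1 hw).2, (mem_filter.1 hw').2]
  have h2 := sum_lt_sum_of_nonempty (hV.image c) h1
  rw [← sum_mul, ← mul_sum] at h2
  have h3 : (U.addEnergy V : ℝ) ≤ ∑ q ∈ V.image c, (U.addEnergy (W q) : ℝ) := by
    exact_mod_cast hsum
  have h4 : (V.card : ℝ) = ∑ q ∈ V.image c, ((W q).card : ℝ) := by exact_mod_cast hcard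
  rw [← h4] at h2
  have h5 := mul_le_mul_of_nonneg_right h3 (Nat.cast_nonneg (α := ℝ) V.card)
  linarith

/-- energies and translates -/
theorem en_trans (U V : Finset M) (y : M) :
    U.addEnergy (V.image fun v => v - y) = U.addEnergy V := by
  unfold Finset.addEnergy
  refine (Finset.card_bij (fun x _ => ((x.1, (x.2.1 - y, x.2.2 - y)) :
    (M × M) × (M × M))) ?_ ?_ ?_).symm
  · rintro ⟨⟨a, a'⟩, ⟨p, p'⟩⟩ hx
    simp only [mem_filter, mem_product] at hx ⊢
    obtain ⟨⟨⟨ha, ha'⟩, hp, hp'⟩, hE⟩ := hx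
    refine ⟨⟨⟨ha, ha'⟩, mem_image_of_mem _ hp, mem_image_of_mem _ hp'⟩, ?_⟩
    rw [← add_sub_assoc, ← add_sub_assoc, hE]
  · rintro ⟨⟨a, a'⟩, ⟨p, p'⟩⟩ hx ⟨⟨b, b'⟩, ⟨q, q'⟩⟩ hy hxy
    simp only [Prod.mk.injEq] at hxy
    obtain ⟨⟨h1, h2⟩, h3, h4⟩ := hxy
    rw [h1, h2, sub_left_injective h3, sub_left_injective h4]
  · rintro ⟨⟨u, u'⟩, ⟨v, v'⟩⟩ hx
    simp only [mem_filter, mem_product] at hx
    obtain ⟨⟨⟨hu, hu'⟩, hv, hv'⟩, hE⟩ := hx
    obtain ⟨p, hp, rfl⟩ := mem_image.1 hv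
    obtain ⟨p', hp', rfl⟩ := mem_image.1 hv'
    refine ⟨((u, u'), (p, p')), ?_, rfl⟩
    simp only [mem_filter, mem_product]
    refine ⟨⟨⟨hu, hu'⟩, hp, hp'⟩, ?_⟩
    rw [← add_sub_assoc, ← add_sub_assoc] at hE
    exact sub_left_injective hE

/-- one of two parts -/
theorem en_part (U₁ U₂ V : Finset M) (h : Disjoint U₁ U₂) :
    ((U₁ ∪ U₂).addEnergy V : ℝ) ≤ 4 * U₁.addEnergy V ∨
      ((U₁ ∪ U₂).addEnergy V : ℝ) ≤ 4 * U₂.addEnergy V := by
  have h1 := en_union V h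
  rw [Finset.addEnergy_comm V, Finset.addEnergy_comm V, Finset.addEnergy_comm V] at h1
  rcases le_total (U₁.addEnergy V : ℝ) (U₂.addEnergy V) with h2 | h2
  · right; linarith
  · left; linarith

end classes

/-- the multiplicative group of the complex numbers, written additively -/
def MC : Type := Additive ℂˣ

noncomputable instance : AddCommGroup MC := inferInstanceAs (AddCommGroup (Additive ℂˣ))

/-- complex numbers as elements of the multiplicative group -/
noncomputable def uC (z : ℂ) : MC :=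
  if h : z ≠ 0 then (Additive.ofMul (Units.mk0 z h) : Additive ℂˣ) else (0 : Additive ℂˣ)

/-- elements of the multiplicative group as complex numbers -/
def cC (x : MC) : ℂ := ((Additive.toMul (x : Additive ℂˣ) : ℂˣ) : ℂ)

theorem cC_ne (x : MC) : cC x ≠ 0 := Units.ne_zero _

theorem cC_uC {z : ℂ} (h : z ≠ 0) : cC (uC z) = z := by
  unfold cC uC
  rw [dif_pos h]
  rfl

theorem cC_inj {x y : MC} (h : cC x = cC y) : x = y := by
  have h1 : Additive.toMul (x : Additive ℂˣ) = Additive.toMul (y : Additive ℂˣ) := Units.ext h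
  exact Additive.toMul.injective h1

theorem uC_cC (x : MC) : uC (cC x) = x := cC_inj (cC_uC (cC_ne x))

theorem cC_zero : cC (0 : MC) = 1 := rfl

theorem cC_add (x y : MC) : cC (x + y) = cC x * cC y := rfl

theorem cC_neg (x : MC) : cC (-x) = (cC x)⁻¹ := by
  have h1 : cC (-x) * cC x = 1 := by
    rw [← cC_add, neg_add_cancel, cC_zero]
  exact eq_inv_of_mul_eq_one_left h1

theorem cC_sub (x y : MC) : cC (x - y) = cC x / cC y := by
  rw [sub_eq_add_neg, cC_add, cC_neg, div_eq_mul_inv]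

theorem cC_injective : Function.Injective cC := fun _ _ h => cC_inj h

theorem uC_mul {z w : ℂ} (hz : z ≠ 0) (hw : w ≠ 0) : uC (z * w) = uC z + uC w := by
  apply cC_inj
  rw [cC_add, cC_uC hz, cC_uC hw, cC_uC (mul_ne_zero hz hw)]

theorem uC_injOn {S : Finset ℂ} (h : (0 : ℂ) ∉ S) : Set.InjOn uC S := by
  intro z hz w hw hzw
  have h1 : z ≠ 0 := fun h' => h (h' ▸ hz)
  have h2 : w ≠ 0 := fun h' => h (h' ▸ hw)
  have h3 := congrArg cC hzw
  rwa [cC_uC h1, cC_uC h2] at h3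

/-- nonzero integers as elements of the multiplicative group -/
noncomputable def uI (a : ℤ) : MC := uC (a : ℂ)

theorem cC_uI {a : ℤ} (h : a ≠ 0) : cC (uI a) = a := cC_uC (by exact_mod_cast h)

theorem uI_injOn {A : Finset ℤ} (h : (0 : ℤ) ∉ A) : Set.InjOn uI A := by
  intro a ha b hb hab
  have h1 : a ≠ 0 := fun h' => h (h' ▸ ha)
  have h2 : b ≠ 0 := fun h' => h (h' ▸ hb)
  have h3 := congrArg cC hab
  rw [cC_uI h1, cC_uI h2] at h3
  exact_mod_cast h3

/-- the energy in the multiplicative group -/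
theorem en_uC {A : Finset ℤ} {P : Finset ℂ} (hA : (0 : ℤ) ∉ A) (hP : (0 : ℂ) ∉ P) :
    (A.image fun a : ℤ => (a : ℂ)).mulEnergy P = (A.image uI).addEnergy (P.image uC) := by
  have h0 : (0 : ℂ) ∉ A.image fun a : ℤ => (a : ℂ) := by
    intro h
    obtain ⟨a, ha, h1⟩ := mem_image.1 h
    have : a = 0 := by exact_mod_cast h1
    exact hA (this ▸ ha)
  have h1 : A.image uI = (A.image fun a : ℤ => (a : ℂ)).image uC := by
    rw [image_image]; rfl
  rw [h1]
  apply en_map (uC_injOn h0) (uC_injOn hP)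
  intro a ha a' ha' p hp p' hp'
  have e1 : a ≠ 0 := fun h => h0 (h ▸ ha)
  have e2 : a' ≠ 0 := fun h => h0 (h ▸ ha')
  have e3 : p ≠ 0 := fun h => hP (h ▸ hp)
  have e4 : p' ≠ 0 := fun h => hP (h ▸ hp')
  rw [← uC_mul e1 e3, ← uC_mul e2 e4]
  constructor
  · intro h; rw [h]
  · intro h
    have := congrArg cC h
    rwa [cC_uC (mul_ne_zero e1 e3), cC_uC (mul_ne_zero e2 e4)] at this

/-- the group of the positive rational numbers -/
def posQ : AddSubgroup (MC) where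
  carrier := {x | ∃ q : ℚ, 0 < q ∧ cC x = (q : ℂ)}
  zero_mem' := ⟨1, one_pos, by rw [cC_zero]; simp⟩
  add_mem' := by
    rintro x y ⟨p, hp, hx⟩ ⟨q, hq, hy⟩
    exact ⟨p * q, mul_pos hp hq, by rw [cC_add, hx, hy]; push_cast; rfl⟩
  neg_mem' := by
    rintro x ⟨p, hp, hx⟩
    exact ⟨p⁻¹, inv_pos.2 hp, by rw [cC_neg, hx]; push_cast; rfl⟩

theorem mem_posQ {x : MC} : x ∈ posQ ↔ ∃ q : ℚ, 0 < q ∧ cC x = (q : ℂ) := Iff.rfl

theorem scale (H : Finset (MC)) (hH : ∀ x ∈ H, x ∈ posQ) :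
    ∃ n : ℕ, 0 < n ∧ ∀ x ∈ H, ∃ m : ℕ, 0 < m ∧ (n : ℂ) * cC x = m := by
  induction H using Finset.induction with
  | empty => exact ⟨1, one_pos, by simp⟩
  | insert x S _ ih =>
    obtain ⟨n, hn, h⟩ := ih fun y hy => hH y (mem_insert_of_mem hy)
    obtain ⟨q, hq, hx⟩ := hH x (mem_insert_self _ _)
    refine ⟨n * q.den, Nat.mul_pos hn q.den_pos, ?_⟩
    intro y hy
    rcases mem_insert.1 hy with rfl | hy
    · refine ⟨n * q.num.toNat, Nat.mul_pos hn ?_, ?_⟩
      · have := Rat.num_pos.2 hq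
        omega
      · rw [hx]
        have h1 : ((q.num.toNat : ℕ) : ℤ) = q.num := Int.toNat_of_nonneg (Rat.num_pos.2 hq).le
        have h2 : (q : ℂ) * (q.den : ℂ) = ((q.num.toNat : ℕ) : ℂ) := by
          have h3 : (q : ℚ) * (q.den : ℚ) = ((q.num.toNat : ℕ) : ℚ) := by
            rw [Rat.mul_den_eq_num]
            exact_mod_cast h1.symm
          exact_mod_cast h3
        push_cast
        rw [← h2]
        ring
    · obtain ⟨m, hm, hm'⟩ := h y hy
      refine ⟨m * q.den, Nat.mul_pos hm q.den_pos, ?_⟩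
      push_cast
      rw [← hm']
      ring

/-- a finite set of positive rational numbers as a set of positive integers -/
theorem to_nat {H : Finset (MC)} (hH : ∀ x ∈ H, x ∈ posQ) :
    ∃ G : Finset ℕ, 0 ∉ G ∧ G.card = H.card ∧ (G * G).card ≤ (H + H).card ∧
      ∀ A : Finset ℤ, (0 : ℤ) ∉ A → A.mulEnergy (zz G) = (A.image uI).addEnergy H := by
  obtain ⟨n, hn, h⟩ := scale H hH
  have hn0 : (n : ℂ) ≠ 0 := by exact_mod_cast hn.ne'
  set g : MC → ℕ := fun x => ⌊((n : ℂ) * cC x).re⌋₊ with hg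
  have hgx : ∀ x ∈ H, 0 < g x ∧ (n : ℂ) * cC x = g x := by
    intro x hx
    obtain ⟨m, hm, hm'⟩ := h x hx
    have : g x = m := by
      rw [hg]
      simp only
      rw [hm', Complex.natCast_re, Nat.floor_natCast]
    rw [this]
    exact ⟨hm, hm'⟩
  have hginj : Set.InjOn g H := by
    intro x hx y hy hxy
    apply cC_inj
    have h1 := (hgx x hx).2
    rw [hxy, ← (hgx y hy).2] at h1
    exact mul_left_cancel₀ hn0 h1
  set G : Finset ℕ := H.image g with hG
  have hG0 : 0 ∉ G := by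
    intro h0
    obtain ⟨x, hx, hx0⟩ := mem_image.1 h0
    have := (hgx x hx).1
    omega
  refine ⟨G, hG0, card_image_of_injOn hginj, ?_, ?_⟩
  · have hsub : G * G ⊆ (H + H).image fun x => ⌊((n : ℂ) * n * cC x).re⌋₊ := by
      intro z hz
      obtain ⟨a, ha, b, hb, rfl⟩ := mem_mul.1 hz
      obtain ⟨x, hx, rfl⟩ := mem_image.1 ha
      obtain ⟨y, hy, rfl⟩ := mem_image.1 hb
      refine mem_image.2 ⟨x + y, add_mem_add hx hy, ?_⟩
      have h1 : (n : ℂ) * n * cC (x + y) = ((g x * g y : ℕ) : ℂ) := by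
        rw [cC_add]
        push_cast
        rw [← (hgx x hx).2, ← (hgx y hy).2]
        ring
      rw [h1, Complex.natCast_re, Nat.floor_natCast]
    exact (card_le_card hsub).trans card_image_le
  · intro A hA
    have hzg : (zz G).image (fun z : ℤ => uI z - uI n) = H := by
      ext x
      simp only [zz, hG, mem_image]
      constructor
      · rintro ⟨_, ⟨_, ⟨y, hy, rfl⟩, rfl⟩, rfl⟩
        have h1 : uI ((g y : ℕ) : ℤ) - uI n = y := by
          apply cC_inj
          have e1 : ((g y : ℕ) : ℤ) ≠ 0 := by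
            have := (hgx y hy).1
            omega
          have e2 : (n : ℤ) ≠ 0 := by omega
          rw [cC_sub, cC_uI e1, cC_uI e2]
          push_cast
          rw [← (hgx y hy).2]
          field_simp
        rw [h1]
        exact hy
      · intro hx
        refine ⟨((g x : ℕ) : ℤ), ⟨g x, ⟨x, hx, rfl⟩, rfl⟩, ?_⟩
        apply cC_inj
        have e1 : ((g x : ℕ) : ℤ) ≠ 0 := by
          have := (hgx x hx).1
          omega
        have e2 : (n : ℤ) ≠ 0 := by omega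
        rw [cC_sub, cC_uI e1, cC_uI e2]
        push_cast
        rw [← (hgx x hx).2]
        field_simp
    rw [← hzg]
    have hz0 : (0 : ℤ) ∉ zz G := zz_zero hG0
    apply en_map (uI_injOn hA)
    · intro a ha b hb hab
      have h1 : uI a = uI b := sub_left_injective hab
      exact uI_injOn hz0 ha hb h1
    · intro a ha a' ha' p hp p' hp'
      have e1 : a ≠ 0 := fun h => hA (h ▸ ha)
      have e2 : a' ≠ 0 := fun h => hA (h ▸ ha')
      have e3 : p ≠ 0 := fun h => hz0 (h ▸ hp)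
      have e4 : p' ≠ 0 := fun h => hz0 (h ▸ hp')
      have e5 : (n : ℤ) ≠ 0 := by omega
      constructor
      · intro h
        apply cC_inj
        rw [cC_add, cC_add, cC_sub, cC_sub, cC_uI e1, cC_uI e2, cC_uI e3, cC_uI e4, cC_uI e5]
        have : (a : ℂ) * p = a' * p' := by exact_mod_cast h
        rw [← mul_div_assoc, ← mul_div_assoc, this]
      · intro h
        have h1 := congrArg cC h
        rw [cC_add, cC_add, cC_sub, cC_sub, cC_uI e1, cC_uI e2, cC_uI e3, cC_uI e4, cC_uI e5,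
          ← mul_div_assoc, ← mul_div_assoc] at h1
        have e6 : ((n : ℤ) : ℂ) ≠ 0 := by exact_mod_cast e5
        have h2 : (a : ℂ) * p = a' * p' := (div_left_inj' e6).1 h1
        exact_mod_cast h2

end Pool.Agent.H85.TS
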