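import Pool.Agent.H85.TS.ChainE

/-!
Sets of integers with large multiplicative energy with a set with few products.
-/

set_option autoImplicit false

namespace Pool.Agent.H85.TS

open Finset
open Pool.Agent.TH83.SQ (cls dil)
open Pool.Agent.TH83.DC (card_dil)
open scoped Pointwise Classical

/-- **sets with large multiplicative energy with a structured set** -/
theorem structured (ε θ : ℝ) (hε : 0 < ε) (hε1 : ε ≤ 1) (hθ : 0 < θ) :
    ∃ δ₀ δ₁ Λ : ℝ, 0 < δ₀ ∧ 0 < δ₁ ∧ 0 ≤ Λ ∧ ∀ (A : Finset ℤ) (G : Finset ℕ), (0 : ℤ) ∉ A →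
      A.Nonempty → 0 ∉ G → (A.card : ℝ) ^ θ ≤ G.card →
      ((G * G).card : ℝ) ≤ (G.card : ℝ) ^ (1 + δ₀) →
      (A.card : ℝ) * (G.card : ℝ) ^ 2 ≤ (A.card : ℝ) ^ δ₁ * (A.mulEnergy (zz G) : ℝ) →
      ∀ B : Finset ℤ, B.Nonempty →
        (1 - ε) * (Real.log A.card + Real.log B.card) - Λ ≤ Real.log ((A + B).card : ℝ) := by
  obtain ⟨m, hm⟩ := exists_nat_ge (8 / ε + 1)
  have hm8 : 8 / ε ≤ m := by linarith
  have hm1 : (1 : ℝ) ≤ m := by
    have : 0 < 8 / ε := by positivity
    linarith
  have hm0 : (0 : ℝ) < m := by linarith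
  set ε₁ : ℝ := ε / (8 * m) with hε₁
  have hε₁0 : 0 < ε₁ := by positivity
  have hmε₁ : m * ε₁ = ε / 8 := by rw [hε₁]; field_simp
  have hm8' : 1 / (m : ℝ) ≤ ε / 8 := by
    rw [div_le_iff₀ hm0]
    rw [div_le_iff₀ hε] at hm8
    linarith
  set s : ℝ := θ * ε / (2 * (m + 1)) with hs
  have hs0 : 0 < s := by positivity
  obtain ⟨δ₀, hδ₀, hdil⟩ := dilates ε₁ s hε₁0 hs0
  set δ₁ : ℝ := min (δ₀ * θ / 2) (ε / (16 * (m + 1))) with hδ₁
  have hδ₁0 : 0 < δ₁ := by positivity
  have hδ₁1 : δ₁ ≤ δ₀ * θ / 2 := min_le_left _ _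
  have hδ₁2 : δ₁ ≤ ε / (16 * (m + 1)) := min_le_right _ _
  have hδ₁2' : 2 * ((m + 1) * δ₁) ≤ ε / 8 := by
    rw [le_div_iff₀ (by positivity)] at hδ₁2
    linarith
  have hl2 : 0 < Real.log 2 := Real.log_pos (by norm_num)
  have hlm : 0 ≤ Real.log m := Real.log_nonneg hm1
  set Λ : ℝ := 2 / δ₁ * Real.log 2 + 4 / (3 * ε) * Real.log m + 1 with hΛ
  have hp1 : 0 ≤ 2 / δ₁ * Real.log 2 := by positivity
  have hp5 : 0 ≤ 4 / (3 * ε) * Real.log m := by positivity
  have hΛ0 : 0 < Λ := by linarith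
  refine ⟨δ₀, δ₁, Λ, hδ₀, hδ₁0, hΛ0.le, ?_⟩
  intro A G hA0 hA hG0 hAG hdoub hE B hB
  have cA : (0 : ℝ) < A.card := by exact_mod_cast hA.card_pos
  have cA1 : (1 : ℝ) ≤ A.card := by exact_mod_cast hA.card_pos
  have cB : (0 : ℝ) < B.card := by exact_mod_cast hB.card_pos
  have cB1 : (1 : ℝ) ≤ B.card := by exact_mod_cast hB.card_pos
  have hABn : (A + B).Nonempty := hA.add hB
  have cAB : (0 : ℝ) < (A + B).card := by exact_mod_cast hABn.card_pos
  set a : ℝ := Real.log A.card with ha
  set b : ℝ := Real.log B.card with hb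
  have ha0 : 0 ≤ a := Real.log_natCast_nonneg _
  have hb0 : 0 ≤ b := Real.log_natCast_nonneg _
  have hABb : b ≤ Real.log ((A + B).card : ℝ) := by
    apply Real.log_le_log cB
    exact_mod_cast card_le_card_add_left hA
  by_cases hsmall : a < Λ
  · have h1 : (1 - ε) * (a + b) ≤ 1 * (a + b) :=
      mul_le_mul_of_nonneg_right (by linarith) (by linarith)
    linarith
  push Not at hsmall
  by_cases hBbig : 2 / ε * a < b
  · have h1 : 2 * a ≤ ε * b := by
      have h2 := mul_le_mul_of_nonneg_left hBbig.le hε.le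
      have h3 : ε * (2 / ε * a) = 2 * a := by field_simp
      linarith
    nlinarith [mul_nonneg hε.le ha0]
  push Not at hBbig
  have l2 : 2 * Real.log 2 ≤ δ₁ * a := by
    have h1 : 2 / δ₁ * Real.log 2 ≤ a := by linarith
    have h2 := mul_le_mul_of_nonneg_left h1 hδ₁0.le
    have h3 : δ₁ * (2 / δ₁ * Real.log 2) = 2 * Real.log 2 := by field_simp
    linarith
  have l5 : Real.log m ≤ 3 * ε / 4 * a := by
    have h1 : 4 / (3 * ε) * Real.log m ≤ a := by linarith
    have h2 := mul_le_mul_of_nonneg_left h1 (by positivity : 0 ≤ 3 * ε / 4)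
    have h3 : 3 * ε / 4 * (4 / (3 * ε) * Real.log m) = Real.log m := by field_simp
    linarith
  have ha1 : 0 < a := by linarith
  have hGn : G.Nonempty := by
    rw [Finset.nonempty_iff_ne_empty]
    rintro rfl
    rw [card_empty, Nat.cast_zero] at hAG
    have : 0 < (A.card : ℝ) ^ θ := by positivity
    linarith
  have cG : (0 : ℝ) < G.card := by exact_mod_cast hGn.card_pos
  have hGlog : θ * a ≤ Real.log G.card := by
    have h2 := Real.log_le_log (by positivity) hAG
    rwa [Real.log_rpow cA] at h2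
  set L : ℝ := (A.card : ℝ) ^ δ₁ with hL
  have hL0 : 0 < L := by positivity
  have hLl : Real.log L = δ₁ * a := by rw [hL, Real.log_rpow cA]
  have h4L : Real.log (4 * L) ≤ 2 * (δ₁ * a) := by
    rw [Real.log_mul (by norm_num) hL0.ne', show (4 : ℝ) = 2 ^ 2 by norm_num, Real.log_pow, hLl]
    push_cast
    linarith
  obtain ⟨C₀, hC₀, hAC₀, hpop⟩ := popularE hL0 hGn hA hG0 hE
  -- the successive choice
  obtain ⟨C, X, R, hC, hX, hCA, -, hCR, hXR, -, hXlog⟩ := chainE (ε := ε₁) hL0 hGn hC₀ hB hG0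
    hpop hε₁0.le m (by
      intro G₁ hG₁ hGG₁ X hX hXm
      have hG₁n : G₁.Nonempty := by
        rw [Finset.nonempty_iff_ne_empty]
        rintro rfl
        rw [card_empty, Nat.cast_zero, mul_zero] at hGG₁
        linarith
      have cG₁ : (0 : ℝ) < G₁.card := by exact_mod_cast hG₁n.card_pos
      apply hdil G G₁ hG0 hG₁ hG₁n hdoub _ B X hB hX
      · calc s * (Real.log B.card + Real.log X.card) ≤ s * (b + m * b) :=
              mul_le_mul_of_nonneg_left (by linarith) hs0.le
          _ ≤ s * ((m + 1) * (2 / ε * a)) := by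
              apply mul_le_mul_of_nonneg_left _ hs0.le
              have : b + m * b = (m + 1) * b := by ring
              rw [this]
              exact mul_le_mul_of_nonneg_left hBbig (by positivity)
          _ = θ * a := by rw [hs]; field_simp
          _ ≤ _ := hGlog
      · rw [← Real.log_le_log_iff (by positivity) cG₁, Real.log_rpow cG]
        have h1 := Real.log_le_log cG hGG₁
        rw [Real.log_mul (by positivity) cG₁.ne'] at h1
        have h2 : 2 * (δ₁ * a) ≤ δ₀ * (θ * a) := by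
          have := mul_le_mul_of_nonneg_right hδ₁1 ha0
          linarith
        have h3 := mul_le_mul_of_nonneg_left hGlog hδ₀.le
        linarith) m le_rfl
  have cC : (0 : ℝ) < C.card := by exact_mod_cast hC.card_pos
  have cC₀ : (0 : ℝ) < C₀.card := by exact_mod_cast hC₀.card_pos
  have cX : (0 : ℝ) < X.card := by exact_mod_cast hX.card_pos
  -- Plünnecke
  have hpl : (X.card : ℝ) ≤ (m * (A + B).card / C.card) ^ m * C.card := by
    have h1 := pluennecke_ruzsa_inequality_nsmul_add hC R m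
    have h2 : ((m • R).card : ℝ) ≤ (((C + R).card : ℝ) / C.card) ^ m * C.card := by
      have h2 := (NNRat.cast_le (K := ℝ)).2 h1
      push_cast at h2
      exact h2
    have h3 : (X.card : ℝ) ≤ (m • R).card := by exact_mod_cast card_le_card hXR
    have h4 : ((C + R).card : ℝ) ≤ m * (A + B).card := by exact_mod_cast hCR
    refine h3.trans (h2.trans ?_)
    apply mul_le_mul_of_nonneg_right _ cC.le
    exact pow_le_pow_left₀ (by positivity) (div_le_div_of_nonneg_right h4 cC.le) m
  have hpl' : Real.log X.card ≤ m * (Real.log m + Real.log ((A + B).card : ℝ) - Real.log C.card) +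
      Real.log C.card := by
    have h1 := Real.log_le_log cX hpl
    rw [Real.log_mul (by positivity) cC.ne', Real.log_pow, Real.log_div (by positivity) cC.ne',
      Real.log_mul (by positivity) cAB.ne'] at h1
    exact h1
  have hClog : (1 - ε / 8) * a ≤ Real.log C.card := by
    have h1 := Real.log_le_log cC₀ hCA
    rw [Real.log_mul (by positivity) cC.ne', Real.log_pow] at h1
    have h0 := Real.log_le_log cA hAC₀
    rw [Real.log_mul (by positivity) cC₀.ne', Real.log_mul (by norm_num) hL0.ne', hLl] at h0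
    have h2 := mul_le_mul_of_nonneg_left h4L hm0.le
    have h3 : 2 * ((m + 1) * δ₁) * a ≤ ε / 8 * a := mul_le_mul_of_nonneg_right hδ₁2' ha0
    nlinarith
  rw [hmε₁] at hXlog
  -- conclusion
  have hfin : m * ((1 - ε / 8) * b) + (m - 1) * ((1 - ε / 8) * a) - m * Real.log m ≤
      m * Real.log ((A + B).card : ℝ) := by
    have h1 : (m - 1) * ((1 - ε / 8) * a) ≤ (m - 1) * Real.log C.card :=
      mul_le_mul_of_nonneg_left hClog (by linarith)
    nlinarith
  have hfin2 : m * ((1 - ε) * (a + b) - Λ) ≤ m * Real.log ((A + B).card : ℝ) := by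
    refine le_trans ?_ hfin
    have h1 : m * (3 * ε / 4 * a) ≥ m * Real.log m := mul_le_mul_of_nonneg_left l5 hm0.le
    have h2 : 1 ≤ m * (ε / 8) := by
      rw [div_le_iff₀ hm0] at hm8'
      linarith
    have h3 : a ≤ m * (ε / 8) * a := by
      have := mul_le_mul_of_nonneg_right h2 ha0
      linarith
    have h4 : 0 ≤ m * (ε * b) := by positivity
    have h5 : 0 ≤ m * (ε * a) := by positivity
    have h6 : 0 ≤ m * Λ := by positivity
    have h7 : 0 ≤ ε / 8 * a := by positivity
    have e1 : m * ((1 - ε / 8) * b) + (m - 1) * ((1 - ε / 8) * a) - m * Real.log m -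
        m * ((1 - ε) * (a + b) - Λ) = 7 / 8 * (m * (ε * b)) + 7 / 8 * (m * (ε * a)) -
          (a - ε / 8 * a) - m * Real.log m + m * Λ := by ring
    have e2 : m * (3 * ε / 4 * a) = 3 / 4 * (m * (ε * a)) := by ring
    have e3 : m * (ε / 8) * a = 1 / 8 * (m * (ε * a)) := by ring
    linarith
  exact le_of_mul_le_mul_left hfin2 hm0

end Pool.Agent.H85.TS
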