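import Pool.Agent.H85.TS.PackE
import Pool.Agent.H85.TS.Str
import Pool.Agent.H85.TS.Red

/-!
Large multiplicative energy with a set not larger than `A`.
-/

set_option autoImplicit false

namespace Pool.Agent.H85.TS

open Finset
open scoped Pointwise Classical

/-- the part of one sign -/
theorem sign_part {A : Finset ℤ} (hA : (0 : ℤ) ∉ A) (V : Finset MC) :
    ∃ A₁ ⊆ A, ((A.image uI).addEnergy V : ℝ) ≤ 4 * (A₁.image uI).addEnergy V ∧
      ∀ u ∈ A₁.image uI, ∀ u' ∈ A₁.image uI, u - u' ∈ posQ := by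
  set P := A.filter fun a => 0 < a with hP
  set Q := A.filter fun a => ¬ 0 < a with hQ
  have hPA : P ⊆ A := filter_subset _ _
  have hQA : Q ⊆ A := filter_subset _ _
  have hPQ : P ∪ Q = A := filter_union_filter_not_eq _ _
  have hdis : Disjoint P Q := disjoint_filter_filter_not _ _ _
  have hdis' : Disjoint (P.image uI) (Q.image uI) := by
    rw [disjoint_left]
    rintro x hx hy
    obtain ⟨a, ha, rfl⟩ := mem_image.1 hx
    obtain ⟨b, hb, hab⟩ := mem_image.1 hy
    have := uI_injOn hA (hQA hb) (hPA ha) hab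
    subst this
    exact disjoint_left.1 hdis ha hb
  have himg : A.image uI = P.image uI ∪ Q.image uI := by rw [← image_union, hPQ]
  have hmem : ∀ a ∈ A, ∀ b ∈ A, 0 < a * b → uI a - uI b ∈ posQ := by
    intro a ha b hb hab
    have ha0 : a ≠ 0 := fun h => hA (h ▸ ha)
    have hb0 : b ≠ 0 := fun h => hA (h ▸ hb)
    refine ⟨(a : ℚ) / b, ?_, ?_⟩
    · rw [div_pos_iff]
      rcases pos_and_pos_or_neg_and_neg_of_mul_pos hab with ⟨h1, h2⟩ | ⟨h1, h2⟩
      · left; exact ⟨by exact_mod_cast h1, by exact_mod_cast h2⟩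
      · right; exact ⟨by exact_mod_cast h1, by exact_mod_cast h2⟩
    · rw [cC_sub, cC_uI ha0, cC_uI hb0]
      push_cast
      rfl
  rw [himg]
  rcases en_part (P.image uI) (Q.image uI) V hdis' with h | h
  · refine ⟨P, hPA, h, ?_⟩
    intro u hu u' hu'
    obtain ⟨a, ha, rfl⟩ := mem_image.1 hu
    obtain ⟨b, hb, rfl⟩ := mem_image.1 hu'
    exact hmem a (hPA ha) b (hPA hb) (mul_pos (mem_filter.1 ha).2 (mem_filter.1 hb).2)
  · refine ⟨Q, hQA, h, ?_⟩
    intro u hu u' hu'
    obtain ⟨a, ha, rfl⟩ := mem_image.1 hu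
    obtain ⟨b, hb, rfl⟩ := mem_image.1 hu'
    have ha1 := (mem_filter.1 ha).2
    have hb1 := (mem_filter.1 hb).2
    have ha0 : a ≠ 0 := fun h => hA (h ▸ hQA ha)
    have hb0 : b ≠ 0 := fun h => hA (h ▸ hQA hb)
    exact hmem a (hQA ha) b (hQA hb) (mul_pos_of_neg_of_neg (by omega) (by omega))

theorem caseOne (ε θ : ℝ) (hε : 0 < ε) (hε1 : ε ≤ 1) (hθ : 0 < θ) :
    ∃ δ Λ : ℝ, 0 < δ ∧ 0 ≤ Λ ∧ ∀ (A : Finset ℤ) (P : Finset ℂ), (0 : ℤ) ∉ A → A.Nonempty →
      (0 : ℂ) ∉ P → (A.card : ℝ) ^ θ ≤ P.card →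
      (A.card : ℝ) * (P.card : ℝ) ^ 2 ≤
        (A.card : ℝ) ^ δ * ((A.image fun a : ℤ => (a : ℂ)).mulEnergy P : ℝ) →
      ∀ B : Finset ℤ, B.Nonempty →
        (1 - ε) * (Real.log A.card + Real.log B.card) - Λ ≤ Real.log ((A + B).card : ℝ) := by
  obtain ⟨δ₀, δ₁, Λ₁, hδ₀, hδ₁, hΛ₁, hstr⟩ := structured (ε / 2) (θ / 2) (by positivity)
    (by linarith) (by positivity)
  set τ : ℝ := min 1 (min (θ * δ₀ / 4) (min (δ₁ / 2) (θ / 8))) with hτ
  have hτ0 : 0 < τ := by positivity
  have hτ1 : τ ≤ 1 := min_le_left _ _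
  have hτ2 : τ ≤ θ * δ₀ / 4 := (min_le_right _ _).trans (min_le_left _ _)
  have hτ3 : τ ≤ δ₁ / 2 := (min_le_right _ _).trans ((min_le_right _ _).trans (min_le_left _ _))
  have hτ4 : τ ≤ θ / 8 := (min_le_right _ _).trans ((min_le_right _ _).trans (min_le_right _ _))
  obtain ⟨δ', N₀, hδ', hN₀, hiter⟩ := iterN 1 τ le_rfl hτ0 hτ1
  set δ : ℝ := min δ' (min (θ / 8) (min (1 / 4) (ε / 2))) with hδ
  have hδ0 : 0 < δ := by positivity
  have hδ1 : δ ≤ δ' := min_le_left _ _
  have hδ2 : δ ≤ θ / 8 := (min_le_right _ _).trans (min_le_left _ _)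
  have hδ3 : δ ≤ 1 / 4 := (min_le_right _ _).trans ((min_le_right _ _).trans (min_le_left _ _))
  have hδ4 : δ ≤ ε / 2 := (min_le_right _ _).trans ((min_le_right _ _).trans (min_le_right _ _))
  have hl2 : 0 < Real.log 2 := Real.log_pos (by norm_num)
  have hl4 : 0 < Real.log 4 := Real.log_pos (by norm_num)
  have hlN₀ : 0 ≤ Real.log N₀ := Real.log_nonneg hN₀
  set Λ₂ : ℝ := Real.log N₀ + 8 / θ * Real.log 4 + 4 * Real.log 4 with hΛ₂
  have hp1 : 0 ≤ 8 / θ * Real.log 4 := by positivity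
  refine ⟨δ, Λ₁ + Λ₂, hδ0, by linarith, ?_⟩
  intro A P hA0 hA hP0 hAP hE B hB
  have cA : (0 : ℝ) < A.card := by exact_mod_cast hA.card_pos
  have cA1 : (1 : ℝ) ≤ A.card := by exact_mod_cast hA.card_pos
  have cB : (0 : ℝ) < B.card := by exact_mod_cast hB.card_pos
  have hABn : (A + B).Nonempty := hA.add hB
  have cAB : (0 : ℝ) < (A + B).card := by exact_mod_cast hABn.card_pos
  set a : ℝ := Real.log A.card with ha
  set b : ℝ := Real.log B.card with hb
  have ha0 : 0 ≤ a := Real.log_natCast_nonneg _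
  have hb0 : 0 ≤ b := Real.log_natCast_nonneg _
  have hABb : b ≤ Real.log ((A + B).card : ℝ) := by
    apply Real.log_le_log cB
    exact_mod_cast card_le_card_add_left hA
  by_cases hsmall : a < Λ₂
  · have h1 : (1 - ε) * (a + b) ≤ 1 * (a + b) :=
      mul_le_mul_of_nonneg_right (by linarith) (by linarith)
    linarith
  push Not at hsmall
  set N : ℝ := (A.card : ℝ) with hN
  have hNN₀ : N₀ ≤ N := by
    rw [← Real.log_le_log_iff (by linarith) cA]
    linarith
  have hmono : ∀ x y : ℝ, x ≤ y → N ^ x ≤ N ^ y := fun x y h =>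
    Real.rpow_le_rpow_of_exponent_le cA1 h
  have hadd : ∀ x y : ℝ, N ^ x * N ^ y = N ^ (x + y) := fun x y => (Real.rpow_add cA x y).symm
  have h4a : 4 ≤ N ^ (θ / 8) := by
    rw [← Real.log_le_log_iff (by norm_num) (by positivity), Real.log_rpow cA]
    have h1 : 8 / θ * Real.log 4 ≤ a := by linarith
    have h2 := mul_le_mul_of_nonneg_left h1 (by positivity : 0 ≤ θ / 8)
    have h3 : θ / 8 * (8 / θ * Real.log 4) = Real.log 4 := by field_simp
    linarith
  have h4b : 4 ≤ N ^ (1 / 4 : ℝ) := by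
    rw [← Real.log_le_log_iff (by norm_num) (by positivity), Real.log_rpow cA]
    linarith
  -- the energy in the multiplicative group
  have hPn : P.Nonempty := by
    rw [Finset.nonempty_iff_ne_empty]
    rintro rfl
    rw [card_empty, Nat.cast_zero] at hAP
    have : 0 < N ^ θ := by positivity
    linarith
  have cP : (0 : ℝ) < P.card := by exact_mod_cast hPn.card_pos
  rw [en_uC hA0 hP0] at hE
  obtain ⟨A₁, hA₁A, hE₁, hA₁⟩ := sign_part hA0 (P.image uC)
  have hA₁0 : (0 : ℤ) ∉ A₁ := fun h => hA0 (hA₁A h)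
  set U : Finset MC := A₁.image uI with hU
  obtain ⟨W, hWP, hWn, hW, hEW⟩ := exists_class posQ U (P.image uC) hA₁ (hPn.image _)
  rw [card_image_of_injOn (uC_injOn hP0)] at hEW
  obtain ⟨w₀, hw₀⟩ := hWn
  set V : Finset MC := W.image fun v => v - w₀ with hV
  have hVc : V.card = W.card := card_image_of_injective _ sub_left_injective
  have hVn : V.Nonempty := ⟨_, mem_image_of_mem _ hw₀⟩
  have hVΓ : ∀ x ∈ V, x ∈ posQ := by
    intro x hx
    obtain ⟨w, hw, rfl⟩ := mem_image.1 hx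
    exact hW w hw w₀ hw₀
  have hEV : U.addEnergy V = U.addEnergy W := en_trans U W w₀
  rw [← hEV, ← hVc] at hEW
  have cV : (0 : ℝ) < V.card := by exact_mod_cast hVn.card_pos
  have hVP : (V.card : ℝ) ≤ P.card := by
    have h1 := card_le_card hWP
    rw [card_image_of_injOn (uC_injOn hP0), ← hVc] at h1
    exact_mod_cast h1
  have hUc : U.card = A₁.card := card_image_of_injOn (uI_injOn hA₁0)
  have hUN : (U.card : ℝ) ≤ N := by
    rw [hUc, hN]
    exact_mod_cast card_le_card hA₁A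
  have hNδ : N ^ (1 - δ) * N ^ δ = N := by
    rw [hadd, show 1 - δ + δ = 1 by ring, Real.rpow_one]
  have hNδ0 : 0 < N ^ δ := by positivity
  -- the main inequality
  have hmain : N * (P.card : ℝ) * V.card ≤ 4 * N ^ δ * U.addEnergy V := by
    have h1 : N * (P.card : ℝ) * V.card * P.card ≤ 4 * N ^ δ * U.addEnergy V * P.card := by
      calc N * (P.card : ℝ) * V.card * P.card = N * (P.card : ℝ) ^ 2 * V.card := by ring
        _ ≤ N ^ δ * ((A.image uI).addEnergy (P.image uC) : ℝ) * V.card :=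
            mul_le_mul_of_nonneg_right hE cV.le
        _ ≤ N ^ δ * (4 * U.addEnergy (P.image uC)) * V.card :=
            mul_le_mul_of_nonneg_right (mul_le_mul_of_nonneg_left hE₁ hNδ0.le) cV.le
        _ = 4 * N ^ δ * ((U.addEnergy (P.image uC) : ℝ) * V.card) := by ring
        _ ≤ 4 * N ^ δ * ((U.addEnergy V : ℝ) * P.card) :=
            mul_le_mul_of_nonneg_left hEW (by positivity)
        _ = _ := by ring
    exact le_of_mul_le_mul_right h1 cP
  have hErt := en_le_right U V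
  have hPV : (P.card : ℝ) ≤ 4 * N ^ δ * V.card := by
    have h1 : N * V.card * (P.card : ℝ) ≤ N * V.card * (4 * N ^ δ * V.card) := by
      calc N * V.card * (P.card : ℝ) = N * (P.card : ℝ) * V.card := by ring
        _ ≤ 4 * N ^ δ * U.addEnergy V := hmain
        _ ≤ 4 * N ^ δ * (U.card * (V.card : ℝ) ^ 2) :=
            mul_le_mul_of_nonneg_left hErt (by positivity)
        _ ≤ 4 * N ^ δ * (N * (V.card : ℝ) ^ 2) := by gcongr
        _ = _ := by ring
    exact le_of_mul_le_mul_left h1 (by positivity)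
  have hUge : N ≤ 4 * N ^ δ * U.card := by
    have h1 : (P.card : ℝ) * V.card * N ≤ (P.card : ℝ) * V.card * (4 * N ^ δ * U.card) := by
      calc (P.card : ℝ) * V.card * N = N * (P.card : ℝ) * V.card := by ring
        _ ≤ 4 * N ^ δ * U.addEnergy V := hmain
        _ ≤ 4 * N ^ δ * (U.card * (V.card : ℝ) ^ 2) :=
            mul_le_mul_of_nonneg_left hErt (by positivity)
        _ = 4 * N ^ δ * U.card * V.card * V.card := by ring
        _ ≤ 4 * N ^ δ * U.card * V.card * P.card :=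
            mul_le_mul_of_nonneg_left hVP (by positivity)
        _ = _ := by ring
    exact le_of_mul_le_mul_left h1 (by positivity)
  have hUn : U.Nonempty := by
    rw [Finset.nonempty_iff_ne_empty]
    intro h0
    rw [h0, card_empty, Nat.cast_zero, mul_zero] at hUge
    linarith
  have cU : (0 : ℝ) < U.card := by exact_mod_cast hUn.card_pos
  obtain ⟨H, hHn, hHΓ, h1, h2, h3, -⟩ := hiter MC posQ U V N hNN₀ hUn hVn hVΓ
    (by rw [Real.rpow_one]; exact hUN)
    (by
      calc (U.card : ℝ) * (V.card : ℝ) ^ 2 = U.card * V.card * V.card := by ring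
        _ ≤ N * P.card * V.card := by gcongr
        _ ≤ 4 * N ^ δ * U.addEnergy V := hmain
        _ ≤ 4 * N ^ δ' * U.addEnergy V := by
            apply mul_le_mul_of_nonneg_right _ (Nat.cast_nonneg _)
            exact mul_le_mul_of_nonneg_left (hmono _ _ hδ1) (by norm_num))
  have cH : (0 : ℝ) < H.card := by exact_mod_cast hHn.card_pos
  obtain ⟨G, hG0, hGH, hGG, hGE⟩ := to_nat hHΓ
  have hGge : N ^ (θ / 2) ≤ G.card := by
    rw [hGH]
    have e1 : N ^ θ ≤ 4 * N ^ δ * (N ^ τ * H.card) :=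
      hAP.trans (hPV.trans (mul_le_mul_of_nonneg_left h2 (by positivity)))
    have e2 : 4 * N ^ δ * (N ^ τ * H.card) ≤ N ^ (θ / 2) * H.card := by
      calc 4 * N ^ δ * (N ^ τ * H.card) = 4 * N ^ δ * N ^ τ * H.card := by ring
        _ ≤ N ^ (θ / 8) * N ^ (θ / 8) * N ^ (θ / 8) * H.card := by
            apply mul_le_mul_of_nonneg_right _ cH.le
            apply mul_le_mul _ (hmono _ _ hτ4) (by positivity) (by positivity)
            exact mul_le_mul h4a (hmono _ _ hδ2) (by positivity) (by positivity)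
        _ ≤ N ^ (θ / 2) * H.card := by
            rw [hadd, hadd]
            exact mul_le_mul_of_nonneg_right (hmono _ _ (by linarith)) cH.le
    have e3 : N ^ (θ / 2) * N ^ (θ / 2) ≤ N ^ (θ / 2) * H.card := by
      rw [hadd, show θ / 2 + θ / 2 = θ by ring]
      exact e1.trans e2
    exact le_of_mul_le_mul_left e3 (by positivity)
  have cG : (0 : ℝ) < G.card := by rw [hGH]; exact cH
  have hUhalf : N ^ (1 / 2 : ℝ) ≤ U.card := by
    have e1 : N ^ (1 / 2 : ℝ) * N ^ (1 / 2 : ℝ) ≤ N ^ (1 / 2 : ℝ) * U.card := by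
      rw [hadd, show (1 / 2 : ℝ) + 1 / 2 = 1 by norm_num, Real.rpow_one]
      calc N ≤ 4 * N ^ δ * U.card := hUge
        _ ≤ N ^ (1 / 4 : ℝ) * N ^ (1 / 4 : ℝ) * U.card := by
            apply mul_le_mul_of_nonneg_right _ cU.le
            exact mul_le_mul h4b (hmono _ _ hδ3) (by positivity) (by positivity)
        _ = _ := by rw [hadd]; norm_num
    exact le_of_mul_le_mul_left e1 (by positivity)
  have hA₁n : A₁.Nonempty := by
    rw [← card_pos, ← hUc]
    exact hUn.card_pos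
  have cA₁ : (0 : ℝ) < A₁.card := by exact_mod_cast hA₁n.card_pos
  have hcA₁ : (A₁.card : ℝ) = U.card := by rw [hUc]
  -- the hypotheses of the structured theorem
  have hs1 : (A₁.card : ℝ) ^ (θ / 2) ≤ G.card := by
    refine le_trans ?_ hGge
    rw [hcA₁]
    exact Real.rpow_le_rpow cU.le hUN (by positivity)
  have hs2 : ((G * G).card : ℝ) ≤ (G.card : ℝ) ^ (1 + δ₀) := by
    have e1 := pluennecke_ruzsa_inequality_nsmul_sub hHn H 2
    have e2 : (((2 • H).card : ℕ) : ℝ) ≤ (((H - H).card : ℝ) / H.card) ^ 2 * H.card := by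
      have e2 := (NNRat.cast_le (K := ℝ)).2 e1
      push_cast at e2
      exact e2
    rw [two_nsmul] at e2
    have e3 : ((H - H).card : ℝ) / H.card ≤ N ^ τ := by
      rw [div_le_iff₀ cH]
      exact h1
    have e4 : ((H + H).card : ℝ) ≤ (N ^ τ) ^ 2 * H.card :=
      e2.trans (mul_le_mul_of_nonneg_right (pow_le_pow_left₀ (by positivity) e3 2) cH.le)
    have e5 : ((G * G).card : ℝ) ≤ (H + H).card := by exact_mod_cast hGG
    have e6 : (N ^ τ) ^ 2 ≤ (G.card : ℝ) ^ δ₀ := by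
      calc (N ^ τ) ^ 2 = N ^ (τ + τ) := by rw [sq, hadd]
        _ ≤ N ^ (θ / 2 * δ₀) := hmono _ _ (by linarith)
        _ = (N ^ (θ / 2)) ^ δ₀ := Real.rpow_mul cA.le _ _
        _ ≤ _ := Real.rpow_le_rpow (by positivity) hGge hδ₀.le
    calc ((G * G).card : ℝ) ≤ (N ^ τ) ^ 2 * H.card := e5.trans e4
      _ ≤ (G.card : ℝ) ^ δ₀ * G.card := by
          rw [hGH] at e6 ⊢
          exact mul_le_mul_of_nonneg_right e6 cH.le
      _ = _ := by rw [Real.rpow_add cG, Real.rpow_one, mul_comm]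
  have hs3 : (A₁.card : ℝ) * (G.card : ℝ) ^ 2 ≤
      (A₁.card : ℝ) ^ δ₁ * (A₁.mulEnergy (zz G) : ℝ) := by
    rw [hGE A₁ hA₁0, hcA₁, hGH]
    refine h3.trans (mul_le_mul_of_nonneg_right ?_ (Nat.cast_nonneg _))
    calc N ^ τ ≤ N ^ (1 / 2 * δ₁) := hmono _ _ (by linarith)
      _ = (N ^ (1 / 2 : ℝ)) ^ δ₁ := Real.rpow_mul cA.le _ _
      _ ≤ _ := Real.rpow_le_rpow (by positivity) hUhalf hδ₁.le
  have hfin := hstr A₁ G hA₁0 hA₁n hG0 hs1 hs2 hs3 B hB
  have hle : Real.log ((A₁ + B).card : ℝ) ≤ Real.log ((A + B).card : ℝ) := by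
    apply Real.log_le_log
    · exact_mod_cast (hA₁n.add hB).card_pos
    · exact_mod_cast card_le_card (add_subset_add_right hA₁A)
  have hlogA₁ : (1 - δ) * a - Real.log 4 ≤ Real.log A₁.card := by
    have e1 := Real.log_le_log cA hUge
    rw [Real.log_mul (by positivity) cU.ne', Real.log_mul (by norm_num) hNδ0.ne',
      Real.log_rpow cA] at e1
    rw [hcA₁]
    linarith
  have k1 : (1 - ε / 2) * ((1 - δ) * a - Real.log 4 + b) ≤
      (1 - ε / 2) * (Real.log A₁.card + Real.log B.card) := by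
    apply mul_le_mul_of_nonneg_left _ (by linarith)
    linarith
  have k2 : (1 - ε) * (a + b) - Real.log 4 ≤ (1 - ε / 2) * ((1 - δ) * a - Real.log 4 + b) := by
    have k3 : δ * a ≤ ε / 2 * a := mul_le_mul_of_nonneg_right hδ4 ha0
    nlinarith [mul_nonneg hε.le ha0, mul_nonneg hε.le hb0, mul_nonneg hε.le hl4.le,
      mul_nonneg (mul_nonneg hε.le hδ0.le) ha0]
  linarith

end Pool.Agent.H85.TS
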