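import Mathlib

/-!
Plünnecke's inequality for a large subset.
-/

set_option autoImplicit false

namespace Pool.Agent.H85.TS

open Finset
open scoped Pointwise

section group

variable {M : Type*} [CommGroup M] [DecidableEq M]

theorem pow_le_of_min {X S : Finset M} (hX : X.Nonempty)
    (h : ∀ A' ⊆ X, (X * S).card * A'.card ≤ (A' * S).card * X.card) {K : ℝ} (hK : 0 ≤ K)
    (hXS : ((X * S).card : ℝ) ≤ K * X.card) (k : ℕ) :
    ((X * S ^ k).card : ℝ) ≤ K ^ k * X.card := by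
  have cX : (0 : ℝ) < X.card := by exact_mod_cast hX.card_pos
  induction k with
  | zero => simp
  | succ k ih =>
    have h1 := pluennecke_petridis_inequality_mul (A := X) (B := S) (S ^ k) h
    have h2 : S ^ k * X * S = X * S ^ (k + 1) := by
      rw [pow_succ, mul_comm (S ^ k) X, mul_assoc]
    rw [h2, mul_comm (S ^ k) X] at h1
    have h3 : ((X * S ^ (k + 1)).card : ℝ) * X.card ≤ (X * S).card * (X * S ^ k).card := by
      exact_mod_cast h1
    have h4 : ((X * S).card : ℝ) * (X * S ^ k).card ≤ K * X.card * (K ^ k * X.card) :=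
      mul_le_mul hXS ih (Nat.cast_nonneg _) (by positivity)
    have h5 : ((X * S ^ (k + 1)).card : ℝ) * X.card ≤ K ^ (k + 1) * X.card * X.card := by
      calc _ ≤ K * X.card * (K ^ k * X.card) := h3.trans h4
        _ = K ^ (k + 1) * X.card * X.card := by ring
    exact le_of_mul_le_mul_right h5 cX

theorem exists_piece {A S : Finset M} (hA : A.Nonempty) {K : ℝ} (hK : 0 ≤ K)
    (hAS : ((A * S).card : ℝ) ≤ K * A.card) :
    ∃ X ⊆ A, X.Nonempty ∧ ∀ k : ℕ, ((X * S ^ k).card : ℝ) ≤ K ^ k * X.card := by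
  have hA' : A ∈ A.powerset.erase ∅ := mem_erase_of_ne_of_mem hA.ne_empty (mem_powerset_self _)
  obtain ⟨C, hC, hCmin⟩ :=
    exists_min_image (A.powerset.erase ∅) (fun C => ((C * S).card : ℝ) / C.card) ⟨A, hA'⟩
  rw [mem_erase, mem_powerset, ← nonempty_iff_ne_empty] at hC
  obtain ⟨hC, hCA⟩ := hC
  have cC : (0 : ℝ) < C.card := by exact_mod_cast hC.card_pos
  have cA : (0 : ℝ) < A.card := by exact_mod_cast hA.card_pos
  refine ⟨C, hCA, hC, pow_le_of_min hC ?_ hK ?_⟩
  · intro A' hA'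
    rcases A'.eq_empty_or_nonempty with rfl | hne
    · simp
    have cA' : (0 : ℝ) < A'.card := by exact_mod_cast hne.card_pos
    have h1 := hCmin A' (mem_erase_of_ne_of_mem hne.ne_empty
      (mem_powerset.2 (hA'.trans hCA)))
    rw [div_le_div_iff₀ cC cA'] at h1
    exact_mod_cast h1
  · have h1 := hCmin A hA'
    rw [div_le_div_iff₀ cC cA] at h1
    have h2 : ((C * S).card : ℝ) * A.card ≤ K * C.card * A.card := by
      calc _ ≤ ((A * S).card : ℝ) * C.card := h1
        _ ≤ K * A.card * C.card := mul_le_mul_of_nonneg_right hAS cC.le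
        _ = _ := by ring
    exact le_of_mul_le_mul_right h2 cA

theorem exists_large_piece {A S : Finset M} {K : ℝ} (hK : 0 ≤ K)
    (hAS : ((A * S).card : ℝ) ≤ K * A.card) :
    ∃ X ⊆ A, A.card ≤ 2 * X.card ∧ ∀ k : ℕ, ((X * S ^ k).card : ℝ) ≤ (2 * K) ^ k * X.card := by
  classical
  set T := A.powerset.filter fun X => ∀ k : ℕ, ((X * S ^ k).card : ℝ) ≤ (2 * K) ^ k * X.card with hT
  have hTn : T.Nonempty := ⟨∅, by rw [hT, mem_filter]; simp⟩
  obtain ⟨X, hX, hmax⟩ := exists_max_image T Finset.card hTn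
  obtain ⟨hXA, hXk⟩ := mem_filter.1 hX
  rw [mem_powerset] at hXA
  refine ⟨X, hXA, ?_, hXk⟩
  by_contra hcon
  push Not at hcon
  have hRc : (A \ X).card + X.card = A.card := card_sdiff_add_card_eq_card hXA
  have hR : (A \ X).Nonempty := by rw [← card_pos]; omega
  have hRS : (((A \ X) * S).card : ℝ) ≤ 2 * K * (A \ X).card := by
    have h1 : (((A \ X) * S).card : ℝ) ≤ (A * S).card := by
      exact_mod_cast card_le_card (mul_subset_mul_right sdiff_subset)
    have h2 : (A.card : ℝ) ≤ 2 * (A \ X).card := by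
      have : A.card ≤ 2 * (A \ X).card := by omega
      exact_mod_cast this
    calc _ ≤ K * A.card := h1.trans hAS
      _ ≤ K * (2 * (A \ X).card) := mul_le_mul_of_nonneg_left h2 hK
      _ = _ := by ring
  obtain ⟨Y, hYR, hYn, hYk⟩ := exists_piece hR (by positivity) hRS
  have hdisj : Disjoint X Y := disjoint_of_subset_right hYR disjoint_sdiff
  have hmem : X ∪ Y ∈ T := by
    rw [hT, mem_filter, mem_powerset]
    refine ⟨union_subset hXA (hYR.trans sdiff_subset), fun k => ?_⟩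
    rw [union_mul, card_union_of_disjoint hdisj]
    have h1 : (((X * S ^ k) ∪ (Y * S ^ k)).card : ℝ) ≤ (X * S ^ k).card + (Y * S ^ k).card := by
      exact_mod_cast card_union_le _ _
    push_cast
    have h2 := hXk k
    have h3 := hYk k
    linarith
  have h1 := hmax _ hmem
  rw [card_union_of_disjoint hdisj] at h1
  have := hYn.card_pos
  omega

end group

/-- nonzero integers as units of the rationals -/
noncomputable def uz (a : ℤ) : ℚˣ := if h : (a : ℚ) ≠ 0 then Units.mk0 (a : ℚ) h else 1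

theorem uz_val {a : ℤ} (ha : a ≠ 0) : ((uz a : ℚˣ) : ℚ) = a := by
  have : (a : ℚ) ≠ 0 := by exact_mod_cast ha
  simp [uz, this]

theorem uz_mul {a b : ℤ} (ha : a ≠ 0) (hb : b ≠ 0) : uz (a * b) = uz a * uz b := by
  ext
  rw [Units.val_mul, uz_val ha, uz_val hb, uz_val (mul_ne_zero ha hb)]
  push_cast; ring

theorem uz_inj {a b : ℤ} (ha : a ≠ 0) (hb : b ≠ 0) (h : uz a = uz b) : a = b := by
  have h1 := congrArg (fun u : ℚˣ => (u : ℚ)) h
  simp only [uz_val ha, uz_val hb] at h1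
  exact_mod_cast h1

theorem uz_injOn {A : Finset ℤ} (hA : (0 : ℤ) ∉ A) : Set.InjOn uz A := fun a ha b hb h =>
  uz_inj (fun h => hA (h ▸ ha)) (fun h => hA (h ▸ hb)) h

theorem zero_notMem_mul {A B : Finset ℤ} (hA : (0 : ℤ) ∉ A) (hB : (0 : ℤ) ∉ B) :
    (0 : ℤ) ∉ A * B := by
  intro h
  obtain ⟨a, ha, b, hb, hab⟩ := mem_mul.1 h
  rcases mul_eq_zero.1 hab with h | h
  · exact hA (h ▸ ha)
  · exact hB (h ▸ hb)

theorem image_uz_mul {A B : Finset ℤ} (hA : (0 : ℤ) ∉ A) (hB : (0 : ℤ) ∉ B) :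
    (A * B).image uz = A.image uz * B.image uz := by
  ext x
  simp only [mem_image, mem_mul]
  constructor
  · rintro ⟨_, ⟨a, ha, b, hb, rfl⟩, rfl⟩
    exact ⟨_, ⟨a, ha, rfl⟩, _, ⟨b, hb, rfl⟩,
      (uz_mul (fun h => hA (h ▸ ha)) (fun h => hB (h ▸ hb))).symm⟩
  · rintro ⟨_, ⟨a, ha, rfl⟩, _, ⟨b, hb, rfl⟩, rfl⟩
    exact ⟨_, ⟨a, ha, b, hb, rfl⟩, uz_mul (fun h => hA (h ▸ ha)) (fun h => hB (h ▸ hb))⟩

theorem zero_notMem_pow {S : Finset ℤ} (hS : (0 : ℤ) ∉ S) (k : ℕ) : (0 : ℤ) ∉ S ^ k := by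
  induction k with
  | zero => simp
  | succ k ih => rw [pow_succ]; exact zero_notMem_mul ih hS

theorem image_uz_pow {S : Finset ℤ} (hS : (0 : ℤ) ∉ S) (k : ℕ) :
    (S ^ k).image uz = (S.image uz) ^ k := by
  induction k with
  | zero =>
    have h1 : uz 1 = 1 := by ext; rw [uz_val one_ne_zero]; simp
    rw [pow_zero, pow_zero]
    change (({1} : Finset ℤ)).image uz = ({1} : Finset ℚˣ)
    rw [image_singleton, h1]
  | succ k ih => rw [pow_succ, pow_succ, image_uz_mul (zero_notMem_pow hS k) hS, ih]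

/-- Plünnecke's inequality for a large subset, nonzero integers -/
theorem large_piece {A S : Finset ℤ} (hA : (0 : ℤ) ∉ A) (hS : (0 : ℤ) ∉ S) {K : ℝ} (hK : 0 ≤ K)
    (hAS : ((A * S).card : ℝ) ≤ K * A.card) :
    ∃ X ⊆ A, A.card ≤ 2 * X.card ∧ ∀ k : ℕ, ((X * S ^ k).card : ℝ) ≤ (2 * K) ^ k * X.card := by
  have h1 : ((A.image uz * S.image uz).card : ℝ) ≤ K * (A.image uz).card := by
    rw [← image_uz_mul hA hS, card_image_of_injOn (uz_injOn (zero_notMem_mul hA hS)),
      card_image_of_injOn (uz_injOn hA)]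
    exact hAS
  obtain ⟨X, hXA, hX2, hXk⟩ := exists_large_piece hK h1
  have hX' : (A.filter fun a => uz a ∈ X).image uz = X := by
    ext u
    simp only [mem_image, mem_filter]
    constructor
    · rintro ⟨a, ⟨_, ha⟩, rfl⟩; exact ha
    · intro hu
      obtain ⟨a, ha, rfl⟩ := mem_image.1 (hXA hu)
      exact ⟨a, ⟨ha, hu⟩, rfl⟩
  set X' := A.filter fun a => uz a ∈ X with hX'def
  have hX'A : X' ⊆ A := filter_subset _ _
  have hX'0 : (0 : ℤ) ∉ X' := fun h => hA (hX'A h)
  have hc : X'.card = X.card := by rw [← hX', card_image_of_injOn (uz_injOn hX'0)]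
  refine ⟨X', hX'A, ?_, fun k => ?_⟩
  · rw [hc]
    rw [card_image_of_injOn (uz_injOn hA)] at hX2
    exact hX2
  · have h2 := hXk k
    rw [← hX', ← image_uz_pow hS, ← image_uz_mul hX'0 (zero_notMem_pow hS k),
      card_image_of_injOn (uz_injOn (zero_notMem_mul hX'0 (zero_notMem_pow hS k))),
      card_image_of_injOn (uz_injOn hX'0)] at h2
    exact h2

end Pool.Agent.H85.TS
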