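import Pool.Agent.H85.TS.DThm
import Pool.Agent.H85.TS.Pl

/-!
Successive choice of dilates.
-/

set_option autoImplicit false

namespace Pool.Agent.H85.TS

open Finset
open Pool.Agent.TH83.SQ (cls dil)
open Pool.Agent.TH83.DC (card_dil)
open scoped Pointwise Classical

/-- the positive integers of `G` as integers -/
def zz (G : Finset ℕ) : Finset ℤ := G.image fun n : ℕ => (n : ℤ)

/-- the elements of `A G` with many divisors in `G` and the quotient in `A` -/
theorem popular {G : Finset ℕ} {A : Finset ℤ} {L : ℝ} (hL : 0 < L) (hG : G.Nonempty)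
    (hA : A.Nonempty) (hG0 : 0 ∉ G) (hAG : ((A * zz G).card : ℝ) ≤ L * A.card) :
    ∃ C : Finset ℤ, (A.card : ℝ) ≤ 2 * C.card ∧
      ∀ c ∈ C, (G.card : ℝ) ≤ 2 * L * (G.filter fun t : ℕ => c ∈ dil (t : ℤ) A).card := by
  have cG : (0 : ℝ) < G.card := by exact_mod_cast hG.card_pos
  have cA : (0 : ℝ) < A.card := by exact_mod_cast hA.card_pos
  set P : Finset ℤ := A * zz G with hP
  set d : ℤ → ℝ := fun c => ((G.filter fun t : ℕ => c ∈ dil (t : ℤ) A).card : ℝ) with hd
  have hd0 : ∀ c, 0 ≤ d c := fun c => Nat.cast_nonneg _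
  have hdG : ∀ c, d c ≤ G.card := fun c => by
    simp only [hd]
    exact_mod_cast Finset.card_filter_le _ _
  -- the total
  have htot : (A.card : ℝ) * G.card = ∑ c ∈ P, d c := by
    have h1 : ∀ c ∈ P, d c = ∑ t ∈ G, if c ∈ dil (t : ℤ) A then (1 : ℝ) else 0 := by
      intro c _
      simp only [hd]
      rw [Finset.sum_boole]
    rw [Finset.sum_congr rfl h1, Finset.sum_comm]
    have h2 : ∀ t ∈ G, ∑ c ∈ P, (if c ∈ dil (t : ℤ) A then (1 : ℝ) else 0) = A.card := by
      intro t ht
      have ht0 : (t : ℤ) ≠ 0 := by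
        have : t ≠ 0 := fun h => hG0 (h ▸ ht)
        exact_mod_cast this
      rw [← Finset.sum_filter, Finset.sum_const, nsmul_eq_mul, mul_one, ← card_dil ht0 A]
      congr 2
      ext c
      simp only [Finset.mem_filter]
      constructor
      · rintro ⟨_, h⟩; exact h
      · intro h
        refine ⟨?_, h⟩
        obtain ⟨a, ha, rfl⟩ := Finset.mem_image.1 h
        rw [hP, mul_comm (t : ℤ) a]
        exact Finset.mul_mem_mul ha (Finset.mem_image_of_mem _ ht)
    rw [Finset.sum_congr rfl h2, Finset.sum_const, nsmul_eq_mul]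
    ring
  set C : Finset ℤ := P.filter fun c => (G.card : ℝ) ≤ 2 * L * d c with hC
  refine ⟨C, ?_, fun c hc => (Finset.mem_filter.1 hc).2⟩
  have hsplit : ∑ c ∈ P, d c = ∑ c ∈ C, d c +
      ∑ c ∈ P.filter (fun c => ¬ (G.card : ℝ) ≤ 2 * L * d c), d c :=
    (Finset.sum_filter_add_sum_filter_not _ _ _).symm
  have h1 : ∑ c ∈ C, d c ≤ C.card * G.card := by
    rw [← nsmul_eq_mul]
    exact Finset.sum_le_card_nsmul _ _ _ fun c _ => hdG c
  have h2 : ∑ c ∈ P.filter (fun c => ¬ (G.card : ℝ) ≤ 2 * L * d c), d c ≤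
      A.card * G.card / 2 := by
    have h3 : ∑ c ∈ P.filter (fun c => ¬ (G.card : ℝ) ≤ 2 * L * d c), d c ≤
        ∑ _c ∈ P.filter (fun c => ¬ (G.card : ℝ) ≤ 2 * L * d c), (G.card : ℝ) / (2 * L) := by
      apply Finset.sum_le_sum
      intro c hc
      have h4 := (Finset.mem_filter.1 hc).2
      push Not at h4
      rw [le_div_iff₀ (by positivity)]
      linarith
    rw [Finset.sum_const, nsmul_eq_mul] at h3
    have h5 : ((P.filter (fun c => ¬ (G.card : ℝ) ≤ 2 * L * d c)).card : ℝ) ≤ L * A.card := by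
      refine le_trans ?_ hAG
      exact_mod_cast Finset.card_filter_le _ _
    calc _ ≤ _ := h3
      _ ≤ L * A.card * ((G.card : ℝ) / (2 * L)) := mul_le_mul_of_nonneg_right h5 (by positivity)
      _ = _ := by field_simp
  have h3 : (A.card : ℝ) * G.card ≤ 2 * C.card * G.card := by
    rw [← htot] at hsplit
    linarith
  exact le_of_mul_le_mul_right h3 cG

/-- the dilates of a set of popular products -/
theorem popular_step {G : Finset ℕ} {A C : Finset ℤ} {L : ℝ} (hL : 0 < L) (hG : G.Nonempty)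
    (hC : C.Nonempty)
    (hpop : ∀ c ∈ C, (G.card : ℝ) ≤ 2 * L * (G.filter fun t : ℕ => c ∈ dil (t : ℤ) A).card) :
    (G.card : ℝ) ≤ 4 * L * (G.filter fun t : ℕ => (C.card : ℝ) ≤ 4 * L *
      (C.filter fun c => c ∈ dil (t : ℤ) A).card).card := by
  have cG : (0 : ℝ) < G.card := by exact_mod_cast hG.card_pos
  have cC : (0 : ℝ) < C.card := by exact_mod_cast hC.card_pos
  set G₁ := G.filter fun t : ℕ => (C.card : ℝ) ≤ 4 * L *
      (C.filter fun c => c ∈ dil (t : ℤ) A).card with hG₁
  set e : ℕ → ℝ := fun t => ((C.filter fun c => c ∈ dil (t : ℤ) A).card : ℝ) with he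
  have heC : ∀ t, e t ≤ C.card := fun t => by
    simp only [he]
    exact_mod_cast Finset.card_filter_le _ _
  have htot : (C.card : ℝ) * G.card ≤ 2 * L * ∑ t ∈ G, e t := by
    have h1 : ∑ t ∈ G, e t = ∑ c ∈ C, ((G.filter fun t : ℕ => c ∈ dil (t : ℤ) A).card : ℝ) := by
      have h2 : ∀ t ∈ G, e t = ∑ c ∈ C, if c ∈ dil (t : ℤ) A then (1 : ℝ) else 0 := by
        intro t _
        simp only [he]
        rw [Finset.sum_boole]
      rw [Finset.sum_congr rfl h2, Finset.sum_comm]
      refine Finset.sum_congr rfl fun c _ => ?_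
      rw [Finset.sum_boole]
    rw [h1, Finset.mul_sum, ← nsmul_eq_mul]
    exact Finset.card_nsmul_le_sum _ _ _ hpop
  have hsplit : ∑ t ∈ G, e t = ∑ t ∈ G₁, e t +
      ∑ t ∈ G.filter (fun t : ℕ => ¬ (C.card : ℝ) ≤ 4 * L * e t), e t :=
    (Finset.sum_filter_add_sum_filter_not _ _ _).symm
  have h1 : ∑ t ∈ G₁, e t ≤ G₁.card * C.card := by
    rw [← nsmul_eq_mul]
    exact Finset.sum_le_card_nsmul _ _ _ fun c _ => heC c
  have h2 : ∑ t ∈ G.filter (fun t : ℕ => ¬ (C.card : ℝ) ≤ 4 * L * e t), e t ≤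
      G.card * (C.card / (4 * L)) := by
    have h3 : ∑ t ∈ G.filter (fun t : ℕ => ¬ (C.card : ℝ) ≤ 4 * L * e t), e t ≤
        ∑ _c ∈ G.filter (fun t : ℕ => ¬ (C.card : ℝ) ≤ 4 * L * e t), (C.card : ℝ) / (4 * L) := by
      apply Finset.sum_le_sum
      intro c hc
      have h4 := (Finset.mem_filter.1 hc).2
      push Not at h4
      rw [le_div_iff₀ (by positivity)]
      linarith
    rw [Finset.sum_const, nsmul_eq_mul] at h3
    refine h3.trans (mul_le_mul_of_nonneg_right ?_ (by positivity))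
    exact_mod_cast Finset.card_filter_le _ _
  have h3 : (G.card : ℝ) * C.card ≤ 4 * L * G₁.card * C.card := by
    have h4 : 2 * L * (G.card * (C.card / (4 * L))) = (G.card : ℝ) * C.card / 2 := by
      field_simp; ring
    have h5 : 2 * L * ∑ t ∈ G, e t ≤ 2 * L * (G₁.card * C.card + G.card * (C.card / (4 * L))) :=
      mul_le_mul_of_nonneg_left (by linarith) (by positivity)
    rw [mul_add, h4] at h5
    nlinarith
  exact le_of_mul_le_mul_right h3 cC

/-- successive choice -/
theorem chain {G : Finset ℕ} {A B : Finset ℤ} {L ε : ℝ} (hL : 0 < L) (hG : G.Nonempty)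
    (hA : A.Nonempty) (hB : B.Nonempty) (hG0 : 0 ∉ G)
    (hAG : ((A * zz G).card : ℝ) ≤ L * A.card) (hε : 0 ≤ ε) (m : ℕ)
    (hD : ∀ G₁ ⊆ G, (G.card : ℝ) ≤ 4 * L * G₁.card → ∀ X : Finset ℤ, X.Nonempty →
      Real.log X.card ≤ m * Real.log B.card → ∃ g ∈ G₁,
        (1 - ε) * (Real.log B.card + Real.log X.card) ≤
          Real.log ((dil (g : ℤ) B + X).card : ℝ)) :
    ∀ j : ℕ, j ≤ m → ∃ C X R : Finset ℤ, C.Nonempty ∧ X.Nonempty ∧
      (A.card : ℝ) ≤ 2 * (4 * L) ^ j * C.card ∧
      (∀ c ∈ C, (G.card : ℝ) ≤ 2 * L * (G.filter fun t : ℕ => c ∈ dil (t : ℤ) A).card) ∧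
      (C + R).card ≤ j * (A + B).card ∧ X ⊆ j • R ∧ X.card ≤ B.card ^ j ∧
      j * (1 - j * ε) * Real.log B.card ≤ Real.log X.card := by
  have cG : (0 : ℝ) < G.card := by exact_mod_cast hG.card_pos
  have cA : (0 : ℝ) < A.card := by exact_mod_cast hA.card_pos
  intro j
  induction j with
  | zero =>
    intro _
    obtain ⟨C, hC1, hC2⟩ := popular hL hG hA hG0 hAG
    have hCn : C.Nonempty := by
      rw [Finset.nonempty_iff_ne_empty]
      rintro rfl
      rw [Finset.card_empty, Nat.cast_zero, mul_zero] at hC1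
      linarith
    refine ⟨C, {0}, ∅, hCn, Finset.singleton_nonempty _, by simpa using hC1, hC2, by simp, ?_,
      by simp, by simp⟩
    rw [zero_smul]
    intro x hx
    simpa using hx
  | succ j ih =>
    intro hj
    obtain ⟨C, X, R, hC, hX, hCA, hpop, hCR, hXR, hXB, hXlog⟩ := ih (by omega)
    set G₁ := G.filter fun t : ℕ => (C.card : ℝ) ≤ 4 * L *
      (C.filter fun c => c ∈ dil (t : ℤ) A).card with hG₁
    have hXlog' : Real.log X.card ≤ m * Real.log B.card := by
      have cX : (0 : ℝ) < X.card := by exact_mod_cast hX.card_pos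
      have h1 : Real.log X.card ≤ j * Real.log B.card := by
        rw [← Real.log_pow]
        exact Real.log_le_log cX (by exact_mod_cast hXB)
      refine h1.trans (mul_le_mul_of_nonneg_right ?_ (Real.log_natCast_nonneg _))
      exact_mod_cast (by omega : j ≤ m)
    obtain ⟨t, ht, htlog⟩ := hD G₁ (Finset.filter_subset _ _) (popular_step hL hG hC hpop) X hX
      hXlog'
    obtain ⟨htG, htC⟩ := Finset.mem_filter.1 ht
    have ht0 : (t : ℤ) ≠ 0 := by
      have : t ≠ 0 := fun h => hG0 (h ▸ htG)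
      exact_mod_cast this
    set C' := C.filter fun c => c ∈ dil (t : ℤ) A with hC'
    have cC : (0 : ℝ) < C.card := by exact_mod_cast hC.card_pos
    have hC'n : C'.Nonempty := by
      rw [Finset.nonempty_iff_ne_empty]
      intro h0
      rw [h0, Finset.card_empty, Nat.cast_zero, mul_zero] at htC
      linarith
    have hC'C : C' ⊆ C := Finset.filter_subset _ _
    refine ⟨C', dil (t : ℤ) B + X, R ∪ dil (t : ℤ) B, hC'n, (hB.image _).add hX, ?_,
      fun c hc => hpop c (hC'C hc), ?_, ?_, ?_, ?_⟩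
    · calc (A.card : ℝ) ≤ 2 * (4 * L) ^ j * C.card := hCA
        _ ≤ 2 * (4 * L) ^ j * (4 * L * C'.card) := mul_le_mul_of_nonneg_left htC (by positivity)
        _ = _ := by ring
    · rw [Finset.add_union]
      refine (Finset.card_union_le _ _).trans ?_
      have h1 : (C' + R).card ≤ j * (A + B).card :=
        (Finset.card_le_card (Finset.add_subset_add_right hC'C)).trans hCR
      have h2 : (C' + dil (t : ℤ) B).card ≤ (A + B).card := by
        rw [← card_dil ht0 (A + B)]
        apply Finset.card_le_card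
        intro x hx
        obtain ⟨c, hc, b, hb, rfl⟩ := Finset.mem_add.1 hx
        obtain ⟨a, ha, rfl⟩ := Finset.mem_image.1 (Finset.mem_filter.1 hc).2
        obtain ⟨b', hb', rfl⟩ := Finset.mem_image.1 hb
        exact Finset.mem_image.2 ⟨a + b', Finset.add_mem_add ha hb', by ring⟩
      rw [add_mul, one_mul]
      exact Nat.add_le_add h1 h2
    · rw [succ_nsmul, add_comm (dil (t : ℤ) B) X]
      exact Finset.add_subset_add (hXR.trans (Finset.nsmul_subset_nsmul_left
        Finset.subset_union_left)) Finset.subset_union_right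
    · refine (Finset.card_add_le).trans ?_
      rw [card_dil ht0, pow_succ']
      exact Nat.mul_le_mul_left _ hXB
    · refine le_trans ?_ htlog
      have hlB : 0 ≤ Real.log B.card := Real.log_natCast_nonneg _
      have hjm : (0 : ℝ) ≤ j := Nat.cast_nonneg _
      by_cases hε1 : ε ≤ 1
      · have h1 : (1 - ε) * (j * (1 - j * ε) * Real.log B.card) ≤
            (1 - ε) * Real.log X.card := mul_le_mul_of_nonneg_left hXlog (by linarith)
        have h2 : ((j + 1 : ℕ) : ℝ) * (1 - ((j + 1 : ℕ) : ℝ) * ε) ≤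
            (1 - ε) * (1 + j * (1 - j * ε)) := by
          push_cast
          nlinarith [mul_nonneg (mul_nonneg hjm hjm) (mul_nonneg hε hε), mul_nonneg hjm hε]
        have h3 := mul_le_mul_of_nonneg_right h2 hlB
        nlinarith
      · push Not at hε1
        have hXlog0 : Real.log X.card ≤ j * Real.log B.card := by
          have cX : (0 : ℝ) < X.card := by exact_mod_cast hX.card_pos
          rw [← Real.log_pow]
          exact Real.log_le_log cX (by exact_mod_cast hXB)
        have h1 : (1 - ε) * (j * Real.log B.card) ≤ (1 - ε) * Real.log X.card :=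
          mul_le_mul_of_nonpos_left hXlog0 (by linarith)
        have h2 : ((j + 1 : ℕ) : ℝ) * (1 - ((j + 1 : ℕ) : ℝ) * ε) ≤ (1 - ε) * (1 + j) := by
          push_cast
          nlinarith [mul_nonneg hjm (by linarith : 0 ≤ ε)]
        have h3 := mul_le_mul_of_nonneg_right h2 hlB
        nlinarith

end Pool.Agent.H85.TS
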