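import Pool.Agent.H85.TS.Chain

/-!
Successive choice of dilates, from an arbitrary set of popular products, and sets of popular products
from the multiplicative energy.
-/

set_option autoImplicit false

namespace Pool.Agent.H85.TS

open Finset
open Pool.Agent.TH83.SQ (cls dil)
open Pool.Agent.TH83.DC (card_dil)
open scoped Pointwise Classical

/-- successive choice, from a set of popular products -/
theorem chainE {G : Finset ℕ} {A B C₀ : Finset ℤ} {L ε : ℝ} (hL : 0 < L) (hG : G.Nonempty)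
    (hC₀ : C₀.Nonempty) (hB : B.Nonempty) (hG0 : 0 ∉ G)
    (hpop₀ : ∀ c ∈ C₀, (G.card : ℝ) ≤ 2 * L * (G.filter fun t : ℕ => c ∈ dil (t : ℤ) A).card)
    (hε : 0 ≤ ε) (m : ℕ)
    (hD : ∀ G₁ ⊆ G, (G.card : ℝ) ≤ 4 * L * G₁.card → ∀ X : Finset ℤ, X.Nonempty →
      Real.log X.card ≤ m * Real.log B.card → ∃ g ∈ G₁,
        (1 - ε) * (Real.log B.card + Real.log X.card) ≤
          Real.log ((dil (g : ℤ) B + X).card : ℝ)) :
    ∀ j : ℕ, j ≤ m → ∃ C X R : Finset ℤ, C.Nonempty ∧ X.Nonempty ∧
      (C₀.card : ℝ) ≤ (4 * L) ^ j * C.card ∧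
      (∀ c ∈ C, (G.card : ℝ) ≤ 2 * L * (G.filter fun t : ℕ => c ∈ dil (t : ℤ) A).card) ∧
      (C + R).card ≤ j * (A + B).card ∧ X ⊆ j • R ∧ X.card ≤ B.card ^ j ∧
      j * (1 - j * ε) * Real.log B.card ≤ Real.log X.card := by
  have cG : (0 : ℝ) < G.card := by exact_mod_cast hG.card_pos
  intro j
  induction j with
  | zero =>
    intro _
    refine ⟨C₀, {0}, ∅, hC₀, Finset.singleton_nonempty _, by simp, hpop₀, by simp, ?_,
      by simp, by simp⟩
    rw [zero_smul]
    intro x hx
    simpa using hx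
  | succ j ih =>
    intro hj
    obtain ⟨C, X, R, hC, hX, hCA, hpop, hCR, hXR, hXB, hXlog⟩ := ih (by omega)
    set G₁ := G.filter fun t : ℕ => (C.card : ℝ) ≤ 4 * L *
      (C.filter fun c => c ∈ dil (t : ℤ) A).card with hG₁
    have hXlog' : Real.log X.card ≤ m * Real.log B.card := by
      have cX : (0 : ℝ) < X.card := by exact_mod_cast hX.card_pos
      have h1 : Real.log X.card ≤ j * Real.log B.card := by
        rw [← Real.log_pow]
        exact Real.log_le_log cX (by exact_mod_cast hXB)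
      refine h1.trans (mul_le_mul_of_nonneg_right ?_ (Real.log_natCast_nonneg _))
      exact_mod_cast (by omega : j ≤ m)
    obtain ⟨t, ht, htlog⟩ := hD G₁ (Finset.filter_subset _ _) (popular_step hL hG hC hpop) X hX
      hXlog'
    obtain ⟨htG, htC⟩ := Finset.mem_filter.1 ht
    have ht0 : (t : ℤ) ≠ 0 := by
      have : t ≠ 0 := fun h => hG0 (h ▸ htG)
      exact_mod_cast this
    set C' := C.filter fun c => c ∈ dil (t : ℤ) A with hC'
    have cC : (0 : ℝ) < C.card := by exact_mod_cast hC.card_pos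
    have hC'n : C'.Nonempty := by
      rw [Finset.nonempty_iff_ne_empty]
      intro h0
      rw [h0, Finset.card_empty, Nat.cast_zero, mul_zero] at htC
      linarith
    have hC'C : C' ⊆ C := Finset.filter_subset _ _
    refine ⟨C', dil (t : ℤ) B + X, R ∪ dil (t : ℤ) B, hC'n, (hB.image _).add hX, ?_,
      fun c hc => hpop c (hC'C hc), ?_, ?_, ?_, ?_⟩
    · calc (C₀.card : ℝ) ≤ (4 * L) ^ j * C.card := hCA
        _ ≤ (4 * L) ^ j * (4 * L * C'.card) := mul_le_mul_of_nonneg_left htC (by positivity)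
        _ = _ := by ring
    · rw [Finset.add_union]
      refine (Finset.card_union_le _ _).trans ?_
      have h1 : (C' + R).card ≤ j * (A + B).card :=
        (Finset.card_le_card (Finset.add_subset_add_right hC'C)).trans hCR
      have h2 : (C' + dil (t : ℤ) B).card ≤ (A + B).card := by
        rw [← card_dil ht0 (A + B)]
        apply Finset.card_le_card
        intro x hx
        obtain ⟨c, hc, b, hb, rfl⟩ := Finset.mem_add.1 hx
        obtain ⟨a, ha, rfl⟩ := Finset.mem_image.1 (Finset.mem_filter.1 hc).2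
        obtain ⟨b', hb', rfl⟩ := Finset.mem_image.1 hb
        exact Finset.mem_image.2 ⟨a + b', Finset.add_mem_add ha hb', by ring⟩
      rw [add_mul, one_mul]
      exact Nat.add_le_add h1 h2
    · rw [succ_nsmul, add_comm (dil (t : ℤ) B) X]
      exact Finset.add_subset_add (hXR.trans (Finset.nsmul_subset_nsmul_left
        Finset.subset_union_left)) Finset.subset_union_right
    · refine (Finset.card_add_le).trans ?_
      rw [card_dil ht0, pow_succ']
      exact Nat.mul_le_mul_left _ hXB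
    · refine le_trans ?_ htlog
      have hlB : 0 ≤ Real.log B.card := Real.log_natCast_nonneg _
      have hjm : (0 : ℝ) ≤ j := Nat.cast_nonneg _
      by_cases hε1 : ε ≤ 1
      · have h1 : (1 - ε) * (j * (1 - j * ε) * Real.log B.card) ≤
            (1 - ε) * Real.log X.card := mul_le_mul_of_nonneg_left hXlog (by linarith)
        have h2 : ((j + 1 : ℕ) : ℝ) * (1 - ((j + 1 : ℕ) : ℝ) * ε) ≤
            (1 - ε) * (1 + j * (1 - j * ε)) := by
          push_cast
          nlinarith [mul_nonneg (mul_nonneg hjm hjm) (mul_nonneg hε hε), mul_nonneg hjm hε]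
        have h3 := mul_le_mul_of_nonneg_right h2 hlB
        nlinarith
      · push Not at hε1
        have hXlog0 : Real.log X.card ≤ j * Real.log B.card := by
          have cX : (0 : ℝ) < X.card := by exact_mod_cast hX.card_pos
          rw [← Real.log_pow]
          exact Real.log_le_log cX (by exact_mod_cast hXB)
        have h1 : (1 - ε) * (j * Real.log B.card) ≤ (1 - ε) * Real.log X.card :=
          mul_le_mul_of_nonpos_left hXlog0 (by linarith)
        have h2 : ((j + 1 : ℕ) : ℝ) * (1 - ((j + 1 : ℕ) : ℝ) * ε) ≤ (1 - ε) * (1 + j) := by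
          push_cast
          nlinarith [mul_nonneg hjm (by linarith : 0 ≤ ε)]
        have h3 := mul_le_mul_of_nonneg_right h2 hlB
        nlinarith

/-- popular products from the energy -/
theorem popularE {G : Finset ℕ} {A : Finset ℤ} {κ : ℝ} (hκ : 0 < κ) (hG : G.Nonempty)
    (hA : A.Nonempty) (hG0 : 0 ∉ G)
    (hE : (A.card : ℝ) * (G.card : ℝ) ^ 2 ≤ κ * (A.mulEnergy (zz G) : ℝ)) :
    ∃ C : Finset ℤ, C.Nonempty ∧ (A.card : ℝ) ≤ 2 * κ * C.card ∧
      ∀ c ∈ C, (G.card : ℝ) ≤ 2 * κ * (G.filter fun t : ℕ => c ∈ dil (t : ℤ) A).card := by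
  have cG : (0 : ℝ) < G.card := by exact_mod_cast hG.card_pos
  have cA : (0 : ℝ) < A.card := by exact_mod_cast hA.card_pos
  set P : Finset ℤ := A * zz G with hP
  set d : ℤ → ℝ := fun c => ((G.filter fun t : ℕ => c ∈ dil (t : ℤ) A).card : ℝ) with hd
  have hd0 : ∀ c, 0 ≤ d c := fun c => Nat.cast_nonneg _
  have hdG : ∀ c, d c ≤ G.card := fun c => by
    simp only [hd]
    exact_mod_cast Finset.card_filter_le _ _
  have hGne : ∀ t ∈ G, (t : ℤ) ≠ 0 := by
    intro t ht
    have : t ≠ 0 := fun h => hG0 (h ▸ ht)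
    exact_mod_cast this
  -- the total
  have htot : (A.card : ℝ) * G.card = ∑ c ∈ P, d c := by
    have h1 : ∀ c ∈ P, d c = ∑ t ∈ G, if c ∈ dil (t : ℤ) A then (1 : ℝ) else 0 := by
      intro c _
      simp only [hd]
      rw [Finset.sum_boole]
    rw [Finset.sum_congr rfl h1, Finset.sum_comm]
    have h2 : ∀ t ∈ G, ∑ c ∈ P, (if c ∈ dil (t : ℤ) A then (1 : ℝ) else 0) = A.card := by
      intro t ht
      rw [← Finset.sum_filter, Finset.sum_const, nsmul_eq_mul, mul_one,
        ← card_dil (hGne t ht) A]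
      congr 2
      ext c
      simp only [Finset.mem_filter]
      constructor
      · rintro ⟨_, h⟩; exact h
      · intro h
        refine ⟨?_, h⟩
        obtain ⟨a, ha, rfl⟩ := Finset.mem_image.1 h
        rw [hP, mul_comm (t : ℤ) a]
        exact Finset.mul_mem_mul ha (Finset.mem_image_of_mem _ ht)
    rw [Finset.sum_congr rfl h2, Finset.sum_const, nsmul_eq_mul]
    ring
  -- the energy
  have hen : (A.mulEnergy (zz G) : ℝ) = ∑ c ∈ P, d c ^ 2 := by
    rw [Finset.mulEnergy_eq_sum_sq']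
    push_cast
    refine Finset.sum_congr rfl fun c _ => ?_
    congr 2
    refine Finset.card_bij' (fun p _ => p.2.natAbs)
      (fun t _ => ((if h : ∃ a ∈ A, (t : ℤ) * a = c then h.choose else 0), (t : ℤ)))
      ?_ ?_ ?_ ?_
    · rintro ⟨x, y⟩ hp
      simp only [mem_filter, mem_product] at hp
      obtain ⟨⟨hx, hy⟩, rfl⟩ := hp
      obtain ⟨t, ht, rfl⟩ := mem_image.1 hy
      simp only [Int.natAbs_natCast]
      exact mem_filter.2 ⟨ht, mem_image.2 ⟨x, hx, mul_comm _ _⟩⟩
    · intro t ht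
      obtain ⟨htG, htc⟩ := mem_filter.1 ht
      obtain ⟨a, ha, hac⟩ := mem_image.1 htc
      have hex : ∃ a ∈ A, (t : ℤ) * a = c := ⟨a, ha, hac⟩
      simp only [mem_filter, mem_product]
      rw [dif_pos hex]
      obtain ⟨h1, h2⟩ := hex.choose_spec
      exact ⟨⟨h1, mem_image_of_mem _ htG⟩, by rw [mul_comm]; exact h2⟩
    · rintro ⟨x, y⟩ hp
      simp only [mem_filter, mem_product] at hp
      obtain ⟨⟨hx, hy⟩, hxy⟩ := hp
      obtain ⟨t, ht, rfl⟩ := mem_image.1 hy
      simp only [Int.natAbs_natCast]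
      have hex : ∃ a ∈ A, (t : ℤ) * a = c := ⟨x, hx, by rw [mul_comm]; exact hxy⟩
      rw [dif_pos hex]
      obtain ⟨h1, h2⟩ := hex.choose_spec
      have h3 : (t : ℤ) * hex.choose = t * x := by rw [h2, mul_comm]; exact hxy.symm
      rw [mul_left_cancel₀ (hGne t ht) h3]
    · intro t ht
      simp only [Int.natAbs_natCast]
  set C : Finset ℤ := P.filter fun c => (G.card : ℝ) ≤ 2 * κ * d c with hC
  have hsplit : ∑ c ∈ P, d c ^ 2 = ∑ c ∈ C, d c ^ 2 +
      ∑ c ∈ P.filter (fun c => ¬ (G.card : ℝ) ≤ 2 * κ * d c), d c ^ 2 :=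
    (Finset.sum_filter_add_sum_filter_not _ _ _).symm
  have h1 : ∑ c ∈ C, d c ^ 2 ≤ C.card * (G.card : ℝ) ^ 2 := by
    rw [← nsmul_eq_mul]
    exact Finset.sum_le_card_nsmul _ _ _ fun c _ => pow_le_pow_left₀ (hd0 c) (hdG c) 2
  have h2 : ∑ c ∈ P.filter (fun c => ¬ (G.card : ℝ) ≤ 2 * κ * d c), d c ^ 2 ≤
      (G.card : ℝ) / (2 * κ) * (A.card * G.card) := by
    have h3 : ∑ c ∈ P.filter (fun c => ¬ (G.card : ℝ) ≤ 2 * κ * d c), d c ^ 2 ≤
        ∑ c ∈ P.filter (fun c => ¬ (G.card : ℝ) ≤ 2 * κ * d c),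
          (G.card : ℝ) / (2 * κ) * d c := by
      apply Finset.sum_le_sum
      intro c hc
      have h4 := (Finset.mem_filter.1 hc).2
      push Not at h4
      rw [sq]
      apply mul_le_mul_of_nonneg_right _ (hd0 c)
      rw [le_div_iff₀ (by positivity)]
      linarith
    refine h3.trans ?_
    rw [← Finset.mul_sum]
    apply mul_le_mul_of_nonneg_left _ (by positivity)
    rw [htot]
    exact Finset.sum_le_sum_of_subset_of_nonneg (Finset.filter_subset _ _) fun c _ _ => hd0 c
  have h3 : (A.card : ℝ) * (G.card : ℝ) ^ 2 ≤ 2 * κ * C.card * (G.card : ℝ) ^ 2 := by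
    rw [hen, hsplit] at hE
    have h4 : κ * (G.card / (2 * κ) * (A.card * G.card)) = (A.card : ℝ) * (G.card : ℝ) ^ 2 / 2 := by
      field_simp
    have h5 := mul_le_mul_of_nonneg_left h1 hκ.le
    have h6 := mul_le_mul_of_nonneg_left h2 hκ.le
    rw [h4] at h6
    nlinarith
  have h4 : (A.card : ℝ) ≤ 2 * κ * C.card := le_of_mul_le_mul_right h3 (by positivity)
  refine ⟨C, ?_, h4, fun c hc => (Finset.mem_filter.1 hc).2⟩
  rw [Finset.nonempty_iff_ne_empty]
  intro h0
  rw [h0, Finset.card_empty, Nat.cast_zero, mul_zero] at h4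
  linarith

end Pool.Agent.H85.TS
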