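import Pool.Agent.H85.TS.Gain

/-!
Sums with dilates by the elements of a weighted set of positive integers: combination of several
valuation classes.
-/

set_option autoImplicit false

namespace Pool.Agent.H85.TS

open Finset
open Pool.Agent.TH83.SQ (cls dil)
open Pool.Agent.TH83.DC (ent jent gibbs jent_left jent_right jent_small ent_nonneg ent_one ent_le
  sum_cls mean_log_cls ent_chain ent_mono cls_large cls_cls cls_dil ent_dil levels levels_small
  dil_dil card_dil sum_dil cls_pos sum_cls₂ Sz Sz_nonneg ent_large)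
open scoped Pointwise Classical

/-- one prime, small sets -/
theorem LG_small {p : ℕ} (hp : p.Prime) (J : Finset ℕ) {e : ℕ} (hJ : J.card = e + 1)
    {μ : ℕ → ℕ → ℝ} {G : ℕ → Finset ℕ} (hμ : ∀ i ∈ J, ∀ g ∈ G i, 0 ≤ μ i g)
    (hμ1 : ∀ i ∈ J, ∑ g ∈ G i, μ i g = 1) (hG : ∀ i ∈ J, Val p i (G i))
    {X B : Finset ℤ} (hX : X.Nonempty) (hB : B.Nonempty) {δ C : ℝ} (hC : 0 ≤ C)
    (hsmall : ∀ (Q : ℤ) (X B : Finset ℤ), X.Nonempty → B.Nonempty →
      (1 - δ) * (ent Q X + ent Q B) - C * (ent Q X * ent Q B) ≤ jent Q X B) :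
    (1 - δ) * Sz X B - C * (Real.log X.card * Real.log B.card) / (e + 1) ≤
      (∑ i ∈ J, LG (μ i) (G i) X B) / (e + 1) := by
  obtain ⟨J₁, h1⟩ := ent_large hp X
  obtain ⟨J₂, h2⟩ := ent_large hp B
  set e' : ℕ := J.sup id with he'
  have hJe : ∀ i ∈ J, i ≤ e' := fun i hi => Finset.le_sup (f := id) hi
  have hJr : J ⊆ Finset.range (e' + 1) := fun i hi => by
    rw [Finset.mem_range]; have := hJe i hi; omega
  set M : ℕ := J₁ + J₂ + e' + 1 with hM
  have h3 : ∀ i ∈ J, (1 - δ) * Sz X B - C * (∑ l ∈ Finset.range M,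
      (ent ((p : ℤ) ^ (l + 1 - i)) X - ent ((p : ℤ) ^ (l - i)) X) *
        (ent ((p : ℤ) ^ (l + 1)) B - ent ((p : ℤ) ^ l) B)) ≤ LG (μ i) (G i) X B := by
    intro i hi
    have hi' := hJe i hi
    have h4 := EE_tele hp (hμ i hi) (hμ1 i hi) (hG i hi) hX hB hsmall M
    rw [h1 (M - i) (by omega), h2 M (by omega)] at h4
    have := EE_nonneg (hμ i hi) p X B i M
    unfold Sz
    linarith
  have h4 := Finset.sum_le_sum h3
  rw [Finset.sum_sub_distrib, Finset.sum_const, hJ, nsmul_eq_mul,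
    ← Finset.mul_sum] at h4
  have h5 := levels_small (fun l => ent ((p : ℤ) ^ l) X) (fun l => ent ((p : ℤ) ^ l) B)
    (fun a b hab => ent_mono (pow_dvd_pow _ hab) X)
    (fun a b hab => ent_mono (pow_dvd_pow _ hab) B)
    (by simp only [pow_zero]; exact ent_one X) (by simp only [pow_zero]; exact ent_one B)
    (Real.log X.card) (Real.log B.card) (fun l => ent_le _ _) (fun l => ent_le _ _) e' M
  have h5' : ∑ i ∈ J, ∑ l ∈ Finset.range M,
      (ent ((p : ℤ) ^ (l + 1 - i)) X - ent ((p : ℤ) ^ (l - i)) X) *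
        (ent ((p : ℤ) ^ (l + 1)) B - ent ((p : ℤ) ^ l) B) ≤
        Real.log X.card * Real.log B.card := by
    refine le_trans (Finset.sum_le_sum_of_subset_of_nonneg hJr fun i _ _ =>
      Finset.sum_nonneg fun l _ => ?_) h5
    exact mul_nonneg (sub_nonneg.2 (ent_mono (pow_dvd_pow _ (by omega)) X))
      (sub_nonneg.2 (ent_mono (pow_dvd_pow _ (by omega)) B))
  have h6 := mul_le_mul_of_nonneg_left h5' hC
  rw [le_div_iff₀ (by positivity), sub_mul, div_mul_cancel₀ _ (by positivity)]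
  push_cast at h4
  linarith

/-- **combination of the valuation classes** -/
theorem comb {δ C : ℝ} (hδ : 0 < δ) (hC : 0 < C)
    (hsmall : ∀ (Q : ℤ) (X B : Finset ℤ), X.Nonempty → B.Nonempty →
      (1 - δ) * (ent Q X + ent Q B) - C * (ent Q X * ent Q B) ≤ jent Q X B)
    {p : ℕ} (hp : p.Prime) (J : Finset ℕ) {e : ℕ} (hJ : J.card = e + 1) (hδe : 2 ≤ δ * e)
    {μ : ℕ → ℕ → ℝ} {Gs : ℕ → Finset ℕ} (hμ : ∀ i ∈ J, ∀ g ∈ Gs i, 0 ≤ μ i g)
    (hμ1 : ∀ i ∈ J, ∑ g ∈ Gs i, μ i g = 1) (hG : ∀ i ∈ J, Val p i (Gs i)) {G : ℝ} (hG0 : 0 ≤ G)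
    (ih : ∀ i ∈ J, ∀ X B : Finset ℤ, X.Nonempty → B.Nonempty →
      (1 - 3 * δ) * Sz X B * G - Sz X B ^ 2 ≤ G * LG (μ i) (Gs i) X B)
    {X B : Finset ℤ} (hX : X.Nonempty) (hB : B.Nonempty) :
    (1 - 3 * δ) * Sz X B * (δ / (2 * C) * e + G) - Sz X B ^ 2 ≤
      (δ / (2 * C) * e + G) * ((∑ i ∈ J, LG (μ i) (Gs i) X B) / (e + 1)) := by
  set c : ℝ := δ / (2 * C) with hc
  have hc0 : 0 < c := by positivity
  set S : ℝ := Sz X B with hS
  have hS0 : 0 ≤ S := Sz_nonneg X B
  have hlX : 0 ≤ Real.log X.card := Real.log_natCast_nonneg _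
  have hlB : 0 ≤ Real.log B.card := Real.log_natCast_nonneg _
  have hSe : S = Real.log X.card + Real.log B.card := rfl
  have he0 : (0 : ℝ) < e := by
    by_contra hcon
    push Not at hcon
    have : δ * (e : ℝ) ≤ 0 := mul_nonpos_of_nonneg_of_nonpos hδ.le hcon
    linarith
  set τ₀ : ℝ := (∑ i ∈ J, LG (μ i) (Gs i) X B) / (e + 1) with hτ₀
  have hT0 : 0 ≤ τ₀ :=
    div_nonneg (Finset.sum_nonneg fun i hi => LG_nonneg (hμ i hi) X B) (by positivity)
  set g' : ℝ := c * e with hg'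
  have hg'0 : 0 < g' := by positivity
  have hCg : C * (2 * g') = δ * e := by rw [hg', hc]; field_simp
  -- large sum: nothing to prove
  by_cases hbig : g' + G ≤ S
  · have h1 : (1 - 3 * δ) * S * (g' + G) ≤ S ^ 2 := by
      have h2 : (1 - 3 * δ) * S * (g' + G) ≤ 1 * S * (g' + G) := by
        apply mul_le_mul_of_nonneg_right _ (by linarith)
        apply mul_le_mul_of_nonneg_right _ hS0
        linarith
      nlinarith
    have h2 : 0 ≤ (g' + G) * τ₀ := mul_nonneg (by linarith) hT0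
    linarith
  push Not at hbig
  -- small sets
  by_cases hsm : Real.log X.card ≤ 2 * g' ∧ Real.log B.card ≤ 2 * g'
  · have h1 := LG_small hp J hJ hμ hμ1 hG hX hB hC.le hsmall
    have h2 : C * (Real.log X.card * Real.log B.card) / (e + 1) ≤ δ * S := by
      rw [div_le_iff₀ (by positivity)]
      calc C * (Real.log X.card * Real.log B.card) ≤ C * (2 * g' * Real.log B.card) := by
            apply mul_le_mul_of_nonneg_left _ hC.le
            exact mul_le_mul_of_nonneg_right hsm.1 hlB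
        _ = δ * e * Real.log B.card := by rw [← mul_assoc, hCg]
        _ ≤ δ * e * S := mul_le_mul_of_nonneg_left (by linarith) (by positivity)
        _ ≤ δ * S * (e + 1) := by nlinarith [mul_nonneg hδ.le hS0]
    have h3 : (1 - 3 * δ) * S ≤ τ₀ := by
      have h4 : (0 : ℝ) ≤ δ * S := mul_nonneg hδ.le hS0
      rw [← hS] at h1
      linarith
    have h4 := mul_le_mul_of_nonneg_left h3 (by linarith : 0 ≤ g' + G)
    nlinarith [sq_nonneg S]
  -- general case
  have hS2 : 2 * g' < S := by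
    rw [not_and_or] at hsm
    rcases hsm with h | h
    · push Not at h; linarith
    · push Not at h; linarith
  have hGpos : 0 < G := by linarith
  have ih' : ∀ i ∈ J, ∀ X B : Finset ℤ, X.Nonempty → B.Nonempty →
      (1 - 3 * δ) * Sz X B - Sz X B ^ 2 / G ≤ LG (μ i) (Gs i) X B := by
    intro i hi X' B' hX' hB'
    have h1 := ih i hi X' B' hX' hB'
    have h2 : ((1 - 3 * δ) * Sz X' B' - Sz X' B' ^ 2 / G) * G ≤ LG (μ i) (Gs i) X' B' * G := by
      rw [sub_mul, div_mul_cancel₀ _ hGpos.ne']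
      linarith
    exact le_of_mul_le_mul_right h2 hGpos
  set HX : ℕ → ℝ := fun l => ent ((p : ℤ) ^ l) X with hHX
  set HB : ℕ → ℝ := fun l => ent ((p : ℤ) ^ l) B with hHB
  have hmX : Monotone HX := fun a b hab => ent_mono (pow_dvd_pow _ hab) X
  have hmB : Monotone HB := fun a b hab => ent_mono (pow_dvd_pow _ hab) B
  have hX0 : HX 0 = 0 := by rw [hHX]; simp only [pow_zero]; exact ent_one X
  have hB0 : HB 0 = 0 := by rw [hHB]; simp only [pow_zero]; exact ent_one B
  have hex : (∃ l, 2 * g' < HX l) ∨ ∃ l, 2 * g' < HB l := by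
    rw [not_and_or] at hsm
    rcases hsm with h | h
    · push Not at h
      obtain ⟨J, hJ⟩ := ent_large hp X
      exact Or.inl ⟨J, by rw [hHX]; simp only [hJ J le_rfl]; exact h⟩
    · push Not at h
      obtain ⟨J, hJ⟩ := ent_large hp B
      exact Or.inr ⟨J, by rw [hHB]; simp only [hJ J le_rfl]; exact h⟩
  set e' : ℕ := J.sup id with he'
  have hJe : ∀ i ∈ J, i ≤ e' := fun i hi => Finset.le_sup (f := id) hi
  have hJr : J ⊆ Finset.range (e' + 1) := fun i hi => by
    rw [Finset.mem_range]; have := hJe i hi; omega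
  obtain ⟨L, F₀, hF₀, hF₀c, hL₀, hloss₀⟩ := levels HX HB hmX hmB hX0 hB0 (2 * g') C (by positivity)
    hC.le e' hex
  set base : ℝ := (1 - 3 * δ) * S - S ^ 2 / G with hbase
  -- every shift
  have hall : ∀ i ∈ J, base ≤ LG (μ i) (Gs i) X B := fun i hi => ih' i hi X B hX hB
  -- the good shifts
  set loss : ℕ → ℝ := fun i => C * ∑ l ∈ Finset.range (L i - 1),
      (HX (l + 1 - i) - HX (l - i)) * (HB (l + 1) - HB l) +
      min (HX (L i - i) - HX (L i - 1 - i)) (HB (L i) - HB (L i - 1)) with hlossdef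
  have hloss0 : ∀ i, 0 ≤ loss i := by
    intro i
    apply add_nonneg
    · apply mul_nonneg hC.le
      exact Finset.sum_nonneg fun l _ => mul_nonneg (sub_nonneg.2 (hmX (by omega)))
        (sub_nonneg.2 (hmB (by omega)))
    · exact le_min (sub_nonneg.2 (hmX (by omega))) (sub_nonneg.2 (hmB (by omega)))
  set F : Finset ℕ := J ∩ F₀ with hFdef
  have hF : F ⊆ J := Finset.inter_subset_left
  have hL : ∀ i ∈ F, 1 ≤ L i ∧ 2 * g' ≤ HX (L i - i) + HB (L i) := fun i hi =>
    hL₀ i (Finset.mem_inter.1 hi).2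
  have hFc : e ≤ F.card := by
    have h1 : (J \ F₀).card ≤ (Finset.range (e' + 1) \ F₀).card :=
      Finset.card_le_card (Finset.sdiff_subset_sdiff hJr le_rfl)
    have h2 : (Finset.range (e' + 1) \ F₀).card + F₀.card = e' + 1 := by
      rw [Finset.card_sdiff_add_card_eq_card hF₀, Finset.card_range]
    have h3 : (J ∩ F₀).card + (J \ F₀).card = J.card := Finset.card_inter_add_card_sdiff J F₀
    rw [hFdef]
    omega
  have hloss : ∑ i ∈ F, loss i ≤ C * (2 * g') ^ 2 + 2 * (2 * g') :=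
    le_trans (Finset.sum_le_sum_of_subset_of_nonneg Finset.inter_subset_right
      fun i _ _ => hloss0 i) hloss₀
  have hgood : ∀ i ∈ F, base + (2 * δ + S / G) * (2 * g') - loss i ≤
      LG (μ i) (Gs i) X B := by
    intro i hi
    have hiJ := hF hi
    obtain ⟨hL1, hL2⟩ := hL i hi
    have h1 := EE_last hp (hμ i hiJ) (hμ1 i hiJ) (hG i hiJ) hX hB hδ.le hsmall (L i) hL1
    have h2 := EE_lower (p := p) hX hB i (L i) hGpos (ih' i hiJ)
    have h3 : (0 : ℝ) ≤ 2 * δ + S / G := by positivity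
    have h4 := mul_le_mul_of_nonneg_left hL2 h3
    have h5 : ((1 - 3 * δ) - S / G) * (S - (HX (L i - i) + HB (L i))) ≤
        EE (μ i) (Gs i) p X B i (L i) := h2
    have h6 : (1 - δ) * (HX (L i - i) + HB (L i)) - loss i + EE (μ i) (Gs i) p X B i (L i) ≤
        LG (μ i) (Gs i) X B := h1
    have h7 : base = ((1 - 3 * δ) - S / G) * S := by rw [hbase]; ring
    rw [h7]
    linarith
  have hsum1 : ∑ i ∈ J, LG (μ i) (Gs i) X B ≥
      (e + 1) * base + e * ((2 * δ + S / G) * (2 * g')) - (C * (2 * g') ^ 2 + 2 * (2 * g'))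
      := by
    have h1 : ∑ i ∈ J, LG (μ i) (Gs i) X B =
        ∑ i ∈ F, LG (μ i) (Gs i) X B +
          ∑ i ∈ J \ F, LG (μ i) (Gs i) X B := by
      have := Finset.sum_sdiff (f := fun i => LG (μ i) (Gs i) X B) hF
      linarith
    have h2 := Finset.sum_le_sum hgood
    have h3 : ∑ i ∈ J \ F, base ≤ ∑ i ∈ J \ F, LG (μ i) (Gs i) X B :=
      Finset.sum_le_sum fun i hi => hall i (Finset.mem_sdiff.1 hi).1
    rw [Finset.sum_const, nsmul_eq_mul, Finset.card_sdiff_of_subset hF, hJ,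
      Nat.cast_sub (by rw [← hJ]; exact Finset.card_le_card hF)] at h3
    rw [Finset.sum_sub_distrib, Finset.sum_const, nsmul_eq_mul] at h2
    push_cast at h3
    have h4 : (e : ℝ) * ((2 * δ + S / G) * (2 * g')) ≤
        F.card * ((2 * δ + S / G) * (2 * g')) :=
      mul_le_mul_of_nonneg_right (by exact_mod_cast hFc) (by positivity)
    rw [h1]
    nlinarith
  -- conclusion
  have hTn : τ₀ * (e + 1) = ∑ i ∈ J, LG (μ i) (Gs i) X B := by
    rw [hτ₀, div_mul_cancel₀ _ (by positivity)]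
  have hfin : base + S * g' / G ≤ τ₀ := by
    have h1 : C * (2 * g') ^ 2 + 2 * (2 * g') ≤ e * (2 * δ * (2 * g')) := by
      have h2 : C * (2 * g') ^ 2 = δ * e * (2 * g') := by rw [← hCg]; ring
      rw [h2]
      nlinarith
    have h2 : (e + 1) * base + e * (S / G * (2 * g')) ≤
        τ₀ * (e + 1) := by
      rw [hTn]
      nlinarith
    have h3 : (base + S * g' / G) * (e + 1) ≤ τ₀ * (e + 1) := by
      refine le_trans ?_ h2
      have h4 : S * g' / G * (e + 1) ≤ e * (S / G * (2 * g')) := by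
        have h5 : (0 : ℝ) ≤ S / G * g' := by positivity
        have h6 : (1 : ℝ) ≤ e := by
          have : 0 < e := by exact_mod_cast he0
          exact_mod_cast this
        have h7 : S * g' / G = S / G * g' := by ring
        rw [h7]
        nlinarith
      linarith
    exact le_of_mul_le_mul_right h3 (by positivity)
  have hpot : (1 - 3 * δ) * S * (g' + G) - S ^ 2 ≤ (g' + G) * (base + S * g' / G) := by
    have h1 : (g' + G) * (base + S * g' / G) =
        (1 - 3 * δ) * S * (g' + G) - S ^ 2 + S * g' / G * (g' + G - S) := by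
      rw [hbase]
      field_simp
      ring
    have h2 : 0 ≤ S * g' / G * (g' + G - S) := mul_nonneg (by positivity) (by linarith)
    linarith
  exact hpot.trans (mul_le_mul_of_nonneg_left hfin (by linarith))

/-- the set `A` carries a probability measure with potential `γ` -/
def GP (δ : ℝ) (A : Finset ℕ) (γ : ℝ) : Prop :=
  0 ≤ γ ∧ ∃ μ : ℕ → ℝ, (∀ g ∈ A, 0 ≤ μ g) ∧ ∑ g ∈ A, μ g = 1 ∧
    ∀ X B : Finset ℤ, X.Nonempty → B.Nonempty →
      (1 - 3 * δ) * Sz X B * γ - Sz X B ^ 2 ≤ γ * LG μ A X B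

theorem GP_zero (δ : ℝ) {A : Finset ℕ} (hA : A.Nonempty) : GP δ A 0 := by
  obtain ⟨a, ha⟩ := hA
  refine ⟨le_rfl, fun g => if g = a then 1 else 0, fun g _ => by positivity, ?_, fun X B _ _ => ?_⟩
  · rw [Finset.sum_ite_eq' A a]
    simp [ha]
  · nlinarith [sq_nonneg (Sz X B)]

theorem GP_sub {δ : ℝ} {A' A : Finset ℕ} (h : A' ⊆ A) {γ : ℝ} (hG : GP δ A' γ) : GP δ A γ := by
  obtain ⟨h0, μ, h1, h2, h3⟩ := hG
  refine ⟨h0, fun g => if g ∈ A' then μ g else 0, fun g _ => ?_, ?_, fun X B hX hB => ?_⟩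
  · dsimp only
    split_ifs with hg
    · exact h1 g hg
    · exact le_rfl
  · rw [Finset.sum_ite_mem, Finset.inter_eq_right.2 h]
    exact h2
  · refine (h3 X B hX hB).trans (le_of_eq ?_)
    congr 1
    unfold LG
    have : ∀ g ∈ A, (if g ∈ A' then μ g else 0) * Real.log ((dil (g : ℤ) X + B).card : ℝ) =
        if g ∈ A' then μ g * Real.log ((dil (g : ℤ) X + B).card : ℝ) else 0 := by
      intro g _
      split_ifs <;> simp
    rw [Finset.sum_congr rfl this, Finset.sum_ite_mem, Finset.inter_eq_right.2 h]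

theorem GP_comb {δ C : ℝ} (hδ : 0 < δ) (hC : 0 < C)
    (hsmall : ∀ (Q : ℤ) (X B : Finset ℤ), X.Nonempty → B.Nonempty →
      (1 - δ) * (ent Q X + ent Q B) - C * (ent Q X * ent Q B) ≤ jent Q X B)
    {p : ℕ} (hp : p.Prime) (J : Finset ℕ) {e : ℕ} (hJ : J.card = e + 1) (hδe : 2 ≤ δ * e)
    {A : Finset ℕ} {Gs : ℕ → Finset ℕ} (hsub : ∀ i ∈ J, Gs i ⊆ A)
    (hG : ∀ i ∈ J, Val p i (Gs i)) {γ : ℝ} (hγ : 0 ≤ γ) {γs : ℕ → ℝ} (hγs : ∀ i ∈ J, γ ≤ γs i)
    (hGP : ∀ i ∈ J, GP δ (Gs i) (γs i)) : GP δ A (δ / (2 * C) * e + γ) := by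
  have hlow : ∀ i ∈ J, GP δ (Gs i) γ := by
    intro i hi
    obtain ⟨h0, μ, h1, h2, h3⟩ := hGP i hi
    refine ⟨hγ, μ, h1, h2, fun X B hX hB => ?_⟩
    have h4 := h3 X B hX hB
    have h5 := hγs i hi
    have h6 : 0 ≤ LG μ (Gs i) X B := LG_nonneg h1 X B
    have h7 := Sz_nonneg X B
    by_cases hc : (1 - 3 * δ) * Sz X B ≤ LG μ (Gs i) X B
    · have := mul_le_mul_of_nonneg_right hc hγ
      nlinarith [sq_nonneg (Sz X B)]
    · push Not at hc
      have : 0 ≤ ((1 - 3 * δ) * Sz X B - LG μ (Gs i) X B) * (γs i - γ) :=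
        mul_nonneg (by linarith) (by linarith)
      nlinarith
  choose! μ hμ using fun i hi => (hlow i hi).2
  have he1 : (0 : ℝ) < (e : ℝ) + 1 := by positivity
  refine ⟨add_nonneg (by positivity) hγ,
    fun g => (∑ i ∈ J, if g ∈ Gs i then μ i g else 0) / (e + 1), fun g _ => ?_, ?_,
    fun X B hX hB => ?_⟩
  · refine div_nonneg (Finset.sum_nonneg fun i hi => ?_) he1.le
    split_ifs with hg
    · exact (hμ i hi).1 g hg
    · exact le_rfl
  · rw [← Finset.sum_div, Finset.sum_comm]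
    have h1 : ∀ i ∈ J, ∑ g ∈ A, (if g ∈ Gs i then μ i g else 0) = 1 := by
      intro i hi
      rw [Finset.sum_ite_mem, Finset.inter_eq_right.2 (hsub i hi)]
      exact (hμ i hi).2.1
    rw [Finset.sum_congr rfl h1, Finset.sum_const, hJ, nsmul_eq_mul]
    push_cast
    field_simp
  · have h1 := comb hδ hC hsmall hp J hJ hδe (fun i hi => (hμ i hi).1) (fun i hi => (hμ i hi).2.1)
      hG hγ (fun i hi => (hμ i hi).2.2) hX hB
    refine h1.trans (le_of_eq ?_)
    congr 1
    unfold LG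
    have h2 : ∀ g ∈ A, (∑ i ∈ J, if g ∈ Gs i then μ i g else 0) / ((e : ℝ) + 1) *
        Real.log ((dil (g : ℤ) X + B).card : ℝ) =
        (∑ i ∈ J, if g ∈ Gs i then μ i g * Real.log ((dil (g : ℤ) X + B).card : ℝ) else 0) /
          ((e : ℝ) + 1) := by
      intro g _
      rw [div_mul_eq_mul_div, Finset.sum_mul]
      congr 1
      refine Finset.sum_congr rfl fun i _ => ?_
      split_ifs <;> simp
    rw [Finset.sum_congr rfl h2, ← Finset.sum_div, Finset.sum_comm]
    congr 1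
    refine Finset.sum_congr rfl fun i hi => ?_
    rw [Finset.sum_ite_mem, Finset.inter_eq_right.2 (hsub i hi)]

end Pool.Agent.H85.TS
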