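import Pool.Agent.H85.TS.OneD

/-!
The product set inequality for a functional which is superadditive up to a constant on valuation
classes.
-/

set_option autoImplicit false

namespace Pool.Agent.H85.TS

open Finset
open scoped Pointwise Classical

/-- the elements of `A` of valuation `i` at `p` -/
def vc (p : ℕ) (A : Finset ℕ) (i : ℕ) : Finset ℕ := A.filter fun a => a.factorization p = i

theorem vc_sub (p : ℕ) (A : Finset ℕ) (i : ℕ) : vc p A i ⊆ A := Finset.filter_subset _ _

theorem vc_sum (p : ℕ) (A : Finset ℕ) :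
    ∑ i ∈ A.image (fun a => a.factorization p), ((vc p A i).card : ℝ) = A.card := by
  have h := Finset.card_eq_sum_card_image (fun a : ℕ => a.factorization p) A
  rw [h]
  push_cast
  rfl

theorem vc_nonempty {p : ℕ} {A : Finset ℕ} {i : ℕ}
    (hi : i ∈ A.image (fun a => a.factorization p)) : (vc p A i).Nonempty := by
  obtain ⟨a, ha, rfl⟩ := Finset.mem_image.1 hi
  exact ⟨a, Finset.mem_filter.2 ⟨ha, rfl⟩⟩

/-- if `A` has two elements some prime separates them -/
theorem exists_sep {A : Finset ℕ} (h0 : 0 ∉ A) (h2 : 1 < A.card) :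
    ∃ p : ℕ, p.Prime ∧ ∀ i, (vc p A i).card < A.card := by
  obtain ⟨a, ha, b, hb, hab⟩ := Finset.one_lt_card.1 h2
  have ha0 : a ≠ 0 := fun h => h0 (h ▸ ha)
  have hb0 : b ≠ 0 := fun h => h0 (h ▸ hb)
  obtain ⟨p, hp⟩ : ∃ p, a.factorization p ≠ b.factorization p := by
    by_contra hcon
    push Not at hcon
    exact hab (Nat.eq_of_factorization_eq ha0 hb0 hcon)
  have hpp : p.Prime := by
    by_contra hnp
    exact hp (by rw [Nat.factorization_eq_zero_of_not_prime _ hnp,
      Nat.factorization_eq_zero_of_not_prime _ hnp])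
  refine ⟨p, hpp, fun i => Finset.card_lt_card ⟨vc_sub p A i, fun hsub => ?_⟩⟩
  have h1 := (Finset.mem_filter.1 (hsub ha)).2
  have h3 := (Finset.mem_filter.1 (hsub hb)).2
  exact hp (h1.trans h3.symm)

/-- the product set inequality -/
theorem prod_ineq {c β : ℝ} (hc : 0 < c) (hc1 : c ≤ 1) (hβ : 3 ≤ β)
    (hcβ : 1 ≤ c * (1 + 1 / 1024) ^ β) {QP : Finset ℕ → ℝ → Prop}
    (q1 : ∀ A : Finset ℕ, A.Nonempty → QP A 1)
    (q2 : ∀ A' A : Finset ℕ, A' ⊆ A → ∀ w, QP A' w → QP A w)
    (q3 : ∀ p : ℕ, p.Prime → ∀ A : Finset ℕ, 0 ∉ A → A.Nonempty → ∀ w : ℕ → ℝ,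
      (∀ i ∈ A.image (fun a => a.factorization p), QP (vc p A i) (w i)) →
      QP A (c * ∑ i ∈ A.image (fun a => a.factorization p), w i)) (n : ℕ) :
    ∀ A B : Finset ℕ, A.card + B.card ≤ n → A.Nonempty → B.Nonempty → 0 ∉ A → 0 ∉ B →
      ∃ w v : ℝ, (1 ≤ w ∧ w ≤ A.card ∧ QP A w) ∧ (1 ≤ v ∧ v ≤ B.card ∧ QP B v) ∧
        (A.card : ℝ) ^ (1 + β) * (B.card : ℝ) ^ (1 + β) ≤
          w * v * ((A * B).card : ℝ) ^ (2 * β) := by
  have hβ0 : 0 < β := by linarith
  induction n with
  | zero =>
    intro A B hn hA _ _ _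
    have := hA.card_pos
    omega
  | succ n ih =>
    intro A B hn hA hB hA0 hB0
    have cA : 1 ≤ A.card := hA.card_pos
    have cB : 1 ≤ B.card := hB.card_pos
    by_cases h1 : A.card = 1 ∧ B.card = 1
    · refine ⟨1, 1, ⟨le_rfl, by rw [h1.1]; simp, q1 A hA⟩, ⟨le_rfl, by rw [h1.2]; simp, q1 B hB⟩, ?_⟩
      rw [h1.1, h1.2]
      simp only [Nat.cast_one, Real.one_rpow, one_mul]
      apply Real.one_le_rpow _ (by linarith)
      exact_mod_cast (hA.mul hB).card_pos
    -- the prime
    obtain ⟨p, hp, hlt⟩ : ∃ p : ℕ, p.Prime ∧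
        ∀ i j, (vc p A i).card + (vc p B j).card < A.card + B.card := by
      by_cases h2 : 1 < A.card
      · obtain ⟨p, hp, h⟩ := exists_sep hA0 h2
        refine ⟨p, hp, fun i j => ?_⟩
        have h3 := h i
        have h4 : (vc p B j).card ≤ B.card := Finset.card_le_card (vc_sub _ _ _)
        omega
      · have h3 : 1 < B.card := by omega
        obtain ⟨p, hp, h⟩ := exists_sep hB0 h3
        refine ⟨p, hp, fun i j => ?_⟩
        have h3 := h j
        have h4 : (vc p A i).card ≤ A.card := Finset.card_le_card (vc_sub _ _ _)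
        omega
    set I : Finset ℕ := A.image (fun a => a.factorization p) with hI
    set J : Finset ℕ := B.image (fun a => a.factorization p) with hJ
    have hIn : I.Nonempty := hA.image _
    have hJn : J.Nonempty := hB.image _
    have hA0' : ∀ i, 0 ∉ vc p A i := fun i h => hA0 (vc_sub _ _ _ h)
    have hB0' : ∀ i, 0 ∉ vc p B i := fun i h => hB0 (vc_sub _ _ _ h)
    have hih : ∀ i ∈ I, ∀ j ∈ J, ∃ w v : ℝ, (1 ≤ w ∧ w ≤ (vc p A i).card ∧ QP (vc p A i) w) ∧
        (1 ≤ v ∧ v ≤ (vc p B j).card ∧ QP (vc p B j) v) ∧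
        ((vc p A i).card : ℝ) ^ (1 + β) * ((vc p B j).card : ℝ) ^ (1 + β) ≤
          w * v * ((vc p A i * vc p B j).card : ℝ) ^ (2 * β) := by
      intro i hi j hj
      exact ih (vc p A i) (vc p B j) (by have := hlt i j; omega) (vc_nonempty hi) (vc_nonempty hj)
        (hA0' i) (hB0' j)
    choose! w v hw hv hwv using hih
    -- the best weights
    have hbw : ∀ i ∈ I, ∃ x : ℝ, (1 ≤ x ∧ x ≤ (vc p A i).card ∧ QP (vc p A i) x) ∧
        ∀ j ∈ J, w i j ≤ x := by
      intro i hi
      obtain ⟨j, hj, hjm⟩ := Finset.exists_max_image J (w i) hJn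
      exact ⟨w i j, hw i hi j hj, hjm⟩
    have hbv : ∀ j ∈ J, ∃ x : ℝ, (1 ≤ x ∧ x ≤ (vc p B j).card ∧ QP (vc p B j) x) ∧
        ∀ i ∈ I, v i j ≤ x := by
      intro j hj
      obtain ⟨i, hi, him⟩ := Finset.exists_max_image I (fun i => v i j) hIn
      exact ⟨v i j, hv i hi j hj, him⟩
    choose! x hx hxw using hbw
    choose! y hy hyv using hbv
    -- the total weights
    have htot : ∀ (D : Finset ℕ), D.Nonempty → 0 ∉ D → ∀ z : ℕ → ℝ,
        (∀ i ∈ D.image (fun a => a.factorization p),
          1 ≤ z i ∧ z i ≤ (vc p D i).card ∧ QP (vc p D i) (z i)) →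
        ∃ W : ℝ, (1 ≤ W ∧ W ≤ D.card ∧ QP D W) ∧
          (∀ i ∈ D.image (fun a => a.factorization p), z i ≤ W) ∧
          c * ∑ i ∈ D.image (fun a => a.factorization p), z i ≤ W := by
      intro D hD hD0 z hz
      obtain ⟨i, hi, him⟩ := Finset.exists_max_image (D.image (fun a => a.factorization p)) z
        (hD.image _)
      by_cases hc : c * ∑ i ∈ D.image (fun a => a.factorization p), z i ≤ z i
      · refine ⟨z i, ⟨(hz i hi).1, (hz i hi).2.1.trans ?_, q2 _ _ (vc_sub _ _ _) _ (hz i hi).2.2⟩,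
          him, hc⟩
        exact_mod_cast Finset.card_le_card (vc_sub p D i)
      · push Not at hc
        refine ⟨_, ⟨(hz i hi).1.trans hc.le, ?_, q3 p hp D hD0 hD z fun i hi => (hz i hi).2.2⟩,
          fun j hj => (him j hj).trans hc.le, le_rfl⟩
        have h3 : ∑ i ∈ D.image (fun a => a.factorization p), z i ≤ D.card := by
          rw [← vc_sum p D]
          exact Finset.sum_le_sum fun i hi => (hz i hi).2.1
        have h4 : 0 ≤ ∑ i ∈ D.image (fun a => a.factorization p), z i :=
          Finset.sum_nonneg fun i hi => by have := (hz i hi).1; linarith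
        calc c * ∑ i ∈ D.image (fun a => a.factorization p), z i ≤
              1 * ∑ i ∈ D.image (fun a => a.factorization p), z i :=
              mul_le_mul_of_nonneg_right hc1 h4
          _ ≤ D.card := by rw [one_mul]; exact h3
    obtain ⟨W, hW, hWi, hWs⟩ := htot A hA hA0 x hx
    obtain ⟨V, hV, hVi, hVs⟩ := htot B hB hB0 y hy
    refine ⟨W, V, hW, hV, ?_⟩
    set F : ℕ → ℝ := fun s => ((vc p (A * B) s).card : ℝ) with hF
    have hmain := oneD hc hβ hcβ hIn hJn (a := fun i => ((vc p A i).card : ℝ)) (w := x)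
      (b := fun j => ((vc p B j).card : ℝ)) (v := y) (F := F) (W := W) (V := V)
      (fun i hi => by
        exact_mod_cast (vc_nonempty hi).card_pos)
      (fun i hi => by have := (hx i hi).1; linarith)
      (fun i hi => by
        exact_mod_cast (vc_nonempty hi).card_pos)
      (fun i hi => by have := (hy i hi).1; linarith) hWi hWs hVi hVs
      (fun i hi j hj => by
        refine (hwv i hi j hj).trans ?_
        have h3 : w i j ≤ x i := hxw i hi j hj
        have h4 : v i j ≤ y j := hyv j hj i hi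
        have h5 : 1 ≤ w i j := (hw i hi j hj).1
        have h6 : 1 ≤ v i j := (hv i hi j hj).1
        have h7 : ((vc p A i * vc p B j).card : ℝ) ≤ F (i + j) := by
          rw [hF]
          simp only
          have : vc p A i * vc p B j ⊆ vc p (A * B) (i + j) := by
            intro z hz
            obtain ⟨a, ha, b, hb, rfl⟩ := Finset.mem_mul.1 hz
            obtain ⟨ha1, ha2⟩ := Finset.mem_filter.1 ha
            obtain ⟨hb1, hb2⟩ := Finset.mem_filter.1 hb
            refine Finset.mem_filter.2 ⟨Finset.mul_mem_mul ha1 hb1, ?_⟩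
            have ha0 : a ≠ 0 := fun h => hA0 (h ▸ ha1)
            have hb0 : b ≠ 0 := fun h => hB0 (h ▸ hb1)
            rw [Nat.factorization_mul ha0 hb0, Finsupp.add_apply, ha2, hb2]
          exact_mod_cast Finset.card_le_card this
        have h8 : ((vc p A i * vc p B j).card : ℝ) ^ (2 * β) ≤ F (i + j) ^ (2 * β) :=
          Real.rpow_le_rpow (Nat.cast_nonneg _) h7 (by positivity)
        have h9 : 0 ≤ ((vc p A i * vc p B j).card : ℝ) ^ (2 * β) :=
          Real.rpow_nonneg (Nat.cast_nonneg _) _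
        exact mul_le_mul (mul_le_mul h3 h4 (by linarith) (by linarith)) h8 h9
          (mul_nonneg (by linarith) (by linarith)))
      (fun s => Nat.cast_nonneg _)
    rw [hI, hJ, vc_sum p A, vc_sum p B] at hmain
    refine hmain.trans ?_
    have hsum : ∑ s ∈ I + J, F s ≤ (A * B).card := by
      rw [← vc_sum p (A * B)]
      have hsub : (A * B).image (fun a => a.factorization p) ⊆ I + J := by
        intro s hs
        obtain ⟨z, hz, rfl⟩ := Finset.mem_image.1 hs
        obtain ⟨a, ha, b, hb, rfl⟩ := Finset.mem_mul.1 hz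
        have ha0 : a ≠ 0 := fun h => hA0 (h ▸ ha)
        have hb0 : b ≠ 0 := fun h => hB0 (h ▸ hb)
        rw [Nat.factorization_mul ha0 hb0, Finsupp.add_apply]
        exact Finset.add_mem_add (Finset.mem_image_of_mem _ ha) (Finset.mem_image_of_mem _ hb)
      apply le_of_eq
      symm
      apply Finset.sum_subset hsub
      intro s _ hs
      have : vc p (A * B) s = ∅ := by
        rw [Finset.eq_empty_iff_forall_notMem]
        intro z hz
        obtain ⟨h3, h4⟩ := Finset.mem_filter.1 hz
        exact hs (Finset.mem_image.2 ⟨z, h3, h4⟩)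
      rw [this]
      simp
    have hW0 : 0 ≤ W * V := mul_nonneg (by linarith [hW.1]) (by linarith [hV.1])
    apply mul_le_mul_of_nonneg_left _ hW0
    rw [hI, hJ] at hsum
    exact Real.rpow_le_rpow (Finset.sum_nonneg fun s _ => Nat.cast_nonneg _) hsum (by positivity)

end Pool.Agent.H85.TS
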