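import Pool.Agent.H85.TS.Pig
import Pool.Agent.H85.TS.Prod

/-!
Some dilate by an element of a set with few products has a large sum with a given set.
-/

set_option autoImplicit false

namespace Pool.Agent.H85.TS

open Finset
open Pool.Agent.TH83.SQ (cls dil)
open Pool.Agent.TH83.DC (ent jent jent_small Sz Sz_nonneg)
open scoped Pointwise Classical

theorem vc_val {p : ℕ} (hp : p.Prime) {A : Finset ℕ} (hA : 0 ∉ A) (i : ℕ) : Val p i (vc p A i) := by
  intro g hg
  obtain ⟨h1, h2⟩ := Finset.mem_filter.1 hg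
  have hg0 : g ≠ 0 := fun h => hA (h ▸ h1)
  refine ⟨g / p ^ g.factorization p, (Nat.coprime_ordCompl hp hg0).symm, ?_⟩
  rw [← h2, mul_comm]
  exact (Nat.ordProj_mul_ordCompl_eq_self g p).symm

theorem exists_beta {c : ℝ} (hc : 0 < c) : ∃ β : ℝ, 3 ≤ β ∧ 1 ≤ c * (1 + 1 / 1024) ^ β := by
  obtain ⟨n, hn⟩ := pow_unbounded_of_one_lt (1 / c) (show (1 : ℝ) < 1 + 1 / 1024 by norm_num)
  refine ⟨max 3 n, le_max_left _ _, ?_⟩
  have h1 : (1 + 1 / 1024 : ℝ) ^ n ≤ (1 + 1 / 1024 : ℝ) ^ (max 3 (n : ℝ)) := by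
    rw [← Real.rpow_natCast]
    exact Real.rpow_le_rpow_of_exponent_le (by norm_num) (le_max_right _ _)
  have h2 := hn.le.trans h1
  rw [div_le_iff₀ hc] at h2
  linarith

/-- the potential of a large subset of a set with few products -/
theorem potential (δ K : ℝ) (hδ : 0 < δ) :
    ∃ δ₀ : ℝ, 0 < δ₀ ∧ ∀ G G₁ : Finset ℕ, 0 ∉ G → G₁ ⊆ G → G₁.Nonempty →
      ((G * G).card : ℝ) ≤ (G.card : ℝ) ^ (1 + δ₀) → (G.card : ℝ) ^ (1 - δ₀) ≤ G₁.card →
      ∃ γ : ℝ, K * Real.log G.card ≤ γ ∧ GP δ G₁ γ := by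
  obtain ⟨C, hC, hsmall⟩ := jent_small δ hδ
  obtain ⟨E₁, hE₁⟩ := exists_nat_ge (2 / δ)
  obtain ⟨E₂, hE₂⟩ := exists_nat_ge (2 * K / (δ / (2 * C)))
  set E : ℕ := max 1 (max E₁ E₂) with hE
  have hE1 : 1 ≤ E := le_max_left _ _
  have cE : (1 : ℝ) ≤ E := by exact_mod_cast hE1
  have hEE1 : (E₁ : ℝ) ≤ E := by
    exact_mod_cast (le_max_left E₁ E₂).trans (le_max_right 1 _)
  have hEE2 : (E₂ : ℝ) ≤ E := by
    exact_mod_cast (le_max_right E₁ E₂).trans (le_max_right 1 _)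
  have hδE : 2 ≤ δ * E := by
    have h1 := hE₁.trans hEE1
    rw [div_le_iff₀ hδ] at h1
    linarith
  set c' : ℝ := δ / (2 * C) with hc'
  have hc'0 : 0 < c' := by positivity
  have hKE : K ≤ c' * E / 2 := by
    have h1 := hE₂.trans hEE2
    rw [div_le_iff₀ hc'0] at h1
    linarith
  set c : ℝ := 1 / (2 * E) with hc
  have hc0 : 0 < c := by positivity
  have hc1 : c ≤ 1 := by
    rw [hc, div_le_one (by positivity)]; linarith
  obtain ⟨β, hβ, hcβ⟩ := exists_beta hc0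
  set lam : ℝ := 1 / (c' * E) with hlam
  have hlam0 : 0 < lam := by positivity
  refine ⟨1 / (2 * (1 + 3 * β)), by positivity, ?_⟩
  set δ₀ : ℝ := 1 / (2 * (1 + 3 * β)) with hδ₀
  have hδ₀0 : 0 < δ₀ := by positivity
  have hδ₀e : δ₀ * (1 + 3 * β) = 1 / 2 := by rw [hδ₀]; field_simp
  intro G G₁ hG0 hsub hne hdoub hlarge
  have hGne : G.Nonempty := hne.mono hsub
  obtain ⟨w, v, ⟨hw1, hw2, hw3⟩, ⟨hv1, hv2, hv3⟩, hmain⟩ := prod_ineq hc0 hc1 hβ hcβ
    (QP := Q δ lam) (fun A hA => Q_one hA) (fun A' A h w hw => Q_sub h hw)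
    (fun p hp A hA0 hA w hw => by
      have h1 := Q_comb hδ hC hsmall hδE hE1 hp (A.image (fun a => a.factorization p))
        (hA.image _) (A := A) (Gs := vc p A) (fun i _ => vc_sub p A i)
        (fun i _ => vc_val hp hA0 i) (w := w) hw
      have h2 : c * ∑ i ∈ A.image (fun a => a.factorization p), w i =
          (∑ i ∈ A.image (fun a => a.factorization p), w i) / (2 * E) := by
        rw [hc]; ring
      rw [h2]
      exact h1) (G₁.card + G.card) G₁ G le_rfl hne hGne (fun h => hG0 (hsub h)) hG0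
  obtain ⟨γ, hγ, hγw⟩ := hw3
  refine ⟨γ, ?_, hγ⟩
  have cG : (0 : ℝ) < G.card := by exact_mod_cast hGne.card_pos
  have cG₁ : (0 : ℝ) < G₁.card := by exact_mod_cast hne.card_pos
  have cGG : (0 : ℝ) < (G₁ * G).card := by exact_mod_cast (hne.mul hGne).card_pos
  have hGG : ((G₁ * G).card : ℝ) ≤ (G.card : ℝ) ^ (1 + δ₀) := by
    refine le_trans ?_ hdoub
    exact_mod_cast Finset.card_le_card (Finset.mul_subset_mul_right hsub)
  set L : ℝ := Real.log G.card with hL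
  have hL0 : 0 ≤ L := Real.log_natCast_nonneg _
  have e1 : (1 - δ₀) * L ≤ Real.log G₁.card := by
    rw [hL, ← Real.log_rpow cG]
    exact Real.log_le_log (by positivity) hlarge
  have e2 : Real.log ((G₁ * G).card : ℝ) ≤ (1 + δ₀) * L := by
    rw [hL, ← Real.log_rpow cG]
    exact Real.log_le_log cGG hGG
  have hw0 : 0 < w := by linarith
  have hv0 : 0 < v := by linarith
  have e3 : Real.log v ≤ L := Real.log_le_log hv0 hv2
  have e4 : Real.log w ≤ lam * γ := by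
    rw [Real.log_le_iff_le_exp hw0]
    exact hγw
  have e5 : (1 + β) * Real.log G₁.card + (1 + β) * L ≤
      Real.log w + Real.log v + 2 * β * Real.log ((G₁ * G).card : ℝ) := by
    have h1 := Real.log_le_log (by positivity) hmain
    rw [Real.log_mul (by positivity) (by positivity), Real.log_rpow cG₁, Real.log_rpow cG,
      Real.log_mul (by positivity) (by positivity), Real.log_mul hw0.ne' hv0.ne',
      Real.log_rpow cGG] at h1
    exact h1
  have e6 : L / 2 ≤ lam * γ := by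
    have h1 : (1 + β) * ((1 - δ₀) * L) ≤ (1 + β) * Real.log G₁.card :=
      mul_le_mul_of_nonneg_left e1 (by linarith)
    have h2 : 2 * β * Real.log ((G₁ * G).card : ℝ) ≤ 2 * β * ((1 + δ₀) * L) :=
      mul_le_mul_of_nonneg_left e2 (by linarith)
    have h3 : (1 + β) * ((1 - δ₀) * L) + (1 + β) * L - L - 2 * β * ((1 + δ₀) * L) =
        L - δ₀ * (1 + 3 * β) * L := by ring
    rw [hδ₀e] at h3
    linarith
  have e7 : c' * E * L / 2 ≤ γ := by
    have h1 : lam * γ * (c' * E) = γ := by rw [hlam]; field_simp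
    have h2 := mul_le_mul_of_nonneg_right e6 (by positivity : 0 ≤ c' * E)
    rw [h1] at h2
    linarith
  refine le_trans ?_ e7
  have := mul_le_mul_of_nonneg_right hKE hL0
  linarith

/-- **dilates by the elements of a set with few products** -/
theorem dilates (δ s : ℝ) (hδ : 0 < δ) (hs : 0 < s) :
    ∃ δ₀ : ℝ, 0 < δ₀ ∧ ∀ G G₁ : Finset ℕ, 0 ∉ G → G₁ ⊆ G → G₁.Nonempty →
      ((G * G).card : ℝ) ≤ (G.card : ℝ) ^ (1 + δ₀) → (G.card : ℝ) ^ (1 - δ₀) ≤ G₁.card →
      ∀ X B : Finset ℤ, X.Nonempty → B.Nonempty →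
        s * (Real.log X.card + Real.log B.card) ≤ Real.log G.card →
        ∃ g ∈ G₁, (1 - δ) * (Real.log X.card + Real.log B.card) ≤
          Real.log ((dil (g : ℤ) X + B).card : ℝ) := by
  obtain ⟨δ₀, hδ₀, hmain⟩ := potential (δ / 4) (4 / (δ * s)) (by positivity)
  refine ⟨δ₀, hδ₀, fun G G₁ hG0 hsub hne hdoub hlarge X B hX hB hS => ?_⟩
  obtain ⟨γ, hγ, hγ0, μ, hμ, hμ1, hGP⟩ := hmain G G₁ hG0 hsub hne hdoub hlarge
  set S : ℝ := Real.log X.card + Real.log B.card with hSdef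
  have hS0 : 0 ≤ S := Sz_nonneg X B
  rcases hS0.eq_or_lt with h0 | hSpos
  · obtain ⟨g, hg⟩ := hne
    exact ⟨g, hg, by rw [← h0, mul_zero]; exact Real.log_natCast_nonneg _⟩
  have h1 := hGP X B hX hB
  have h2 : S / (δ / 4) ≤ γ := by
    refine le_trans ?_ hγ
    have h3 := mul_le_mul_of_nonneg_left hS (by positivity : 0 ≤ 4 / (δ * s))
    refine le_trans (le_of_eq ?_) h3
    field_simp
  have hγpos : 0 < γ := lt_of_lt_of_le (by positivity) h2
  rw [div_le_iff₀ (by positivity)] at h2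
  have h3 : (1 - δ) * S ≤ LG μ G₁ X B := by
    have h4 : (1 - δ) * S * γ ≤ LG μ G₁ X B * γ := by
      have h5 : (1 - 3 * (δ / 4)) * S * γ - S ^ 2 ≤ γ * LG μ G₁ X B := h1
      have h6 : S * S ≤ S * (γ * (δ / 4)) := mul_le_mul_of_nonneg_left h2 hS0
      nlinarith
    exact le_of_mul_le_mul_right h4 hγpos
  by_contra hcon
  push Not at hcon
  have h4 : LG μ G₁ X B < (1 - δ) * S := by
    obtain ⟨g₀, hg₀, hg₀pos⟩ : ∃ g ∈ G₁, 0 < μ g := by
      by_contra hc
      push Not at hc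
      have : ∑ g ∈ G₁, μ g ≤ 0 := Finset.sum_nonpos hc
      linarith
    have h5 : LG μ G₁ X B < ∑ g ∈ G₁, μ g * ((1 - δ) * S) := by
      apply Finset.sum_lt_sum
      · intro g hg
        exact mul_le_mul_of_nonneg_left (hcon g hg).le (hμ g hg)
      · exact ⟨g₀, hg₀, mul_lt_mul_of_pos_left (hcon g₀ hg₀) hg₀pos⟩
    rwa [← Finset.sum_mul, hμ1, one_mul] at h5
  linarith

end Pool.Agent.H85.TS
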