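import Pool.Graph.R_seed8.H217R3.AK.Bsg

/-!
Additive energies of two sets: decomposition of the second set, representation by differences.
-/

set_option autoImplicit false

namespace Pool.Agent.H85.TS

open Finset
open scoped Pointwise

variable {M : Type*} [AddCommGroup M] [DecidableEq M]

/-- the number of representations as a sum -/
def rr (U V : Finset M) (a : M) : ℕ := ((U ×ˢ V).filter fun p => p.1 + p.2 = a).card

/-- the number of representations as a difference -/
def qd (V : Finset M) (x : M) : ℕ := ((V ×ˢ V).filter fun p => p.1 - p.2 = x).card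

theorem rr_zero {U V : Finset M} {a : M} (h : a ∉ U + V) : rr U V a = 0 := by
  unfold rr
  rw [card_eq_zero, filter_eq_empty_iff]
  rintro p hp rfl
  rw [mem_product] at hp
  exact h (add_mem_add hp.1 hp.2)

theorem en_eq {U V S : Finset M} (h : U + V ⊆ S) :
    (U.addEnergy V : ℝ) = ∑ a ∈ S, (rr U V a : ℝ) ^ 2 := by
  rw [Finset.addEnergy_eq_sum_sq']
  push_cast
  apply Finset.sum_subset h
  intro a _ ha
  have : rr U V a = 0 := rr_zero ha
  unfold rr at this
  rw [this]
  simp

theorem rr_le_right (U V : Finset M) (a : M) : rr U V a ≤ V.card := by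
  unfold rr
  apply card_le_card_of_injOn (fun p => p.2)
  · intro p hp
    exact (mem_product.1 (mem_filter.1 hp).1).2
  · intro p hp q hq h
    have h1 := (mem_filter.1 hp).2
    have h2 := (mem_filter.1 hq).2
    simp only at h
    have h3 : p.1 = q.1 := by
      rw [h] at h1
      exact add_right_cancel (h1.trans h2.symm)
    exact Prod.ext h3 h

theorem rr_le_left (U V : Finset M) (a : M) : rr U V a ≤ U.card := by
  unfold rr
  apply card_le_card_of_injOn (fun p => p.1)
  · intro p hp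
    exact (mem_product.1 (mem_filter.1 hp).1).1
  · intro p hp q hq h
    have h1 := (mem_filter.1 hp).2
    have h2 := (mem_filter.1 hq).2
    simp only at h
    have h3 : p.2 = q.2 := by
      rw [h] at h1
      exact add_left_cancel (h1.trans h2.symm)
    exact Prod.ext h h3

theorem sum_rr (U V : Finset M) {S : Finset M} (h : U + V ⊆ S) :
    ∑ a ∈ S, (rr U V a : ℝ) = U.card * V.card := by
  have h1 : (U ×ˢ V).card = ∑ a ∈ S, rr U V a := by
    unfold rr
    apply Finset.card_eq_sum_card_fiberwise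
    intro p hp
    rw [mem_coe, mem_product] at hp
    exact h (add_mem_add hp.1 hp.2)
  rw [card_product] at h1
  exact_mod_cast h1.symm

theorem en_le_right (U V : Finset M) : (U.addEnergy V : ℝ) ≤ U.card * (V.card : ℝ) ^ 2 := by
  rw [en_eq (Subset.refl (U + V))]
  calc ∑ a ∈ U + V, (rr U V a : ℝ) ^ 2 ≤ ∑ a ∈ U + V, (rr U V a : ℝ) * V.card := by
        apply sum_le_sum
        intro a _
        rw [sq]
        apply mul_le_mul_of_nonneg_left _ (Nat.cast_nonneg _)
        exact_mod_cast rr_le_right U V a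
    _ = _ := by rw [← sum_mul, sum_rr U V (Subset.refl _)]; ring

theorem en_le_left (U V : Finset M) : (U.addEnergy V : ℝ) ≤ (U.card : ℝ) ^ 2 * V.card := by
  rw [en_eq (Subset.refl (U + V))]
  calc ∑ a ∈ U + V, (rr U V a : ℝ) ^ 2 ≤ ∑ a ∈ U + V, (rr U V a : ℝ) * U.card := by
        apply sum_le_sum
        intro a _
        rw [sq]
        apply mul_le_mul_of_nonneg_left _ (Nat.cast_nonneg _)
        exact_mod_cast rr_le_left U V a
    _ = _ := by rw [← sum_mul, sum_rr U V (Subset.refl _)]; ring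

theorem rr_union {U V₁ V₂ : Finset M} (h : Disjoint V₁ V₂) (a : M) :
    rr U (V₁ ∪ V₂) a = rr U V₁ a + rr U V₂ a := by
  unfold rr
  rw [product_union, filter_union, card_union_of_disjoint]
  apply disjoint_filter_filter
  rw [disjoint_product]
  right
  exact h

/-- two parts -/
theorem en_union (U : Finset M) {V₁ V₂ : Finset M} (h : Disjoint V₁ V₂) :
    (U.addEnergy (V₁ ∪ V₂) : ℝ) ≤ 2 * U.addEnergy V₁ + 2 * U.addEnergy V₂ := by
  rw [en_eq (Subset.refl (U + (V₁ ∪ V₂))), en_eq (U := U) (V := V₁) (S := U + (V₁ ∪ V₂))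
    (add_subset_add_left subset_union_left), en_eq (U := U) (V := V₂) (S := U + (V₁ ∪ V₂))
    (add_subset_add_left subset_union_right), mul_sum, mul_sum, ← sum_add_distrib]
  apply sum_le_sum
  intro a _
  rw [rr_union h]
  push_cast
  nlinarith [sq_nonneg ((rr U V₁ a : ℝ) - rr U V₂ a)]

/-- several parts -/
theorem en_family (U : Finset M) (F : Finset (Finset M))
    (hF : (F : Set (Finset M)).PairwiseDisjoint id) :
    (U.addEnergy (F.biUnion id) : ℝ) ≤ F.card * ∑ H ∈ F, (U.addEnergy H : ℝ) := by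
  set S : Finset M := U + F.biUnion id with hS
  have hsub : ∀ H ∈ F, U + H ⊆ S := fun H hH =>
    add_subset_add_left (subset_biUnion_of_mem id hH)
  rw [en_eq (Subset.refl S), sum_congr rfl fun H hH => en_eq (hsub H hH), sum_comm, mul_sum]
  apply sum_le_sum
  intro a _
  have h1 : rr U (F.biUnion id) a = ∑ H ∈ F, rr U H a := by
    unfold rr
    rw [← card_biUnion]
    · congr 1
      ext p
      simp only [mem_filter, mem_product, mem_biUnion, id]
      constructor
      · rintro ⟨⟨h1, H, hH, h2⟩, h3⟩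
        exact ⟨H, hH, ⟨h1, h2⟩, h3⟩
      · rintro ⟨H, hH, ⟨h1, h2⟩, h3⟩
        exact ⟨⟨h1, H, hH, h2⟩, h3⟩
    · intro H hH H' hH' hne
      apply disjoint_filter_filter
      rw [disjoint_product]
      right
      exact hF hH hH' hne
  rw [h1]
  push_cast
  exact sq_sum_le_card_mul_sum_sq

/-- the energy by differences -/
theorem en_diff (U V : Finset M) :
    (U.addEnergy V : ℝ) = ∑ x ∈ V - V, (qd U x : ℝ) * qd V x := by
  have h1 : U.addEnergy V = ∑ x ∈ V - V, qd U x * qd V x := by
    unfold Finset.addEnergy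
    rw [Finset.card_eq_sum_card_fiberwise (f := fun p => p.2.2 - p.2.1) (t := V - V)]
    · apply sum_congr rfl
      intro x _
      unfold qd
      rw [← card_product]
      refine card_bij' (fun p _ => (((p.1.1, p.1.2), (p.2.2, p.2.1)) : (M × M) × (M × M)))
        (fun p _ => (((p.1.1, p.1.2), (p.2.2, p.2.1)) : (M × M) × (M × M))) ?_ ?_ ?_ ?_
      · rintro ⟨⟨a, b⟩, ⟨c, d⟩⟩ hp
        simp only [mem_filter, mem_product] at hp ⊢
        obtain ⟨⟨⟨⟨h1, h2⟩, h3, h4⟩, h5⟩, h6⟩ := hp
        refine ⟨⟨⟨h1, h2⟩, ?_⟩, ⟨h4, h3⟩, h6⟩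
        rw [← h6, sub_eq_sub_iff_add_eq_add]
        exact h5.trans (add_comm b d)
      · rintro ⟨⟨a, b⟩, ⟨c, d⟩⟩ hp
        simp only [mem_filter, mem_product] at hp ⊢
        obtain ⟨⟨⟨h1, h2⟩, h3⟩, ⟨h4, h5⟩, h6⟩ := hp
        refine ⟨⟨⟨⟨h1, h2⟩, h5, h4⟩, ?_⟩, h6⟩
        rw [← h6, sub_eq_sub_iff_add_eq_add] at h3
        rw [h3, add_comm]
      · rintro ⟨⟨a, b⟩, ⟨c, d⟩⟩ _; rfl
      · rintro ⟨⟨a, b⟩, ⟨c, d⟩⟩ _; rfl
    · rintro ⟨⟨a, b⟩, ⟨c, d⟩⟩ hp
      rw [mem_coe, mem_filter, mem_product, mem_product, mem_product] at hp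
      exact sub_mem_sub hp.1.2.2 hp.1.2.1
  exact_mod_cast h1

theorem qd_le (V : Finset M) (x : M) : qd V x ≤ V.card := by
  unfold qd
  apply card_le_card_of_injOn (fun p => p.2)
  · intro p hp
    exact (mem_product.1 (mem_filter.1 hp).1).2
  · intro p hp q hq h
    have h1 := (mem_filter.1 hp).2
    have h2 := (mem_filter.1 hq).2
    simp only at h
    have h3 : p.1 = q.1 := by
      rw [h] at h1
      exact sub_left_injective (h1.trans h2.symm)
    exact Prod.ext h3 h

theorem sum_qd (V : Finset M) {S : Finset M} :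
    ∑ x ∈ S, (qd V x : ℝ) ≤ (V.card : ℝ) ^ 2 := by
  have h1 : ∑ x ∈ S, qd V x ≤ (V ×ˢ V).card := by
    unfold qd
    rw [← card_biUnion]
    · apply card_le_card
      intro p hp
      obtain ⟨x, _, hx⟩ := mem_biUnion.1 hp
      exact (mem_filter.1 hx).1
    · intro x _ y _ hxy
      apply disjoint_filter.2
      intro p _ h1 h2
      exact hxy (h1.symm.trans h2)
  rw [card_product] at h1
  have h2 : (∑ x ∈ S, (qd V x : ℝ)) ≤ ((V.card * V.card : ℕ) : ℝ) := by exact_mod_cast h1
  rw [sq]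
  exact_mod_cast h2

theorem qd_pos {V : Finset M} {x : M} (h : x ∈ V - V) : 1 ≤ qd V x := by
  obtain ⟨a, ha, b, hb, rfl⟩ := mem_sub.1 h
  unfold qd
  exact card_pos.2 ⟨(a, b), mem_filter.2 ⟨mem_product.2 ⟨ha, hb⟩, rfl⟩⟩

/-- the energy with a set of popular differences -/
theorem en_ge_qd (U D : Finset M) :
    (∑ x ∈ D, (qd U x : ℝ)) ^ 2 ≤ U.card * U.addEnergy D := by
  have h1 := Finset.card_sq_le_card_mul_addEnergy U D U
  -- the number of pairs `(u, x)` with `u + x ∈ U`
  have h2 : ((U ×ˢ D).filter fun p => p.1 + p.2 ∈ U).card = ∑ x ∈ D, qd U x := by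
    rw [Finset.card_eq_sum_card_fiberwise (f := fun p => p.2) (t := D)]
    · apply sum_congr rfl
      intro x hx
      unfold qd
      refine card_bij' (fun p _ => (p.1 + p.2, p.1)) (fun p _ => (p.2, x)) ?_ ?_ ?_ ?_
      · rintro ⟨a, b⟩ hp
        simp only [mem_filter, mem_product] at hp ⊢
        obtain ⟨⟨⟨h1, _⟩, h2⟩, h3⟩ := hp
        exact ⟨⟨h2, h1⟩, by rw [add_sub_cancel_left]; exact h3⟩
      · rintro ⟨a, b⟩ hp
        simp only [mem_filter, mem_product] at hp ⊢
        obtain ⟨⟨h1, h2⟩, h3⟩ := hp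
        refine ⟨⟨⟨h2, hx⟩, ?_⟩, trivial⟩
        rw [← h3, add_sub_cancel]
        exact h1
      · rintro ⟨a, b⟩ hp
        simp only [mem_filter] at hp
        exact Prod.ext rfl hp.2.symm
      · rintro ⟨a, b⟩ hp
        simp only [mem_filter, mem_product] at hp
        refine Prod.ext ?_ rfl
        simp only
        rw [← hp.2, add_sub_cancel]
    · rintro ⟨a, b⟩ hp
      rw [mem_coe, mem_filter, mem_product] at hp
      exact hp.1.2
  rw [h2] at h1
  exact_mod_cast h1

end Pool.Agent.H85.TS
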