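import Pool.Graph.R_seed8.TH83.DC.SMain

/-!
Sums with dilates by the elements of a weighted set of positive integers: one prime.
-/

set_option autoImplicit false

namespace Pool.Agent.H85.TS

open Finset
open Pool.Agent.TH83.SQ (cls dil)
open Pool.Agent.TH83.DC (ent jent gibbs jent_left jent_right jent_small ent_nonneg ent_one ent_le
  sum_cls mean_log_cls ent_chain ent_mono cls_large cls_cls cls_dil ent_dil levels levels_small
  dil_dil card_dil sum_dil cls_pos sum_cls₂ Sz Sz_nonneg ent_large)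
open scoped Pointwise Classical

/-- the weighted mean of `log |g X + B|` over `g ∈ G` -/
noncomputable def LG (μ : ℕ → ℝ) (G : Finset ℕ) (X B : Finset ℤ) : ℝ :=
  ∑ g ∈ G, μ g * Real.log ((dil (g : ℤ) X + B).card : ℝ)

theorem LG_nonneg {μ : ℕ → ℝ} {G : Finset ℕ} (hμ : ∀ g ∈ G, 0 ≤ μ g) (X B : Finset ℤ) :
    0 ≤ LG μ G X B :=
  Finset.sum_nonneg fun g hg => mul_nonneg (hμ g hg) (Real.log_natCast_nonneg _)

/-- all the elements of `G` have valuation `i` at `p` -/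
def Val (p i : ℕ) (G : Finset ℕ) : Prop := ∀ g ∈ G, ∃ d : ℕ, d.Coprime p ∧ g = d * p ^ i

/-- one splitting modulo `p ^ l` -/
theorem LG_split {p : ℕ} (hp : p.Prime) {μ : ℕ → ℝ} {G : Finset ℕ} (hμ : ∀ g ∈ G, 0 ≤ μ g)
    (hμ1 : ∑ g ∈ G, μ g = 1) {i : ℕ} (hG : Val p i G)
    {X B : Finset ℤ} (hX : X.Nonempty) (hB : B.Nonempty) (l : ℕ) (r : ℝ)
    (hr : ∀ (X' : Finset ℤ), X'.Nonempty →
      ent ((p : ℤ) ^ l) X' = ent ((p : ℤ) ^ (l - i)) X → r ≤ jent ((p : ℤ) ^ l) X' B) :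
    r + (∑ x ∈ X, ∑ b ∈ B, LG μ G (cls ((p : ℤ) ^ (l - i)) X x)
      (cls ((p : ℤ) ^ l) B b)) / (X.card * B.card) ≤ LG μ G X B := by
  have cX : (0 : ℝ) < X.card := by exact_mod_cast hX.card_pos
  have cB : (0 : ℝ) < B.card := by exact_mod_cast hB.card_pos
  have hp0 : (p : ℤ) ≠ 0 := by exact_mod_cast hp.ne_zero
  have key : ∀ g ∈ G, r + (∑ x ∈ X, ∑ b ∈ B,
      Real.log ((dil (g : ℤ) (cls ((p : ℤ) ^ (l - i)) X x) +
        cls ((p : ℤ) ^ l) B b).card : ℝ)) / (X.card * B.card) ≤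
      Real.log ((dil (g : ℤ) X + B).card : ℝ) := by
    intro g hg
    obtain ⟨d, hdp, hgd⟩ := hG g hg
    have hd0 : d ≠ 0 := by
      rintro rfl
      rw [Nat.coprime_zero_left] at hdp
      exact hp.one_lt.ne' hdp
    have hdz : (d : ℤ) ≠ 0 := by exact_mod_cast hd0
    have hdc : IsCoprime (d : ℤ) (p : ℤ) := by
      rw [Nat.isCoprime_iff_coprime]
      exact hdp
    have hgz : (g : ℤ) = (d : ℤ) * (p : ℤ) ^ i := by rw [hgd]; push_cast; ring
    have hdp : (d : ℤ) * (p : ℤ) ^ i ≠ 0 := mul_ne_zero hdz (pow_ne_zero _ hp0)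
    rw [hgz]
    set X' : Finset ℤ := dil ((d : ℤ) * (p : ℤ) ^ i) X with hX'
    have hX'n : X'.Nonempty := hX.image _
    have h1 := gibbs ((p : ℤ) ^ l) hX'n hB
    have h2 := hr X' hX'n (ent_dil hp hdc hdz i l X)
    have h3 : (∑ x ∈ X', ∑ b ∈ B, Real.log ((cls ((p : ℤ) ^ l) X' x +
        cls ((p : ℤ) ^ l) B b).card : ℝ)) = ∑ x ∈ X, ∑ b ∈ B,
      Real.log ((dil ((d : ℤ) * (p : ℤ) ^ i) (cls ((p : ℤ) ^ (l - i)) X x) +
        cls ((p : ℤ) ^ l) B b).card : ℝ) := by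
      rw [hX', sum_dil hdp]
      refine Finset.sum_congr rfl fun x _ => Finset.sum_congr rfl fun b _ => ?_
      rw [cls_dil hp hdc i l X x]
    rw [h3, hX', card_dil hdp] at h1
    linarith
  have h1 := Finset.sum_le_sum fun g hg => mul_le_mul_of_nonneg_left (key g hg) (hμ g hg)
  simp only [mul_add] at h1
  rw [Finset.sum_add_distrib, ← Finset.sum_mul, hμ1, one_mul] at h1
  have h2 : (∑ x ∈ X, ∑ b ∈ B, LG μ G (cls ((p : ℤ) ^ (l - i)) X x)
      (cls ((p : ℤ) ^ l) B b)) / (X.card * B.card) = ∑ g ∈ G, μ g * ((∑ x ∈ X, ∑ b ∈ B,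
      Real.log ((dil (g : ℤ) (cls ((p : ℤ) ^ (l - i)) X x) +
        cls ((p : ℤ) ^ l) B b).card : ℝ)) / (X.card * B.card)) := by
    unfold LG
    have h3 : ∀ x ∈ X, ∑ b ∈ B, ∑ g ∈ G, μ g * Real.log ((dil (g : ℤ)
        (cls ((p : ℤ) ^ (l - i)) X x) + cls ((p : ℤ) ^ l) B b).card : ℝ) =
        ∑ g ∈ G, μ g * ∑ b ∈ B, Real.log ((dil (g : ℤ)
        (cls ((p : ℤ) ^ (l - i)) X x) + cls ((p : ℤ) ^ l) B b).card : ℝ) := by
      intro x _
      rw [Finset.sum_comm]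
      exact Finset.sum_congr rfl fun g _ => by rw [Finset.mul_sum]
    rw [Finset.sum_congr rfl h3, Finset.sum_comm, Finset.sum_div]
    refine Finset.sum_congr rfl fun g _ => ?_
    rw [← Finset.mul_sum, mul_div_assoc]
  rw [h2]
  exact h1

/-- the mean of `LG` over the classes at level `l` -/
noncomputable def EE (μ : ℕ → ℝ) (G : Finset ℕ) (p : ℕ) (X B : Finset ℤ) (i l : ℕ) : ℝ :=
  (∑ x ∈ X, ∑ b ∈ B, LG μ G (cls ((p : ℤ) ^ (l - i)) X x)
      (cls ((p : ℤ) ^ l) B b)) / (X.card * B.card)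

theorem EE_zero (μ : ℕ → ℝ) (G : Finset ℕ) (p : ℕ) {X B : Finset ℤ} (hX : X.Nonempty)
    (hB : B.Nonempty) (i : ℕ) : EE μ G p X B i 0 = LG μ G X B := by
  have cX : (0 : ℝ) < X.card := by exact_mod_cast hX.card_pos
  have cB : (0 : ℝ) < B.card := by exact_mod_cast hB.card_pos
  have h1 : ∀ (Y : Finset ℤ) (y : ℤ), cls 1 Y y = Y := fun Y y => by
    unfold cls
    exact Finset.filter_true_of_mem fun z _ => one_dvd _
  unfold EE
  simp only [Nat.zero_sub, pow_zero, h1]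
  rw [Finset.sum_const, Finset.sum_const, nsmul_eq_mul, nsmul_eq_mul]
  field_simp

theorem EE_nonneg {μ : ℕ → ℝ} {G : Finset ℕ} (hμ : ∀ g ∈ G, 0 ≤ μ g) (p : ℕ) (X B : Finset ℤ)
    (i l : ℕ) : 0 ≤ EE μ G p X B i l := by
  unfold EE
  exact div_nonneg (Finset.sum_nonneg fun x _ => Finset.sum_nonneg fun b _ => LG_nonneg hμ _ _)
    (by positivity)

/-- one level -/
theorem EE_step {p : ℕ} (hp : p.Prime) {μ : ℕ → ℝ} {G : Finset ℕ} (hμ : ∀ g ∈ G, 0 ≤ μ g)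
    (hμ1 : ∑ g ∈ G, μ g = 1) {i : ℕ} (hG : Val p i G)
    {X B : Finset ℤ} (hX : X.Nonempty) (hB : B.Nonempty) (l : ℕ) {δ C : ℝ}
    (hsmall : ∀ (Q : ℤ) (X B : Finset ℤ), X.Nonempty → B.Nonempty →
      (1 - δ) * (ent Q X + ent Q B) - C * (ent Q X * ent Q B) ≤ jent Q X B) :
    let DX := ent ((p : ℤ) ^ (l + 1 - i)) X - ent ((p : ℤ) ^ (l - i)) X
    let DB := ent ((p : ℤ) ^ (l + 1)) B - ent ((p : ℤ) ^ l) B
    (1 - δ) * (DX + DB) - C * (DX * DB) + EE μ G p X B i (l + 1) ≤ EE μ G p X B i l ∧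
      DX + EE μ G p X B i (l + 1) ≤ EE μ G p X B i l ∧
      DB + EE μ G p X B i (l + 1) ≤ EE μ G p X B i l := by
  intro DX DB
  have cX : (0 : ℝ) < X.card := by exact_mod_cast hX.card_pos
  have cB : (0 : ℝ) < B.card := by exact_mod_cast hB.card_pos
  have hdvd : ((p : ℤ) ^ (l - i)) ∣ (p : ℤ) ^ (l + 1 - i) := pow_dvd_pow _ (by omega)
  have hdvd' : ((p : ℤ) ^ l) ∣ (p : ℤ) ^ (l + 1) := pow_dvd_pow _ (by omega)
  -- the local entropies
  set a : ℤ → ℝ := fun x => ent ((p : ℤ) ^ (l + 1 - i)) (cls ((p : ℤ) ^ (l - i)) X x) with ha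
  set b' : ℤ → ℝ := fun b => ent ((p : ℤ) ^ (l + 1)) (cls ((p : ℤ) ^ l) B b) with hb'
  have hsa : (∑ x ∈ X, a x) / X.card = DX := ent_chain hdvd hX
  have hsb : (∑ b ∈ B, b' b) / B.card = DB := ent_chain hdvd' hB
  have main : ∀ r : ℤ → ℤ → ℝ, (∀ x ∈ X, ∀ b ∈ B, ∀ (X' : Finset ℤ), X'.Nonempty →
      ent ((p : ℤ) ^ (l + 1)) X' = a x →
      r x b ≤ jent ((p : ℤ) ^ (l + 1)) X' (cls ((p : ℤ) ^ l) B b)) →
      (∑ x ∈ X, ∑ b ∈ B, r x b) / (X.card * B.card) + EE μ G p X B i (l + 1) ≤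
        EE μ G p X B i l := by
    intro r hr
    have h1 : ∀ x ∈ X, ∀ b ∈ B, r x b +
        (∑ x' ∈ cls ((p : ℤ) ^ (l - i)) X x, ∑ b'' ∈ cls ((p : ℤ) ^ l) B b,
          LG μ G (cls ((p : ℤ) ^ (l + 1 - i)) X x')
            (cls ((p : ℤ) ^ (l + 1)) B b'')) /
          ((cls ((p : ℤ) ^ (l - i)) X x).card * (cls ((p : ℤ) ^ l) B b).card) ≤
        LG μ G (cls ((p : ℤ) ^ (l - i)) X x) (cls ((p : ℤ) ^ l) B b) := by
      intro x hx b hb
      have h2 := LG_split hp hμ hμ1 hG (cls_pos ((p : ℤ) ^ (l - i)) hx)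
        (cls_pos ((p : ℤ) ^ l) hb) (l + 1) (r x b) (hr x hx b hb)
      have h3 : (∑ x' ∈ cls ((p : ℤ) ^ (l - i)) X x, ∑ b'' ∈ cls ((p : ℤ) ^ l) B b,
          LG μ G (cls ((p : ℤ) ^ (l + 1 - i)) (cls ((p : ℤ) ^ (l - i)) X x) x')
            (cls ((p : ℤ) ^ (l + 1)) (cls ((p : ℤ) ^ l) B b) b'')) =
          ∑ x' ∈ cls ((p : ℤ) ^ (l - i)) X x, ∑ b'' ∈ cls ((p : ℤ) ^ l) B b,
          LG μ G (cls ((p : ℤ) ^ (l + 1 - i)) X x')
            (cls ((p : ℤ) ^ (l + 1)) B b'') := by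
        refine Finset.sum_congr rfl fun x' hx' => Finset.sum_congr rfl fun b'' hb'' => ?_
        rw [cls_cls hdvd hx', cls_cls hdvd' hb'']
      rw [h3] at h2
      exact h2
    have h2 := Finset.sum_le_sum fun x hx => Finset.sum_le_sum fun b hb => h1 x hx b hb
    simp only [Finset.sum_add_distrib] at h2
    rw [sum_cls₂ ((p : ℤ) ^ (l - i)) ((p : ℤ) ^ l) X B fun x' b'' =>
      LG μ G (cls ((p : ℤ) ^ (l + 1 - i)) X x')
            (cls ((p : ℤ) ^ (l + 1)) B b'')] at h2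
    unfold EE
    rw [← add_div]
    exact div_le_div_of_nonneg_right h2 (by positivity)
  refine ⟨?_, ?_, ?_⟩
  · have h1 := main (fun x b => (1 - δ) * (a x + b' b) - C * (a x * b' b)) ?_
    · refine le_trans (le_of_eq ?_) h1
      congr 1
      have h2 : ∑ x ∈ X, ∑ b ∈ B, ((1 - δ) * (a x + b' b) - C * (a x * b' b)) =
          (1 - δ) * ((∑ x ∈ X, a x) * B.card + X.card * ∑ b ∈ B, b' b) -
            C * ((∑ x ∈ X, a x) * ∑ b ∈ B, b' b) := by
        simp only [Finset.sum_sub_distrib, ← Finset.mul_sum, Finset.sum_add_distrib,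
          Finset.sum_const, nsmul_eq_mul, ← Finset.sum_mul]
        ring
      rw [h2, ← hsa, ← hsb]
      field_simp
    · intro x hx b hb X' hX' he
      have h2 := hsmall ((p : ℤ) ^ (l + 1)) X' (cls ((p : ℤ) ^ l) B b) hX' (cls_pos _ hb)
      rw [he] at h2
      exact h2
  · have h1 := main (fun x _ => a x) ?_
    · refine le_trans (le_of_eq ?_) h1
      congr 1
      simp only [Finset.sum_const, nsmul_eq_mul, ← Finset.mul_sum]
      rw [← hsa]
      field_simp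
    · intro x hx b hb X' hX' he
      have h2 := jent_left ((p : ℤ) ^ (l + 1)) hX' (cls_pos ((p : ℤ) ^ l) hb)
      rw [he] at h2
      exact h2
  · have h1 := main (fun _ b => b' b) ?_
    · refine le_trans (le_of_eq ?_) h1
      congr 1
      simp only [Finset.sum_const, nsmul_eq_mul]
      rw [← hsb]
      field_simp
    · intro x hx b hb X' hX' he
      exact jent_right ((p : ℤ) ^ (l + 1)) hX' (cls_pos ((p : ℤ) ^ l) hb)

/-- the first levels -/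
theorem EE_tele {p : ℕ} (hp : p.Prime) {μ : ℕ → ℝ} {G : Finset ℕ} (hμ : ∀ g ∈ G, 0 ≤ μ g)
    (hμ1 : ∑ g ∈ G, μ g = 1) {i : ℕ} (hG : Val p i G)
    {X B : Finset ℤ} (hX : X.Nonempty) (hB : B.Nonempty) {δ C : ℝ}
    (hsmall : ∀ (Q : ℤ) (X B : Finset ℤ), X.Nonempty → B.Nonempty →
      (1 - δ) * (ent Q X + ent Q B) - C * (ent Q X * ent Q B) ≤ jent Q X B) (L : ℕ) :
    (1 - δ) * (ent ((p : ℤ) ^ (L - i)) X + ent ((p : ℤ) ^ L) B) -
      C * (∑ l ∈ Finset.range L, (ent ((p : ℤ) ^ (l + 1 - i)) X - ent ((p : ℤ) ^ (l - i)) X) *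
        (ent ((p : ℤ) ^ (l + 1)) B - ent ((p : ℤ) ^ l) B)) + EE μ G p X B i L ≤
      LG μ G X B := by
  induction L with
  | zero =>
    rw [EE_zero μ G p hX hB i, Nat.zero_sub, pow_zero, ent_one, ent_one]
    simp
  | succ L ih =>
    have h1 := (EE_step hp hμ hμ1 hG hX hB L hsmall).1
    rw [Finset.sum_range_succ]
    linarith

/-- all the levels, with another bound at the last one -/
theorem EE_last {p : ℕ} (hp : p.Prime) {μ : ℕ → ℝ} {G : Finset ℕ} (hμ : ∀ g ∈ G, 0 ≤ μ g)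
    (hμ1 : ∑ g ∈ G, μ g = 1) {i : ℕ} (hG : Val p i G)
    {X B : Finset ℤ} (hX : X.Nonempty) (hB : B.Nonempty) {δ C : ℝ} (hδ : 0 ≤ δ)
    (hsmall : ∀ (Q : ℤ) (X B : Finset ℤ), X.Nonempty → B.Nonempty →
      (1 - δ) * (ent Q X + ent Q B) - C * (ent Q X * ent Q B) ≤ jent Q X B) (L : ℕ) (hL : 1 ≤ L) :
    (1 - δ) * (ent ((p : ℤ) ^ (L - i)) X + ent ((p : ℤ) ^ L) B) -
      (C * (∑ l ∈ Finset.range (L - 1),
        (ent ((p : ℤ) ^ (l + 1 - i)) X - ent ((p : ℤ) ^ (l - i)) X) *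
        (ent ((p : ℤ) ^ (l + 1)) B - ent ((p : ℤ) ^ l) B)) +
        min (ent ((p : ℤ) ^ (L - i)) X - ent ((p : ℤ) ^ (L - 1 - i)) X)
          (ent ((p : ℤ) ^ L) B - ent ((p : ℤ) ^ (L - 1)) B)) + EE μ G p X B i L ≤
      LG μ G X B := by
  obtain ⟨M, rfl⟩ : ∃ M, L = M + 1 := ⟨L - 1, by omega⟩
  have h0 := EE_tele hp hμ hμ1 hG hX hB hsmall M
  obtain ⟨-, h1, h2⟩ := EE_step hp hμ hμ1 hG hX hB M hsmall
  rw [Nat.add_sub_cancel]
  set a := ent ((p : ℤ) ^ (M + 1 - i)) X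
  set a' := ent ((p : ℤ) ^ (M - i)) X
  set b := ent ((p : ℤ) ^ (M + 1)) B
  set b' := ent ((p : ℤ) ^ M) B
  have ha : a' ≤ a := ent_mono (pow_dvd_pow _ (by omega)) X
  have hb : b' ≤ b := ent_mono (pow_dvd_pow _ (by omega)) B
  have h3 : a - a' + (b - b') - min (a - a') (b - b') + EE μ G p X B i (M + 1) ≤
      EE μ G p X B i M := by
    rcases min_choice (a - a') (b - b') with h | h <;> rw [h] <;> linarith
  have h4 : 0 ≤ δ * (a - a' + (b - b')) := mul_nonneg hδ (by linarith)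
  linarith

/-- the mean over the classes, by the induction hypothesis -/
theorem EE_lower {p : ℕ} {μ : ℕ → ℝ} {G : Finset ℕ} {X B : Finset ℤ} (hX : X.Nonempty)
    (hB : B.Nonempty) (i L : ℕ) {a γ : ℝ} (hγ : 0 < γ)
    (ih : ∀ X B : Finset ℤ, X.Nonempty → B.Nonempty →
      a * Sz X B - Sz X B ^ 2 / γ ≤ LG μ G X B) :
    (a - Sz X B / γ) * (Sz X B - (ent ((p : ℤ) ^ (L - i)) X + ent ((p : ℤ) ^ L) B)) ≤
      EE μ G p X B i L := by
  have cX : (0 : ℝ) < X.card := by exact_mod_cast hX.card_pos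
  have cB : (0 : ℝ) < B.card := by exact_mod_cast hB.card_pos
  set f : ℤ → ℝ := fun x => Real.log ((cls ((p : ℤ) ^ (L - i)) X x).card : ℝ) with hf
  set g : ℤ → ℝ := fun b => Real.log ((cls ((p : ℤ) ^ L) B b).card : ℝ) with hg
  have h1 : ∀ x ∈ X, ∀ b ∈ B, (a - Sz X B / γ) * (f x + g b) ≤
      LG μ G (cls ((p : ℤ) ^ (L - i)) X x) (cls ((p : ℤ) ^ L) B b) := by
    intro x hx b hb
    have hn1 := cls_pos ((p : ℤ) ^ (L - i)) hx
    have hn2 := cls_pos ((p : ℤ) ^ L) hb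
    have h2 := ih (cls ((p : ℤ) ^ (L - i)) X x) (cls ((p : ℤ) ^ L) B b) hn1 hn2
    have h3 : Sz (cls ((p : ℤ) ^ (L - i)) X x) (cls ((p : ℤ) ^ L) B b) =
        f x + g b := rfl
    rw [h3] at h2
    refine le_trans ?_ h2
    have h4 : f x + g b ≤ Sz X B := by
      unfold Sz
      apply add_le_add
      · exact Real.log_le_log (by exact_mod_cast hn1.card_pos)
          (by exact_mod_cast Finset.card_le_card (Finset.filter_subset _ _))
      · exact Real.log_le_log (by exact_mod_cast hn2.card_pos)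
          (by exact_mod_cast Finset.card_le_card (Finset.filter_subset _ _))
    have h5 : 0 ≤ f x + g b :=
      add_nonneg (Real.log_natCast_nonneg _) (Real.log_natCast_nonneg _)
    have h6 : (f x + g b) ^ 2 / γ ≤ Sz X B / γ * (f x + g b) := by
      rw [div_mul_eq_mul_div]
      apply div_le_div_of_nonneg_right _ hγ.le
      nlinarith
    rw [sub_mul]
    linarith
  have h2 := Finset.sum_le_sum fun x hx => Finset.sum_le_sum fun b hb => h1 x hx b hb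
  have h3 : ∑ x ∈ X, ∑ b ∈ B, (a - Sz X B / γ) * (f x + g b) =
      (a - Sz X B / γ) * ((∑ x ∈ X, f x) * B.card + X.card * ∑ b ∈ B, g b) := by
    simp only [← Finset.mul_sum, Finset.sum_add_distrib, Finset.sum_const, nsmul_eq_mul,
      ← Finset.sum_mul]
    ring
  have h4 : Sz X B - (ent ((p : ℤ) ^ (L - i)) X + ent ((p : ℤ) ^ L) B) =
      ((∑ x ∈ X, f x) * B.card + X.card * ∑ b ∈ B, g b) / (X.card * B.card) := by
    have e1 := mean_log_cls ((p : ℤ) ^ (L - i)) hX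
    have e2 := mean_log_cls ((p : ℤ) ^ L) hB
    unfold Sz
    rw [add_div, mul_div_mul_right _ _ cB.ne', mul_div_mul_left _ _ cX.ne', e1, e2]
    ring
  rw [h4, ← mul_div_assoc, ← h3]
  unfold EE
  exact div_le_div_of_nonneg_right h2 (by positivity)

end Pool.Agent.H85.TS
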