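import Mathlib

/-!
The one-dimensional inequality.
-/

set_option autoImplicit false

namespace Pool.Agent.H85.TS

open Finset
open scoped Pointwise

theorem card_sum_ge {I J : Finset ℕ} (hI : I.Nonempty) (hJ : J.Nonempty) :
    (I.card : ℝ) + J.card - 1 ≤ (I + J).card := by
  have h := cauchy_davenport_add_of_linearOrder_isCancelAdd hI hJ
  have h1 := hI.card_pos
  have h2 : I.card + J.card ≤ (I + J).card + 1 := by omega
  have h3 : (I.card : ℝ) + J.card ≤ (I + J).card + 1 := by exact_mod_cast h2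
  linarith

/-- the discrete inequality for minima -/
theorem sum_min (n : ℕ) : ∀ (I J : Finset ℕ) (u v G : ℕ → ℝ) (lam : ℝ), I.card + J.card ≤ n →
    (∀ i ∈ I, 0 ≤ u i ∧ u i ≤ lam) → (∀ j ∈ J, 0 ≤ v j ∧ v j ≤ lam) →
    (∃ i ∈ I, u i = lam) → (∃ j ∈ J, v j = lam) →
    (∀ i ∈ I, ∀ j ∈ J, min (u i) (v j) ≤ G (i + j)) →
    ∑ i ∈ I, u i + ∑ j ∈ J, v j - lam ≤ ∑ s ∈ I + J, G s := by
  induction n with
  | zero =>
    intro I J u v G lam hn _ _ hI _ _
    obtain ⟨i, hi, _⟩ := hI
    have := Finset.card_pos.2 ⟨i, hi⟩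
    omega
  | succ n ih =>
    intro I J u v G lam hn hu hv hIm hJm hG
    obtain ⟨i₀, hi₀, hui₀⟩ := hIm
    obtain ⟨j₀, hj₀, hvj₀⟩ := hJm
    have hI : I.Nonempty := ⟨i₀, hi₀⟩
    have hJ : J.Nonempty := ⟨j₀, hj₀⟩
    obtain ⟨i₁, hi₁, hi₁m⟩ := Finset.exists_min_image I u hI
    obtain ⟨j₁, hj₁, hj₁m⟩ := Finset.exists_min_image J v hJ
    set m : ℝ := min (u i₁) (v j₁) with hm
    have hm0 : 0 ≤ m := le_min (hu i₁ hi₁).1 (hv j₁ hj₁).1
    have hum : ∀ i ∈ I, m ≤ u i := fun i hi => (min_le_left _ _).trans (hi₁m i hi)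
    have hvm : ∀ j ∈ J, m ≤ v j := fun j hj => (min_le_right _ _).trans (hj₁m j hj)
    have hGm : ∀ s ∈ I + J, m ≤ G s := by
      intro s hs
      obtain ⟨i, hi, j, hj, rfl⟩ := Finset.mem_add.1 hs
      exact (le_min (hum i hi) (hvm j hj)).trans (hG i hi j hj)
    have hcard := card_sum_ge hI hJ
    by_cases hml : m = lam
    · have h1 : ∑ i ∈ I, u i ≤ I.card * lam := by
        rw [← nsmul_eq_mul]
        exact Finset.sum_le_card_nsmul _ _ _ fun i hi => (hu i hi).2
      have h2 : ∑ j ∈ J, v j ≤ J.card * lam := by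
        rw [← nsmul_eq_mul]
        exact Finset.sum_le_card_nsmul _ _ _ fun j hj => (hv j hj).2
      have h3 : ((I + J).card : ℝ) * m ≤ ∑ s ∈ I + J, G s := by
        rw [← nsmul_eq_mul]
        exact Finset.card_nsmul_le_sum _ _ _ hGm
      have h4 := mul_le_mul_of_nonneg_right hcard hm0
      rw [hml] at h3 h4
      nlinarith
    · have hmlt : m < lam := by
        refine lt_of_le_of_ne ?_ hml
        rw [← hui₀]; exact hum i₀ hi₀
      set I' := I.filter fun i => m < u i with hI'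
      set J' := J.filter fun j => m < v j with hJ'
      have hI'c : I'.card + J'.card ≤ n := by
        have h1 : I'.card ≤ I.card := Finset.card_filter_le _ _
        have h2 : J'.card ≤ J.card := Finset.card_filter_le _ _
        have h3 : I'.card < I.card ∨ J'.card < J.card := by
          rcases min_choice (u i₁) (v j₁) with h | h
          · left
            apply Finset.card_lt_card
            refine ⟨Finset.filter_subset _ _, fun hsub => ?_⟩
            have := (Finset.mem_filter.1 (hsub hi₁)).2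
            rw [hm, h] at this
            exact lt_irrefl _ this
          · right
            apply Finset.card_lt_card
            refine ⟨Finset.filter_subset _ _, fun hsub => ?_⟩
            have := (Finset.mem_filter.1 (hsub hj₁)).2
            rw [hm, h] at this
            exact lt_irrefl _ this
        omega
      have h1 := ih I' J' (fun i => u i - m) (fun j => v j - m) (fun s => G s - m) (lam - m) hI'c
        (fun i hi => by
          obtain ⟨h1, h2⟩ := Finset.mem_filter.1 hi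
          exact ⟨by linarith, by have := (hu i h1).2; linarith⟩)
        (fun i hi => by
          obtain ⟨h1, h2⟩ := Finset.mem_filter.1 hi
          exact ⟨by linarith, by have := (hv i h1).2; linarith⟩)
        ⟨i₀, Finset.mem_filter.2 ⟨hi₀, by rw [hui₀]; exact hmlt⟩, by rw [hui₀]⟩
        ⟨j₀, Finset.mem_filter.2 ⟨hj₀, by rw [hvj₀]; exact hmlt⟩, by rw [hvj₀]⟩
        (fun i hi j hj => by
          have := hG i (Finset.mem_filter.1 hi).1 j (Finset.mem_filter.1 hj).1
          rw [min_sub_sub_right]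
          linarith)
      have h2 : ∑ i ∈ I', (u i - m) = ∑ i ∈ I, (u i - m) := by
        apply Finset.sum_subset (Finset.filter_subset _ _)
        intro i hi hni
        have h3 : ¬ m < u i := fun h => hni (Finset.mem_filter.2 ⟨hi, h⟩)
        have h4 := hum i hi
        push Not at h3
        linarith
      have h3 : ∑ j ∈ J', (v j - m) = ∑ j ∈ J, (v j - m) := by
        apply Finset.sum_subset (Finset.filter_subset _ _)
        intro i hi hni
        have h3 : ¬ m < v i := fun h => hni (Finset.mem_filter.2 ⟨hi, h⟩)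
        have h4 := hvm i hi
        push Not at h3
        linarith
      have h4 : ∑ s ∈ I' + J', (G s - m) ≤ ∑ s ∈ I + J, (G s - m) := by
        apply Finset.sum_le_sum_of_subset_of_nonneg
          (Finset.add_subset_add (Finset.filter_subset _ _) (Finset.filter_subset _ _))
        intro s hs _
        have := hGm s hs
        linarith
      rw [h2, h3] at h1
      have h5 := h1.trans h4
      rw [Finset.sum_sub_distrib, Finset.sum_sub_distrib, Finset.sum_sub_distrib,
        Finset.sum_const, Finset.sum_const, Finset.sum_const, nsmul_eq_mul, nsmul_eq_mul,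
        nsmul_eq_mul] at h5
      have h6 := mul_le_mul_of_nonneg_right hcard hm0
      nlinarith

/-- Hölder -/
theorem holder_mass {I : Finset ℕ} {a w u : ℕ → ℝ} {β : ℝ} (hβ : 0 < β) (ha : ∀ i ∈ I, 0 ≤ a i)
    (hw : ∀ i ∈ I, 0 ≤ w i) (hu : ∀ i ∈ I, 0 ≤ u i)
    (h : ∀ i ∈ I, a i ^ (1 + β) ≤ w i * u i ^ β) :
    (∑ i ∈ I, a i) ^ (1 + β) ≤ (∑ i ∈ I, w i) * (∑ i ∈ I, u i) ^ β := by
  have hb : 0 < 1 + β := by linarith
  have hpq : (1 + β).HolderConjugate ((1 + β) / β) := by
    rw [Real.holderConjugate_iff]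
    refine ⟨by linarith, ?_⟩
    field_simp
  have h1 := Real.inner_le_Lp_mul_Lq_of_nonneg (s := I) (f := fun i => w i ^ (1 / (1 + β)))
    (g := fun i => u i ^ (β / (1 + β))) hpq
    (fun i hi => Real.rpow_nonneg (hw i hi) _) (fun i hi => Real.rpow_nonneg (hu i hi) _)
  have h2 : ∀ i ∈ I, (w i ^ (1 / (1 + β))) ^ (1 + β) = w i := by
    intro i hi
    rw [← Real.rpow_mul (hw i hi)]
    have : 1 / (1 + β) * (1 + β) = 1 := by field_simp
    rw [this, Real.rpow_one]
  have h3 : ∀ i ∈ I, (u i ^ (β / (1 + β))) ^ ((1 + β) / β) = u i := by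
    intro i hi
    rw [← Real.rpow_mul (hu i hi)]
    have : β / (1 + β) * ((1 + β) / β) = 1 := by field_simp
    rw [this, Real.rpow_one]
  rw [Finset.sum_congr rfl h2, Finset.sum_congr rfl h3] at h1
  have h4 : ∀ i ∈ I, a i ≤ w i ^ (1 / (1 + β)) * u i ^ (β / (1 + β)) := by
    intro i hi
    have h5 := Real.rpow_le_rpow (Real.rpow_nonneg (ha i hi) _) (h i hi)
      (by positivity : 0 ≤ 1 / (1 + β))
    rw [← Real.rpow_mul (ha i hi), Real.mul_rpow (hw i hi) (Real.rpow_nonneg (hu i hi) _),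
      ← Real.rpow_mul (hu i hi)] at h5
    have h6 : (1 + β) * (1 / (1 + β)) = 1 := by field_simp
    have h7 : β * (1 / (1 + β)) = β / (1 + β) := by ring
    rw [h6, Real.rpow_one, h7] at h5
    exact h5
  have hsw : 0 ≤ ∑ i ∈ I, w i := Finset.sum_nonneg hw
  have hsu : 0 ≤ ∑ i ∈ I, u i := Finset.sum_nonneg hu
  have h5 : ∑ i ∈ I, a i ≤ (∑ i ∈ I, w i) ^ (1 / (1 + β)) * (∑ i ∈ I, u i) ^ (1 / ((1 + β) / β)) :=
    (Finset.sum_le_sum h4).trans h1
  have h6 := Real.rpow_le_rpow (Finset.sum_nonneg ha) h5 hb.le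
  rw [Real.mul_rpow (Real.rpow_nonneg hsw _) (Real.rpow_nonneg hsu _), ← Real.rpow_mul hsw,
    ← Real.rpow_mul hsu] at h6
  have h7 : 1 / (1 + β) * (1 + β) = 1 := by field_simp
  have h8 : 1 / ((1 + β) / β) * (1 + β) = β := by field_simp
  rw [h7, h8, Real.rpow_one] at h6
  exact h6

/-- the trivial bound -/
theorem triv_mass {I : Finset ℕ} {a u : ℕ → ℝ} {β W : ℝ} (hβ : 0 < β) (ha : ∀ i ∈ I, 0 ≤ a i)
    (hW : 0 ≤ W) (hu : ∀ i ∈ I, 0 ≤ u i)
    (h : ∀ i ∈ I, a i ^ (1 + β) ≤ W * u i ^ β) :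
    (∑ i ∈ I, a i) ^ (1 + β) ≤ W * (∑ i ∈ I, u i ^ (β / (1 + β))) ^ (1 + β) := by
  have hb : 0 < 1 + β := by linarith
  have h4 : ∀ i ∈ I, a i ≤ W ^ (1 / (1 + β)) * u i ^ (β / (1 + β)) := by
    intro i hi
    have h5 := Real.rpow_le_rpow (Real.rpow_nonneg (ha i hi) _) (h i hi)
      (by positivity : 0 ≤ 1 / (1 + β))
    rw [← Real.rpow_mul (ha i hi), Real.mul_rpow hW (Real.rpow_nonneg (hu i hi) _),
      ← Real.rpow_mul (hu i hi)] at h5
    have h6 : (1 + β) * (1 / (1 + β)) = 1 := by field_simp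
    have h7 : β * (1 / (1 + β)) = β / (1 + β) := by ring
    rw [h6, Real.rpow_one, h7] at h5
    exact h5
  have h5 := Finset.sum_le_sum h4
  rw [← Finset.mul_sum] at h5
  have hs : 0 ≤ ∑ i ∈ I, u i ^ (β / (1 + β)) :=
    Finset.sum_nonneg fun i hi => Real.rpow_nonneg (hu i hi) _
  have h6 := Real.rpow_le_rpow (Finset.sum_nonneg ha) h5 hb.le
  rw [Real.mul_rpow (Real.rpow_nonneg hW _) hs, ← Real.rpow_mul hW] at h6
  have h7 : 1 / (1 + β) * (1 + β) = 1 := by field_simp
  rw [h7, Real.rpow_one] at h6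
  exact h6

end Pool.Agent.H85.TS
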