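import Pool.Agent.H85.TS.Absg

/-!
An asymmetric Balog–Szemerédi–Gowers theorem: the iteration.
-/

set_option autoImplicit false

namespace Pool.Agent.H85.TS

open Finset
open scoped Pointwise Classical

variable {M : Type*} [AddCommGroup M]

/-- the loss in one step -/
noncomputable def stp (ℓ K : ℝ) : ℝ := (4 * (4 * K) * ℓ) ^ 2

theorem stp_ge {ℓ K : ℝ} (hℓ : 1 ≤ ℓ) (hK : 1 ≤ K) : K ≤ stp ℓ K := by
  unfold stp
  have h1 : K * ℓ ≥ K := by nlinarith
  have h2 : 1 ≤ K * ℓ := by linarith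
  nlinarith [mul_self_nonneg (K * ℓ)]

theorem stp_iter_ge {ℓ : ℝ} (hℓ : 1 ≤ ℓ) (T : ℕ) : ∀ K : ℝ, 1 ≤ K → K ≤ (stp ℓ)^[T] K := by
  induction T with
  | zero => intro K _; simp
  | succ T ih =>
    intro K hK
    rw [Function.iterate_succ_apply]
    have h1 := stp_ge hℓ hK
    exact h1.trans (ih _ (hK.trans h1))

theorem stp_mono {ℓ : ℝ} (hℓ : 0 ≤ ℓ) {K K' : ℝ} (hK : 0 ≤ K) (h : K ≤ K') :
    stp ℓ K ≤ stp ℓ K' := by
  unfold stp
  exact pow_le_pow_left₀ (by positivity) (by gcongr) 2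

/-- the iteration -/
theorem iter (U : Finset M) (hU : U.Nonempty) (Γ : AddSubgroup M) {κ G ℓ Kf : ℝ} (hκ : 1 ≤ κ)
    (hG : 1 ≤ G) (hℓ1 : 1 ≤ ℓ) (hKf : 1 ≤ Kf) (hκG : G * (1024 * Kf ^ 3 * ℓ ^ 2) ≤ κ)
    (hℓ : ∀ R : Finset M, (R.card : ℝ) ≤ Kf * U.card → (Nat.log 2 R.card : ℝ) + 1 ≤ ℓ) :
    ∀ (T : ℕ) (V : Finset M) (K : ℝ), V.Nonempty → (∀ x ∈ V, x ∈ Γ) → 1 ≤ K →
      (stp ℓ)^[T] K ≤ Kf → Kf * U.card < G ^ T * V.card →
      (U.card : ℝ) * (V.card : ℝ) ^ 2 ≤ K * U.addEnergy V →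
      ∃ H : Finset M, H.Nonempty ∧ (∀ x ∈ H, x ∈ Γ) ∧
        ((H - H).card : ℝ) ≤ 2 ^ 22 * κ ^ 10 * H.card ∧
        (V.card : ℝ) ≤ 32 * Kf * κ * H.card ∧
        (U.card : ℝ) * (H.card : ℝ) ^ 2 ≤ 4 * Kf * (32 * Kf * κ) ^ 2 * U.addEnergy H ∧
        ∃ y : M, (V.card : ℝ) ≤
          (64 * Kf ^ 2 * ℓ) ^ T * (32 * Kf * κ) * (V ∩ H.image (fun h => y + h)).card := by
  have cU : (0 : ℝ) < U.card := by exact_mod_cast hU.card_pos
  have hbase : ∀ (V : Finset M) (K : ℝ), V.Nonempty → 1 ≤ K → K ≤ Kf →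
      (U.card : ℝ) * (V.card : ℝ) ^ 2 ≤ K * U.addEnergy V → (V.card : ℝ) ≤ Kf * U.card := by
    intro V K hV hK hKKf hE
    have cV : (0 : ℝ) < V.card := by exact_mod_cast hV.card_pos
    have h1 := en_le_left U V
    have h2 : (U.card : ℝ) * V.card * V.card ≤ (U.card : ℝ) * V.card * (K * U.card) := by
      calc (U.card : ℝ) * V.card * V.card = U.card * (V.card : ℝ) ^ 2 := by ring
        _ ≤ K * U.addEnergy V := hE
        _ ≤ K * ((U.card : ℝ) ^ 2 * V.card) := mul_le_mul_of_nonneg_left h1 (by linarith)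
        _ = _ := by ring
    have h3 := le_of_mul_le_mul_left h2 (by positivity)
    exact h3.trans (mul_le_mul_of_nonneg_right hKKf cU.le)
  intro T
  induction T with
  | zero =>
    intro V K hV _ hK hKT hVbig hE
    exfalso
    simp only [Function.iterate_zero, id_eq] at hKT
    have h1 := hbase V K hV hK hKT hE
    rw [pow_zero, one_mul] at hVbig
    linarith
  | succ T ih =>
    intro V K hV hVΓ hK hKT hVbig hE
    have cV : (0 : ℝ) < V.card := by exact_mod_cast hV.card_pos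
    have hKKf : K ≤ Kf := (stp_iter_ge hℓ1 (T + 1) K hK).trans hKT
    have hbig1 : 1 ≤ (64 * Kf ^ 2 * ℓ) := by nlinarith [mul_self_nonneg Kf]
    rcases part U V hU hV hK hκ hE with ⟨R, hRV, hRn, hR1, hR2, hR3⟩ | ⟨H, hHV, hHn, h1, h2, h3⟩
    · have cR : (0 : ℝ) < R.card := by exact_mod_cast hRn.card_pos
      have hRle : (R.card : ℝ) ≤ V.card := by exact_mod_cast card_le_card hRV
      have hVle := hbase V K hV hK hKKf hE
      obtain ⟨D, hDR, hDn, hD1, hD2, hD3⟩ := incr U R hU hRn (K := 4 * K) (by linarith) hκ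
        (hℓ R (hRle.trans hVle)) hR2 hR3
      have cD : (0 : ℝ) < D.card := by exact_mod_cast hDn.card_pos
      -- growth
      have hgrow : G * V.card ≤ D.card := by
        have e1 : κ * V.card ≤ 1024 * K ^ 3 * ℓ ^ 2 * D.card := by
          calc κ * V.card ≤ κ * (4 * K * R.card) := mul_le_mul_of_nonneg_left hR1 (by linarith)
            _ = 4 * K * (κ * R.card) := by ring
            _ ≤ 4 * K * (16 * (4 * K) ^ 2 * ℓ ^ 2 * D.card) :=
                mul_le_mul_of_nonneg_left hD2 (by linarith)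
            _ = _ := by ring
        have e2 : 1024 * K ^ 3 * ℓ ^ 2 ≤ 1024 * Kf ^ 3 * ℓ ^ 2 := by gcongr
        have e3 : 0 < 1024 * Kf ^ 3 * ℓ ^ 2 := by positivity
        have e4 : (1024 * Kf ^ 3 * ℓ ^ 2) * (G * V.card) ≤ (1024 * Kf ^ 3 * ℓ ^ 2) * D.card := by
          calc (1024 * Kf ^ 3 * ℓ ^ 2) * (G * V.card) = G * (1024 * Kf ^ 3 * ℓ ^ 2) * V.card := by
                ring
            _ ≤ κ * V.card := mul_le_mul_of_nonneg_right hκG cV.le
            _ ≤ 1024 * K ^ 3 * ℓ ^ 2 * D.card := e1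
            _ ≤ _ := mul_le_mul_of_nonneg_right e2 cD.le
        exact le_of_mul_le_mul_left e4 e3
      have hVD : (V.card : ℝ) ≤ D.card := by nlinarith
      have hDΓ : ∀ x ∈ D, x ∈ Γ := by
        intro x hx
        obtain ⟨a, ha, b, hb, rfl⟩ := mem_sub.1 (hDR hx)
        exact Γ.sub_mem (hVΓ a (hRV ha)) (hVΓ b (hRV hb))
      obtain ⟨H, hHn, hHΓ, hH1, hH2, hH3, y, hy⟩ := ih D (stp ℓ K) hDn hDΓ
        (hK.trans (stp_ge hℓ1 hK)) (by rwa [Function.iterate_succ_apply] at hKT) (by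
          calc Kf * U.card < G ^ (T + 1) * V.card := hVbig
            _ = G ^ T * (G * V.card) := by ring
            _ ≤ G ^ T * D.card := mul_le_mul_of_nonneg_left hgrow (by positivity)) hD1
      refine ⟨H, hHn, hHΓ, hH1, hVD.trans hH2, hH3, ?_⟩
      obtain ⟨y', hy', hy''⟩ := hD3 (H.image fun h => y + h)
        ((64 * Kf ^ 2 * ℓ) ^ T * (32 * Kf * κ)) (by positivity) hy
      refine ⟨y' + y, ?_⟩
      have himg : (H.image fun h => y + h).image (fun h => y' + h) =
          H.image fun h => y' + y + h := by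
        rw [image_image]
        congr 1
        funext h
        simp only [Function.comp_apply]
        rw [add_assoc]
      rw [himg] at hy''
      have hsub : ((R ∩ H.image fun h => y' + y + h).card : ℝ) ≤
          (V ∩ H.image fun h => y' + y + h).card := by
        exact_mod_cast card_le_card (inter_subset_inter_right hRV)
      set c : ℝ := (64 * Kf ^ 2 * ℓ) ^ T * (32 * Kf * κ) with hc
      have hc0 : 0 < c := by positivity
      calc (V.card : ℝ) ≤ 4 * K * R.card := hR1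
        _ ≤ 4 * K * (4 * (4 * K) * ℓ * c * (V ∩ H.image fun h => y' + y + h).card) := by
            apply mul_le_mul_of_nonneg_left _ (by linarith)
            exact hy''.trans (mul_le_mul_of_nonneg_left hsub (by positivity))
        _ = 64 * K ^ 2 * ℓ * c * (V ∩ H.image fun h => y' + y + h).card := by ring
        _ ≤ 64 * Kf ^ 2 * ℓ * c * (V ∩ H.image fun h => y' + y + h).card := by gcongr
        _ = _ := by rw [hc]; ring
    · have cH : (0 : ℝ) < H.card := by exact_mod_cast hHn.card_pos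
      have hH2 : (V.card : ℝ) ≤ 32 * Kf * κ * H.card := by
        refine h2.trans ?_
        gcongr
      refine ⟨H, hHn, fun x hx => hVΓ x (hHV hx), h1, hH2, ?_, 0, ?_⟩
      · refine h3.trans ?_
        gcongr
      · have himg : (H.image fun h => (0 : M) + h) = H := by simp
        rw [himg, inter_eq_right.2 hHV]
        have h5 : 1 ≤ (64 * Kf ^ 2 * ℓ) ^ (T + 1) := one_le_pow₀ hbig1
        have h6 : 0 ≤ 32 * Kf * κ * H.card := by positivity
        calc (V.card : ℝ) ≤ 1 * (32 * Kf * κ * H.card) := by linarith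
          _ ≤ (64 * Kf ^ 2 * ℓ) ^ (T + 1) * (32 * Kf * κ * H.card) :=
              mul_le_mul_of_nonneg_right h5 h6
          _ = _ := by ring

end Pool.Agent.H85.TS
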