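import Pool.Agent.H85.TS.CaseA
import Pool.Agent.H85.TS.CaseB

/-!
The main theorem.
-/

set_option autoImplicit false

namespace Pool.Agent.H85.TS

open Finset
open scoped Pointwise

/-- the sumset of a set of integers and a set of complex numbers -/
noncomputable def sums (A : Finset ℤ) (B : Finset ℂ) : Finset ℂ :=
  (A ×ˢ B).image fun s => (s.1 : ℂ) + s.2

/-- the product set of a set of integers and a set of complex numbers -/
noncomputable def prods (A : Finset ℤ) (P : Finset ℂ) : Finset ℂ :=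
  (A ×ˢ P).image fun s => (s.1 : ℂ) * s.2

/-- the multiplicative energy -/
noncomputable def mener (A : Finset ℤ) (P : Finset ℂ) : ℕ :=
  (((A ×ˢ A) ×ˢ (P ×ˢ P)).filter fun t => (t.1.1 : ℂ) * t.2.1 = (t.1.2 : ℂ) * t.2.2).card

theorem mener_eq (A : Finset ℤ) (P : Finset ℂ) :
    (A.image fun a : ℤ => (a : ℂ)).mulEnergy P = mener A P := by
  unfold Finset.mulEnergy mener
  symm
  refine Finset.card_bij (fun x _ => ((((x.1.1 : ℤ) : ℂ), ((x.1.2 : ℤ) : ℂ)), x.2)) ?_ ?_ ?_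
  · rintro ⟨⟨a, a'⟩, ⟨p, p'⟩⟩ hx
    simp only [mem_filter, mem_product] at hx ⊢
    obtain ⟨⟨⟨ha, ha'⟩, hp, hp'⟩, hE⟩ := hx
    exact ⟨⟨⟨mem_image_of_mem _ ha, mem_image_of_mem _ ha'⟩, hp, hp'⟩, hE⟩
  · rintro ⟨⟨a, a'⟩, ⟨p, p'⟩⟩ _ ⟨⟨b, b'⟩, ⟨q, q'⟩⟩ _ hxy
    simp only [Prod.mk.injEq, Int.cast_inj] at hxy ⊢
    exact hxy
  · rintro ⟨⟨u, u'⟩, ⟨v, v'⟩⟩ hx
    simp only [mem_filter, mem_product] at hx
    obtain ⟨⟨⟨hu, hu'⟩, hv, hv'⟩, hE⟩ := hx
    obtain ⟨a, ha, rfl⟩ := mem_image.1 hu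
    obtain ⟨a', ha', rfl⟩ := mem_image.1 hu'
    refine ⟨((a, a'), (v, v')), ?_, rfl⟩
    simp only [mem_filter, mem_product]
    exact ⟨⟨⟨ha, ha'⟩, hv, hv'⟩, hE⟩

theorem prods_eq (A : Finset ℤ) (P : Finset ℂ) :
    prods A P = (A.image fun a : ℤ => (a : ℂ)) * P := by
  ext z
  simp only [prods, mem_image, mem_product, mem_mul, Prod.exists]
  constructor
  · rintro ⟨a, p, ⟨ha, hp⟩, rfl⟩
    exact ⟨a, ⟨a, ha, rfl⟩, p, hp, rfl⟩
  · rintro ⟨_, ⟨a, ha, rfl⟩, p, hp, rfl⟩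
    exact ⟨a, p, ⟨ha, hp⟩, rfl⟩

/-- Cauchy–Schwarz -/
theorem cs_mener (A : Finset ℤ) (P : Finset ℂ) :
    ((A.card : ℝ) * P.card) ^ 2 ≤ (prods A P).card * (mener A P : ℝ) := by
  have h1 := Finset.card_sq_le_card_mul_mulEnergy (A.image fun a : ℤ => (a : ℂ)) P
    (prods A P)
  rw [mener_eq] at h1
  have h2 : ((A.image fun a : ℤ => (a : ℂ)) ×ˢ P).filter (fun x => x.1 * x.2 ∈ prods A P) =
      (A.image fun a : ℤ => (a : ℂ)) ×ˢ P := by
    apply filter_true_of_mem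
    rintro ⟨x, y⟩ hx
    rw [mem_product] at hx
    rw [prods_eq]
    exact mul_mem_mul hx.1 hx.2
  rw [h2, card_product, card_image_of_injective _ (Int.cast_injective (α := ℂ))] at h1
  have h3 : (((A.card * P.card) ^ 2 : ℕ) : ℝ) ≤ (((prods A P).card * mener A P : ℕ) : ℝ) := by
    exact_mod_cast h1
  push_cast at h3
  exact h3

theorem mainE (ε θ D : ℝ) (hε : 0 < ε) (hε1 : ε ≤ 1) (hθ : 0 < θ) :
    ∃ δ c : ℝ, 0 < δ ∧ 0 < c ∧
      ∀ A : Finset ℤ, A.Nonempty → (0 : ℤ) ∉ A → ∀ P : Finset ℂ, (0 : ℂ) ∉ P →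
        (A.card : ℝ) ^ θ ≤ P.card → (P.card : ℝ) ≤ (A.card : ℝ) ^ D →
        (A.card : ℝ) * P.card * min (A.card : ℝ) P.card ≤ (A.card : ℝ) ^ δ * mener A P →
        ∀ B : Finset ℂ, B.Nonempty →
          c * ((A.card : ℝ) * B.card) ^ (1 - ε) ≤ (sums A B).card := by
  obtain ⟨k, hk⟩ := exists_nat_ge (1 / ε)
  have hk0 : (0 : ℝ) < k := lt_of_lt_of_le (by positivity) hk
  have hk1 : 1 ≤ k := by exact_mod_cast hk0
  have hk' : 1 / (k : ℝ) ≤ ε := by
    rw [div_le_iff₀ hk0]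
    rw [div_le_iff₀ hε] at hk
    linarith
  have hk1' : (1 : ℝ) ≤ k := by exact_mod_cast hk1
  set ε' : ℝ := ε / k with hε'
  have hε'0 : 0 < ε' := by positivity
  have hε'1 : ε' ≤ 1 := by rw [hε', div_le_one hk0]; linarith
  have hkε' : k * ε' = ε := by rw [hε']; field_simp
  obtain ⟨δ₁, Λ₁, hδ₁, hΛ₁, h1⟩ := caseOne ε' θ hε'0 hε'1 hθ
  obtain ⟨δ₂, Λ₂, hδ₂, hΛ₂, h2⟩ := caseTwo ε' (max D 1) hε'0 hε'1 (le_max_right _ _)
  refine ⟨min δ₁ δ₂, Real.exp (-(Λ₁ + Λ₂)), by positivity, Real.exp_pos _, ?_⟩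
  intro A hA hA0 P hP0 hAP hPA hE B hB
  have cA : (0 : ℝ) < A.card := by exact_mod_cast hA.card_pos
  have cA1 : (1 : ℝ) ≤ A.card := by exact_mod_cast hA.card_pos
  have cB : (0 : ℝ) < B.card := by exact_mod_cast hB.card_pos
  have hPn : P.Nonempty := by
    rw [Finset.nonempty_iff_ne_empty]
    rintro rfl
    rw [card_empty, Nat.cast_zero] at hAP
    have : 0 < (A.card : ℝ) ^ θ := by positivity
    linarith
  have hmono : ∀ x y : ℝ, x ≤ y → (A.card : ℝ) ^ x ≤ (A.card : ℝ) ^ y := fun x y h =>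
    Real.rpow_le_rpow_of_exponent_le cA1 h
  have hint : ∀ B : Finset ℤ, B.Nonempty →
      (1 - ε') * (Real.log A.card + Real.log B.card) - (Λ₁ + Λ₂) ≤
        Real.log ((A + B).card : ℝ) := by
    intro B hB
    rcases le_total (P.card : ℝ) A.card with hle | hle
    · have h3 := h1 A P hA0 hA hP0 hAP (by
        rw [mener_eq]
        rw [min_eq_right hle] at hE
        calc (A.card : ℝ) * (P.card : ℝ) ^ 2 = (A.card : ℝ) * P.card * P.card := by ring
          _ ≤ _ := hE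
          _ ≤ _ := mul_le_mul_of_nonneg_right (hmono _ _ (min_le_left _ _))
              (Nat.cast_nonneg _)) B hB
      linarith
    · have h3 := h2 A P hA0 hA hP0 hPn (hPA.trans (hmono _ _ (le_max_left _ _))) (by
        rw [mener_eq]
        rw [min_eq_left hle] at hE
        calc (A.card : ℝ) ^ 2 * (P.card : ℝ) = (A.card : ℝ) * P.card * A.card := by ring
          _ ≤ _ := hE
          _ ≤ _ := mul_le_mul_of_nonneg_right (hmono _ _ (min_le_right _ _))
              (Nat.cast_nonneg _)) B hB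
      linarith
  obtain ⟨-, hext⟩ := ext_complex hA k hk1 ε' (Λ₁ + Λ₂) hε'0.le (by linarith) hint
  have h4 := hext B hB
  rw [hkε'] at h4
  change _ ≤ Real.log ((sums A B).card : ℝ) at h4
  have hS : (sums A B).Nonempty := (hA.product hB).image _
  have cS : (0 : ℝ) < (sums A B).card := by exact_mod_cast hS.card_pos
  have hb0 : 0 ≤ Real.log B.card := Real.log_natCast_nonneg _
  have h5 : (1 - ε) * Real.log B.card ≤ (1 - 1 / k) * Real.log B.card :=
    mul_le_mul_of_nonneg_right (by linarith) hb0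
  rw [Real.rpow_def_of_pos (by positivity), Real.log_mul cA.ne' cB.ne', ← Real.exp_add]
  calc Real.exp (-(Λ₁ + Λ₂) + (Real.log A.card + Real.log B.card) * (1 - ε))
      ≤ Real.exp (Real.log ((sums A B).card : ℝ)) := by
        apply Real.exp_le_exp.2
        linarith
    _ = _ := Real.exp_log cS

theorem mainP (ε θ D : ℝ) (hε : 0 < ε) (hε1 : ε ≤ 1) (hθ : 0 < θ) :
    ∃ δ c : ℝ, 0 < δ ∧ 0 < c ∧
      ∀ A : Finset ℤ, A.Nonempty → (0 : ℤ) ∉ A → ∀ P : Finset ℂ, (0 : ℂ) ∉ P →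
        (A.card : ℝ) ^ θ ≤ P.card → (P.card : ℝ) ≤ (A.card : ℝ) ^ D →
        (((A.card : ℝ) * P.card * min (A.card : ℝ) P.card ≤ (A.card : ℝ) ^ δ * mener A P) ∨
          ((prods A P).card : ℝ) ≤ (A.card : ℝ) ^ δ * max (A.card : ℝ) P.card) →
        ∀ B : Finset ℂ, B.Nonempty →
          c * ((A.card : ℝ) * B.card) ^ (1 - ε) ≤ (sums A B).card := by
  obtain ⟨δ, c, hδ, hc, h⟩ := mainE ε θ D hε hε1 hθ
  refine ⟨δ, c, hδ, hc, ?_⟩
  intro A hA hA0 P hP0 hAP hPA hor B hB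
  refine h A hA hA0 P hP0 hAP hPA ?_ B hB
  rcases hor with hE | hAPc
  · exact hE
  · have cA : (0 : ℝ) < A.card := by exact_mod_cast hA.card_pos
    have cP : (0 : ℝ) < P.card := by
      refine lt_of_lt_of_le ?_ hAP
      positivity
    have h1 := cs_mener A P
    have h2 : ((A.card : ℝ) * P.card) ^ 2 ≤
        (A.card : ℝ) ^ δ * max (A.card : ℝ) P.card * mener A P :=
      h1.trans (mul_le_mul_of_nonneg_right hAPc (Nat.cast_nonneg _))
    have h3 : ((A.card : ℝ) * P.card) = max (A.card : ℝ) P.card * min (A.card : ℝ) P.card :=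
      (max_mul_min _ _).symm
    have h4 : 0 < max (A.card : ℝ) P.card := lt_max_of_lt_left cA
    have h5 : max (A.card : ℝ) P.card * ((A.card : ℝ) * P.card * min (A.card : ℝ) P.card) ≤
        max (A.card : ℝ) P.card * ((A.card : ℝ) ^ δ * mener A P) := by
      calc max (A.card : ℝ) P.card * ((A.card : ℝ) * P.card * min (A.card : ℝ) P.card)
          = (A.card : ℝ) * P.card * (max (A.card : ℝ) P.card * min (A.card : ℝ) P.card) := by ring
        _ = ((A.card : ℝ) * P.card) ^ 2 := by rw [← h3]; ring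
        _ ≤ _ := h2
        _ = _ := by ring
    exact le_of_mul_le_mul_left h5 h4

/-- the contrapositive -/
theorem mainC (η θ D : ℝ) (hη : 0 < η) (hθ : 0 < θ) :
    ∃ δ N : ℝ, 0 < δ ∧
      ∀ A : Finset ℤ, N ≤ A.card → (0 : ℤ) ∉ A →
        ∀ B : Finset ℂ, B.Nonempty → ((sums A B).card : ℝ) ≤ ((A.card : ℝ) * B.card) ^ (1 - η) →
        ∀ P : Finset ℂ, (0 : ℂ) ∉ P → (A.card : ℝ) ^ θ ≤ P.card →
          (P.card : ℝ) ≤ (A.card : ℝ) ^ D →
          (A.card : ℝ) ^ δ * mener A P < (A.card : ℝ) * P.card * min (A.card : ℝ) P.card ∧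
            (A.card : ℝ) ^ δ * max (A.card : ℝ) P.card < (prods A P).card := by
  set η' : ℝ := min η 1 with hη'
  have hη'0 : 0 < η' := by positivity
  obtain ⟨δ, c, hδ, hc, h⟩ := mainP (η' / 2) θ D (by positivity)
    (by have := min_le_right η 1; linarith) hθ
  refine ⟨δ, c⁻¹ ^ (2 / η') + 2, hδ, ?_⟩
  intro A hN hA0 B hB hAB P hP0 hAP hPA
  have hcc : 0 ≤ c⁻¹ ^ (2 / η') := by positivity
  have cA : (1 : ℝ) < A.card := by linarith
  have cA0 : (0 : ℝ) < A.card := by linarith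
  have hA : A.Nonempty := by
    rw [← card_pos]
    exact_mod_cast cA0
  have cB1 : (1 : ℝ) ≤ B.card := by exact_mod_cast hB.card_pos
  have key : ¬ (((A.card : ℝ) * P.card * min (A.card : ℝ) P.card ≤
      (A.card : ℝ) ^ δ * mener A P) ∨
          ((prods A P).card : ℝ) ≤ (A.card : ℝ) ^ δ * max (A.card : ℝ) P.card) := by
    intro hor
    have h1 := h A hA hA0 P hP0 hAP hPA hor B hB
    set x : ℝ := (A.card : ℝ) * B.card with hx
    have hxA : (A.card : ℝ) ≤ x := by nlinarith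
    have hx0 : 0 < x := by linarith
    have hx1 : 1 ≤ x := by linarith
    have h2 : c * x ^ (1 - η' / 2) ≤ x ^ (1 - η') := by
      refine h1.trans (hAB.trans ?_)
      apply Real.rpow_le_rpow_of_exponent_le hx1
      have := min_le_left η 1
      linarith
    have h3 : x ^ (1 - η' / 2) = x ^ (1 - η') * x ^ (η' / 2) := by
      rw [← Real.rpow_add hx0]; congr 1; ring
    rw [h3] at h2
    have h4 : x ^ (1 - η') * (c * x ^ (η' / 2)) ≤ x ^ (1 - η') * 1 := by linarith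
    have h5 := le_of_mul_le_mul_left h4 (by positivity)
    have h6 : x ^ (η' / 2) ≤ c⁻¹ := by
      rw [le_inv_comm₀ (by positivity) hc, ← one_div, le_div_iff₀ (by positivity)]
      exact h5
    have h7 := Real.rpow_le_rpow (by positivity) h6 (by positivity : 0 ≤ 2 / η')
    rw [← Real.rpow_mul hx0.le, show η' / 2 * (2 / η') = 1 by field_simp, Real.rpow_one] at h7
    linarith
  push Not at key
  exact key

/-- symmetries -/
theorem mainS (η θ : ℝ) (hη : 0 < η) (hθ : 0 < θ) :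
    ∃ δ N : ℝ, 0 < δ ∧
      ∀ A : Finset ℤ, N ≤ A.card → (0 : ℤ) ∉ A →
        ∀ B : Finset ℂ, B.Nonempty → ((sums A B).card : ℝ) ≤ ((A.card : ℝ) * B.card) ^ (1 - η) →
        ∀ X : Finset ℂ, (∀ x ∈ X, (A.card : ℝ) ^ (1 - δ) ≤
            (A.filter fun a : ℤ => ∃ b ∈ A, (a : ℂ) = x * b).card) →
          (X.card : ℝ) ≤ (A.card : ℝ) ^ θ := by
  classical
  set θ' : ℝ := min θ 1 / 2 with hθ'
  have hθ'0 : 0 < θ' := by positivity
  have hθ'1 : θ' ≤ 1 / 2 := by
    have := min_le_right θ 1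
    linarith
  have hθ'2 : θ' ≤ θ / 2 := by
    have := min_le_left θ 1
    linarith
  obtain ⟨δ, N, hδ, h⟩ := mainC η θ' 1 hη hθ'0
  refine ⟨δ / 2, max N (2 ^ (2 / θ)  + 4), by positivity, ?_⟩
  intro A hN hA0 B hB hAB X hX
  by_contra hcon
  push Not at hcon
  have hN1 : N ≤ A.card := (le_max_left _ _).trans hN
  have hN2 : 2 ^ (2 / θ) + 4 ≤ (A.card : ℝ) := (le_max_right _ _).trans hN
  have hpow0 : (0 : ℝ) ≤ 2 ^ (2 / θ) := by positivity
  have cA4 : (4 : ℝ) ≤ A.card := by linarith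
  have cA0 : (0 : ℝ) < A.card := by linarith
  have cA1 : (1 : ℝ) ≤ A.card := by linarith
  have h2θ : 2 ≤ (A.card : ℝ) ^ (θ / 2) := by
    have h1 : (2 : ℝ) ^ (2 / θ) ≤ A.card := by linarith
    have h2 := Real.rpow_le_rpow (by positivity) h1 (by positivity : 0 ≤ θ / 2)
    rw [← Real.rpow_mul (by norm_num), show 2 / θ * (θ / 2) = 1 by field_simp,
      Real.rpow_one] at h2
    exact h2
  -- a subset of the right size
  set n : ℕ := ⌈(A.card : ℝ) ^ θ'⌉₊ with hn
  have hn1 : (A.card : ℝ) ^ θ' ≤ n := Nat.le_ceil _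
  have hn2 : (n : ℝ) ≤ (A.card : ℝ) ^ θ' + 1 := (Nat.ceil_lt_add_one (by positivity)).le
  have hge1 : 1 ≤ (A.card : ℝ) ^ θ' := Real.one_le_rpow cA1 hθ'0.le
  have hnX : n ≤ X.card := by
    have h1 : (A.card : ℝ) ^ θ' + 1 ≤ (A.card : ℝ) ^ θ := by
      have h2 : (A.card : ℝ) ^ θ' ≤ (A.card : ℝ) ^ (θ / 2) :=
        Real.rpow_le_rpow_of_exponent_le cA1 hθ'2
      have h3 : (A.card : ℝ) ^ θ = (A.card : ℝ) ^ (θ / 2) * (A.card : ℝ) ^ (θ / 2) := by
        rw [← Real.rpow_add cA0]; congr 1; ring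
      rw [h3]
      nlinarith
    have h2 : (n : ℝ) ≤ X.card := by linarith
    exact_mod_cast h2
  obtain ⟨P, hPX, hPn⟩ := exists_subset_card_eq hnX
  have hPc : (P.card : ℝ) = n := by rw [hPn]
  have hP0 : (0 : ℂ) ∉ P := by
    intro h0
    have h1 := hX 0 (hPX h0)
    have h2 : (A.filter fun a : ℤ => ∃ b ∈ A, (a : ℂ) = 0 * b) = ∅ := by
      rw [filter_eq_empty_iff]
      rintro a ha ⟨b, _, hab⟩
      rw [zero_mul] at hab
      have : a = 0 := by exact_mod_cast hab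
      exact hA0 (this ▸ ha)
    rw [h2, card_empty, Nat.cast_zero] at h1
    have : 0 < (A.card : ℝ) ^ (1 - δ / 2) := by positivity
    linarith
  have cP0 : (0 : ℝ) < P.card := by rw [hPc]; linarith
  have hPle : (P.card : ℝ) ≤ A.card := by
    rw [hPc]
    have h1 : (A.card : ℝ) ^ θ' ≤ (A.card : ℝ) ^ (1 / 2 : ℝ) :=
      Real.rpow_le_rpow_of_exponent_le cA1 hθ'1
    have h2 : (A.card : ℝ) ^ (1 / 2 : ℝ) * (A.card : ℝ) ^ (1 / 2 : ℝ) = A.card := by
      rw [← Real.rpow_add cA0]; norm_num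
    have h3 : 1 ≤ (A.card : ℝ) ^ (1 / 2 : ℝ) := Real.one_le_rpow cA1 (by norm_num)
    have h4 : 2 ≤ (A.card : ℝ) ^ (1 / 2 : ℝ) := by
      by_contra h5
      push Not at h5
      nlinarith
    nlinarith
  obtain ⟨h1, -⟩ := h A hN1 hA0 B hB hAB P hP0 (by rw [hPc]; exact hn1)
    (by rw [Real.rpow_one]; exact hPle)
  rw [min_eq_right hPle] at h1
  -- the energy is large
  have h2 := Finset.card_sq_le_card_mul_mulEnergy (A.image fun a : ℤ => (a : ℂ)) P
    (A.image fun a : ℤ => (a : ℂ))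
  rw [mener_eq, card_image_of_injective _ (Int.cast_injective (α := ℂ))] at h2
  set F : Finset (ℂ × ℂ) := ((A.image fun a : ℤ => (a : ℂ)) ×ˢ P).filter fun x => x.1 * x.2 ∈
        A.image fun a : ℤ => (a : ℂ) with hF
  have h3 : (A.card : ℝ) ^ (1 - δ / 2) * P.card ≤ (F.card : ℝ) := by
    have hfib : F.card = ∑ x ∈ P, (F.filter fun y => y.2 = x).card := by
      apply Finset.card_eq_sum_card_fiberwise
      intro y hy
      exact (mem_product.1 (mem_filter.1 hy).1).2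
    have hfib' : (F.card : ℝ) = ∑ x ∈ P, ((F.filter fun y => y.2 = x).card : ℝ) := by
      exact_mod_cast hfib
    rw [hfib']
    calc (A.card : ℝ) ^ (1 - δ / 2) * P.card = ∑ _x ∈ P, (A.card : ℝ) ^ (1 - δ / 2) := by
          rw [sum_const, nsmul_eq_mul, mul_comm]
      _ ≤ _ := by
          apply sum_le_sum
          intro x hx
          refine (hX x (hPX hx)).trans ?_
          have hx0 : x ≠ 0 := fun h => hP0 (h ▸ hx)
          have h4 : (A.filter fun a : ℤ => ∃ b ∈ A, (a : ℂ) = x * b).card ≤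
              (F.filter fun y => y.2 = x).card := by
            refine card_le_card_of_injOn (fun a : ℤ => (((a : ℂ) / x, x) : ℂ × ℂ)) ?_ ?_
            · intro a ha
              obtain ⟨haA, b, hb, hab⟩ := mem_filter.1 ha
              have e1 : (a : ℂ) / x = b := by rw [hab]; field_simp
              refine mem_filter.2 ⟨mem_filter.2 ⟨mem_product.2 ⟨?_, hx⟩, ?_⟩, rfl⟩
              · simp only
                rw [e1]; exact mem_image_of_mem _ hb
              · simp only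
                rw [div_mul_cancel₀ _ hx0]; exact mem_image_of_mem _ haA
            · intro a _ b _ hab
              simp only [Prod.mk.injEq, and_true] at hab
              have := (div_left_inj' hx0).1 hab
              exact_mod_cast this
          exact_mod_cast h4
  have h4 : ((A.card : ℝ) ^ (1 - δ / 2) * P.card) ^ 2 ≤ A.card * mener A P := by
    refine (pow_le_pow_left₀ (by positivity) h3 2).trans ?_
    exact_mod_cast h2
  have h5 : ((A.card : ℝ) ^ (1 - δ / 2) * P.card) ^ 2 * (A.card : ℝ) ^ δ =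
      (A.card : ℝ) * (A.card * P.card * P.card) := by
    have e1 : (A.card : ℝ) ^ (1 - δ / 2) * (A.card : ℝ) ^ (1 - δ / 2) * (A.card : ℝ) ^ δ =
        A.card * A.card := by
      rw [← Real.rpow_add cA0, ← Real.rpow_add cA0,
        show 1 - δ / 2 + (1 - δ / 2) + δ = 1 + 1 by ring, Real.rpow_add cA0, Real.rpow_one]
    calc _ = (A.card : ℝ) ^ (1 - δ / 2) * (A.card : ℝ) ^ (1 - δ / 2) * (A.card : ℝ) ^ δ *
          (P.card * P.card) := by ring
      _ = _ := by rw [e1]; ring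
  have h6 := mul_le_mul_of_nonneg_right h4 (by positivity : 0 ≤ (A.card : ℝ) ^ δ)
  rw [h5] at h6
  have h7 : (A.card : ℝ) * (A.card * P.card * P.card) ≤
      (A.card : ℝ) * ((A.card : ℝ) ^ δ * mener A P) := by linarith
  have h8 := le_of_mul_le_mul_left h7 cA0
  linarith

end Pool.Agent.H85.TS
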