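import Pool.Agent.H85.TS.Main

/-!
The main theorem under three hypotheses.
-/

set_option autoImplicit false

namespace Pool.Agent.H85.TS

open Finset
open scoped Pointwise

/-- the part of `A` in the dilate `x A` -/
noncomputable def meet (A : Finset ℤ) (x : ℂ) : Finset ℂ :=
  (A.image fun a : ℤ => (a : ℂ)) ∩ (A.image fun a : ℤ => x * (a : ℂ))

theorem energy_of_meet {A : Finset ℤ} (hA0 : (0 : ℤ) ∉ A) {P : Finset ℂ} (hP0 : (0 : ℂ) ∉ P)
    {m : ℝ} (hm : 0 ≤ m) (h : ∀ x ∈ P, m ≤ (meet A x).card) :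
    (m * P.card) ^ 2 ≤ A.card * (mener A P : ℝ) := by
  have h2 := Finset.card_sq_le_card_mul_mulEnergy (A.image fun a : ℤ => (a : ℂ)) P
    (A.image fun a : ℤ => (a : ℂ))
  rw [mener_eq, card_image_of_injective _ (Int.cast_injective (α := ℂ))] at h2
  set F : Finset (ℂ × ℂ) := ((A.image fun a : ℤ => (a : ℂ)) ×ˢ P).filter fun x => x.1 * x.2 ∈
        A.image fun a : ℤ => (a : ℂ) with hF
  have h3 : m * P.card ≤ (F.card : ℝ) := by
    have hfib : F.card = ∑ x ∈ P, (F.filter fun y => y.2 = x).card := by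
      apply Finset.card_eq_sum_card_fiberwise
      intro y hy
      exact (mem_product.1 (mem_filter.1 hy).1).2
    have hfib' : (F.card : ℝ) = ∑ x ∈ P, ((F.filter fun y => y.2 = x).card : ℝ) := by
      exact_mod_cast hfib
    rw [hfib']
    calc m * P.card = ∑ _x ∈ P, m := by
          rw [sum_const, nsmul_eq_mul, mul_comm]
      _ ≤ _ := by
          apply sum_le_sum
          intro x hx
          refine (h x hx).trans ?_
          have hx0 : x ≠ 0 := fun h => hP0 (h ▸ hx)
          have h4 : (meet A x).card ≤ (F.filter fun y => y.2 = x).card := by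
            refine card_le_card_of_injOn (fun a : ℂ => ((a / x, x) : ℂ × ℂ)) ?_ ?_
            · intro a ha
              obtain ⟨haA, hab⟩ := mem_inter.1 ha
              obtain ⟨b, hb, rfl⟩ := mem_image.1 hab
              have e1 : x * (b : ℂ) / x = b := by field_simp
              refine mem_filter.2 ⟨mem_filter.2 ⟨mem_product.2 ⟨?_, hx⟩, ?_⟩, rfl⟩
              · simp only
                rw [e1]; exact mem_image_of_mem _ hb
              · simp only
                rw [div_mul_cancel₀ _ hx0]; exact haA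
            · intro a _ b _ hab
              simp only [Prod.mk.injEq, and_true] at hab
              exact (div_left_inj' hx0).1 hab
          exact_mod_cast h4
  refine (pow_le_pow_left₀ (by positivity) h3 2).trans ?_
  exact_mod_cast h2

theorem mainT (ε θ D : ℝ) (hε : 0 < ε) (hε1 : ε ≤ 1) (hθ : 0 < θ) :
    ∃ δ c : ℝ, 0 < δ ∧ 0 < c ∧
      ∀ A : Finset ℤ, A.Nonempty → (0 : ℤ) ∉ A → ∀ P : Finset ℂ, (0 : ℂ) ∉ P →
        (A.card : ℝ) ^ θ ≤ P.card → (P.card : ℝ) ≤ (A.card : ℝ) ^ D →
        (((A.card : ℝ) * P.card * min (A.card : ℝ) P.card ≤ (A.card : ℝ) ^ δ * mener A P) ∨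
          (((prods A P).card : ℝ) ≤ (A.card : ℝ) ^ δ * max (A.card : ℝ) P.card) ∨
          ∀ x ∈ P, (A.card : ℝ) ^ (1 - δ) ≤ (meet A x).card) →
        ∀ B : Finset ℂ, B.Nonempty →
          c * ((A.card : ℝ) * B.card) ^ (1 - ε) ≤ (sums A B).card := by
  obtain ⟨δ, c, hδ, hc, h⟩ := mainP ε θ D hε hε1 hθ
  refine ⟨δ / 2, c, by positivity, hc, ?_⟩
  intro A hA hA0 P hP0 hAP hPA hor B hB
  have cA : (0 : ℝ) < A.card := by exact_mod_cast hA.card_pos
  have cA1 : (1 : ℝ) ≤ A.card := by exact_mod_cast hA.card_pos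
  have cP : (0 : ℝ) < P.card := by
    refine lt_of_lt_of_le ?_ hAP
    positivity
  have hmono : (A.card : ℝ) ^ (δ / 2) ≤ (A.card : ℝ) ^ δ :=
    Real.rpow_le_rpow_of_exponent_le cA1 (by linarith)
  refine h A hA hA0 P hP0 hAP hPA ?_ B hB
  rcases hor with hE | hprod | hsym
  · left
    exact hE.trans (mul_le_mul_of_nonneg_right hmono (Nat.cast_nonneg _))
  · right
    exact hprod.trans (mul_le_mul_of_nonneg_right hmono (le_max_of_le_left cA.le))
  · left
    have h1 := energy_of_meet hA0 hP0 (by positivity) hsym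
    have h2 : ((A.card : ℝ) ^ (1 - δ / 2) * P.card) ^ 2 * (A.card : ℝ) ^ δ =
        (A.card : ℝ) * (A.card * P.card * P.card) := by
      have e1 : (A.card : ℝ) ^ (1 - δ / 2) * (A.card : ℝ) ^ (1 - δ / 2) * (A.card : ℝ) ^ δ =
          A.card * A.card := by
        rw [← Real.rpow_add cA, ← Real.rpow_add cA,
          show 1 - δ / 2 + (1 - δ / 2) + δ = 1 + 1 by ring, Real.rpow_add cA, Real.rpow_one]
      calc _ = (A.card : ℝ) ^ (1 - δ / 2) * (A.card : ℝ) ^ (1 - δ / 2) * (A.card : ℝ) ^ δ *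
            (P.card * P.card) := by ring
        _ = _ := by rw [e1]; ring
    have h3 := mul_le_mul_of_nonneg_right h1 (by positivity : 0 ≤ (A.card : ℝ) ^ δ)
    rw [h2] at h3
    have h4 : (A.card : ℝ) * (A.card * P.card * P.card) ≤
        (A.card : ℝ) * ((A.card : ℝ) ^ δ * mener A P) := by linarith
    have h5 := le_of_mul_le_mul_left h4 cA
    refine le_trans ?_ h5
    exact mul_le_mul_of_nonneg_left (min_le_right _ _) (by positivity)

end Pool.Agent.H85.TS
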