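import Pool.Agent.H85.TS.Ineq

/-!
The one-dimensional inequality: assembly.
-/

set_option autoImplicit false

namespace Pool.Agent.H85.TS

open Finset
open scoped Pointwise

theorem core {c β : ℝ} (hc : 0 < c) (hβ : 3 ≤ β) (hcβ : 1 ≤ c * (1 + 1 / 1024) ^ β)
    {P Q T X₁ Y₁ A₁ B₁ : ℝ} (hP : 1 ≤ P) (hQ : 1 ≤ Q) (hT1 : P + Q - 1 ≤ T)
    (hT2 : 1 + (X₁ + Y₁) / 2 ≤ T) (hX : 0 ≤ X₁) (hY : 0 ≤ Y₁) (hA0 : 0 ≤ A₁) (hB0 : 0 ≤ B₁)
    (hA1 : c * A₁ ≤ P ^ β) (hB1 : c * B₁ ≤ Q ^ β)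
    (hA2 : P ≤ 1 + 1 / 256 → A₁ ≤ (1 + X₁ / 4) ^ (1 + β))
    (hB2 : Q ≤ 1 + 1 / 256 → B₁ ≤ (1 + Y₁ / 4) ^ (1 + β)) :
    A₁ * B₁ ≤ T ^ (2 * β) := by
  have hT : 1 ≤ T := by linarith
  have hβ0 : 0 < β := by linarith
  -- the first bound
  have key : (1 + 1 / 1024) ^ 2 * (P * Q) ≤ T ^ 2 → A₁ * B₁ ≤ T ^ (2 * β) := by
    intro h
    have hk : (0 : ℝ) ≤ (1 + 1 / 1024) ^ β := Real.rpow_nonneg (by norm_num) _
    have h1 : A₁ ≤ (1 + 1 / 1024) ^ β * P ^ β := by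
      have h2 : A₁ ≤ (c * (1 + 1 / 1024) ^ β) * A₁ := by nlinarith
      calc A₁ ≤ (c * (1 + 1 / 1024) ^ β) * A₁ := h2
        _ = (1 + 1 / 1024) ^ β * (c * A₁) := by ring
        _ ≤ (1 + 1 / 1024) ^ β * P ^ β := mul_le_mul_of_nonneg_left hA1 hk
    have h2 : B₁ ≤ (1 + 1 / 1024) ^ β * Q ^ β := by
      have h2 : B₁ ≤ (c * (1 + 1 / 1024) ^ β) * B₁ := by nlinarith
      calc B₁ ≤ (c * (1 + 1 / 1024) ^ β) * B₁ := h2
        _ = (1 + 1 / 1024) ^ β * (c * B₁) := by ring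
        _ ≤ (1 + 1 / 1024) ^ β * Q ^ β := mul_le_mul_of_nonneg_left hB1 hk
    calc A₁ * B₁ ≤ ((1 + 1 / 1024) ^ β * P ^ β) * ((1 + 1 / 1024) ^ β * Q ^ β) :=
          mul_le_mul h1 h2 hB0 (mul_nonneg hk (Real.rpow_nonneg (by linarith) _))
      _ = ((1 + 1 / 1024) ^ 2 * (P * Q)) ^ β := by
          rw [Real.mul_rpow (by norm_num) (by positivity), Real.mul_rpow (by linarith)
            (by linarith), ← Real.rpow_natCast, ← Real.rpow_mul (by norm_num)]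
          have : ((2 : ℕ) : ℝ) * β = β + β := by push_cast; ring
          rw [this, Real.rpow_add (by norm_num)]
          ring
      _ ≤ (T ^ 2) ^ β := Real.rpow_le_rpow (by positivity) h hβ0.le
      _ = T ^ (2 * β) := by
          rw [← Real.rpow_natCast, ← Real.rpow_mul (by linarith)]
          norm_num
  by_cases hcase : 2 + 1 / 256 ≤ P + Q
  · apply key
    have h1 : (1 + 1 / 1024) * ((P + Q) / 2) ≤ P + Q - 1 := by linarith
    have h2 : P * Q ≤ ((P + Q) / 2) ^ 2 := by nlinarith [sq_nonneg (P - Q)]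
    have h3 : (1 + 1 / 1024 : ℝ) ^ 2 * (P * Q) ≤ ((1 + 1 / 1024) * ((P + Q) / 2)) ^ 2 := by
      rw [mul_pow]
      exact mul_le_mul_of_nonneg_left h2 (by norm_num)
    refine h3.trans (pow_le_pow_left₀ (by positivity) (h1.trans hT1) 2)
  · push Not at hcase
    have hP1 : P ≤ 1 + 1 / 256 := by linarith
    have hQ1 : Q ≤ 1 + 1 / 256 := by linarith
    by_cases hxy : 2 ≤ X₁ + Y₁
    · apply key
      have h1 : 2 ≤ T := by linarith
      have h2 : P * Q ≤ (1 + 1 / 256) * (1 + 1 / 256) := mul_le_mul hP1 hQ1 (by linarith) (by norm_num)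
      nlinarith
    · push Not at hxy
      have h1 : (1 + X₁ / 4) * (1 + Y₁ / 4) ≤ T := by nlinarith
      have h2 : 0 ≤ 1 + X₁ / 4 := by linarith
      have h3 : 0 ≤ 1 + Y₁ / 4 := by linarith
      calc A₁ * B₁ ≤ (1 + X₁ / 4) ^ (1 + β) * (1 + Y₁ / 4) ^ (1 + β) :=
            mul_le_mul (hA2 hP1) (hB2 hQ1) hB0 (Real.rpow_nonneg h2 _)
        _ = ((1 + X₁ / 4) * (1 + Y₁ / 4)) ^ (1 + β) := by rw [Real.mul_rpow h2 h3]
        _ ≤ T ^ (1 + β) := Real.rpow_le_rpow (mul_nonneg h2 h3) h1 (by linarith)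
        _ ≤ T ^ (2 * β) := Real.rpow_le_rpow_of_exponent_le hT (by linarith)

/-- the small terms -/
theorem small_terms {I : Finset ℕ} {u : ℕ → ℝ} {β : ℝ} (hβ : 3 ≤ β) {i₀ : ℕ} (hi₀ : i₀ ∈ I)
    (hu0 : ∀ i ∈ I, 0 ≤ u i) (h1 : u i₀ = 1) (hP : ∑ i ∈ I, u i ≤ 1 + 1 / 256) :
    ∑ i ∈ I, u i ^ (β / (1 + β)) ≤ 1 + (∑ i ∈ I.erase i₀, Real.sqrt (u i)) / 4 := by
  rw [← Finset.add_sum_erase I _ hi₀, h1, Real.one_rpow, Finset.sum_div]
  rw [← Finset.add_sum_erase I _ hi₀, h1] at hP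
  have hP' : ∑ i ∈ I.erase i₀, u i ≤ 1 / 256 := by linarith
  have h2 : ∀ i ∈ I.erase i₀, u i ^ (β / (1 + β)) ≤ Real.sqrt (u i) / 4 := by
    intro i hi
    have h3 : 0 ≤ u i := hu0 i (Finset.mem_of_mem_erase hi)
    have h4 : u i ≤ 1 / 256 :=
      (Finset.single_le_sum (f := u) (fun j hj => hu0 j (Finset.mem_of_mem_erase hj)) hi).trans hP'
    rcases h3.eq_or_lt with h5 | h5
    · rw [← h5, Real.zero_rpow (by positivity)]; simp
    have h6 : β / (1 + β) = 1 / 2 + (β / (1 + β) - 1 / 2) := by ring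
    have h7 : (1 : ℝ) / 4 ≤ β / (1 + β) - 1 / 2 := by
      rw [le_sub_iff_add_le, le_div_iff₀ (by linarith)]
      linarith
    rw [h6, Real.rpow_add h5, ← Real.sqrt_eq_rpow, div_eq_mul_inv]
    apply mul_le_mul_of_nonneg_left _ (Real.sqrt_nonneg _)
    calc u i ^ (β / (1 + β) - 1 / 2) ≤ u i ^ (1 / 4 : ℝ) :=
          Real.rpow_le_rpow_of_exponent_ge h5 (by linarith) h7
      _ ≤ (1 / 256 : ℝ) ^ (1 / 4 : ℝ) := Real.rpow_le_rpow h3 h4 (by norm_num)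
      _ = 4⁻¹ := by
          rw [show (1 / 256 : ℝ) = (4⁻¹) ^ (4 : ℕ) by norm_num, ← Real.rpow_natCast,
            ← Real.rpow_mul (by norm_num)]
          norm_num
  linarith [Finset.sum_le_sum h2]

/-- **the one-dimensional inequality** -/
theorem oneD {c β : ℝ} (hc : 0 < c) (hβ : 3 ≤ β) (hcβ : 1 ≤ c * (1 + 1 / 1024) ^ β)
    {I J : Finset ℕ} (hI : I.Nonempty) (hJ : J.Nonempty) {a w b v F : ℕ → ℝ} {W V : ℝ}
    (ha : ∀ i ∈ I, 0 < a i) (hw : ∀ i ∈ I, 0 < w i) (hb : ∀ j ∈ J, 0 < b j)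
    (hv : ∀ j ∈ J, 0 < v j) (hW : ∀ i ∈ I, w i ≤ W) (hWs : c * ∑ i ∈ I, w i ≤ W)
    (hV : ∀ j ∈ J, v j ≤ V) (hVs : c * ∑ j ∈ J, v j ≤ V)
    (hF : ∀ i ∈ I, ∀ j ∈ J, a i ^ (1 + β) * b j ^ (1 + β) ≤
      w i * v j * F (i + j) ^ (2 * β)) (hF0 : ∀ s, 0 ≤ F s) :
    (∑ i ∈ I, a i) ^ (1 + β) * (∑ j ∈ J, b j) ^ (1 + β) ≤
      W * V * (∑ s ∈ I + J, F s) ^ (2 * β) := by
  have hβ0 : 0 < β := by linarith
  -- the weights
  have hux : ∀ (x y : ℝ), 0 < x → 0 < y → 0 < (x ^ (1 + β) / y) ^ (1 / β) ∧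
      ((x ^ (1 + β) / y) ^ (1 / β)) ^ β = x ^ (1 + β) / y := by
    intro x y hx hy
    have h1 : 0 < x ^ (1 + β) / y := by positivity
    refine ⟨Real.rpow_pos_of_pos h1 _, ?_⟩
    rw [← Real.rpow_mul h1.le]
    have : 1 / β * β = 1 := by field_simp
    rw [this, Real.rpow_one]
  set u : ℕ → ℝ := fun i => (a i ^ (1 + β) / w i) ^ (1 / β) with hu
  set t : ℕ → ℝ := fun j => (b j ^ (1 + β) / v j) ^ (1 / β) with ht
  have hu0 : ∀ i ∈ I, 0 < u i := fun i hi => (hux _ _ (ha i hi) (hw i hi)).1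
  have ht0 : ∀ j ∈ J, 0 < t j := fun j hj => (hux _ _ (hb j hj) (hv j hj)).1
  have huβ : ∀ i ∈ I, a i ^ (1 + β) = w i * u i ^ β := by
    intro i hi
    rw [hu]
    simp only
    rw [(hux _ _ (ha i hi) (hw i hi)).2]
    have := hw i hi
    field_simp
  have htβ : ∀ j ∈ J, b j ^ (1 + β) = v j * t j ^ β := by
    intro j hj
    rw [ht]
    simp only
    rw [(hux _ _ (hb j hj) (hv j hj)).2]
    have := hv j hj
    field_simp
  have hut : ∀ i ∈ I, ∀ j ∈ J, u i * t j ≤ F (i + j) ^ 2 := by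
    intro i hi j hj
    have h1 := hF i hi j hj
    rw [huβ i hi, htβ j hj] at h1
    have h2 : u i ^ β * t j ^ β ≤ F (i + j) ^ (2 * β) := by
      have h3 : 0 < w i * v j := mul_pos (hw i hi) (hv j hj)
      have h4 : w i * v j * (u i ^ β * t j ^ β) ≤ w i * v j * F (i + j) ^ (2 * β) := by
        calc w i * v j * (u i ^ β * t j ^ β) = w i * u i ^ β * (v j * t j ^ β) := by ring
          _ ≤ _ := h1
      exact le_of_mul_le_mul_left h4 h3
    have h3 : F (i + j) ^ (2 * β) = (F (i + j) ^ 2) ^ β := by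
      rw [← Real.rpow_natCast, ← Real.rpow_mul (hF0 _)]
      norm_num
    rw [h3, ← Real.mul_rpow (hu0 i hi).le (ht0 j hj).le] at h2
    exact (Real.rpow_le_rpow_iff (mul_nonneg (hu0 i hi).le (ht0 j hj).le) (by positivity) hβ0).1 h2
  -- the maxima
  obtain ⟨i₀, hi₀, hi₀m⟩ := Finset.exists_max_image I u hI
  obtain ⟨j₀, hj₀, hj₀m⟩ := Finset.exists_max_image J t hJ
  set U : ℝ := u i₀ with hU
  set R : ℝ := t j₀ with hR
  have hU0 : 0 < U := hu0 i₀ hi₀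
  have hR0 : 0 < R := ht0 j₀ hj₀
  set u' : ℕ → ℝ := fun i => u i / U with hu'
  set t' : ℕ → ℝ := fun j => t j / R with ht'
  have hu'0 : ∀ i ∈ I, 0 ≤ u' i := fun i hi => div_nonneg (hu0 i hi).le hU0.le
  have ht'0 : ∀ j ∈ J, 0 ≤ t' j := fun j hj => div_nonneg (ht0 j hj).le hR0.le
  have hu'1 : ∀ i ∈ I, u' i ≤ 1 := fun i hi => (div_le_one hU0).2 (hi₀m i hi)
  have ht'1 : ∀ j ∈ J, t' j ≤ 1 := fun j hj => (div_le_one hR0).2 (hj₀m j hj)
  have hu'i₀ : u' i₀ = 1 := div_self hU0.ne'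
  have ht'j₀ : t' j₀ = 1 := div_self hR0.ne'
  set s₀ : ℝ := Real.sqrt (U * R) with hs₀
  have hs₀0 : 0 < s₀ := Real.sqrt_pos.2 (mul_pos hU0 hR0)
  set F' : ℕ → ℝ := fun s => F s / s₀ with hF'
  have hF'0 : ∀ s, 0 ≤ F' s := fun s => div_nonneg (hF0 s) hs₀0.le
  have hF's : ∀ i ∈ I, ∀ j ∈ J, Real.sqrt (u' i * t' j) ≤ F' (i + j) := by
    intro i hi j hj
    rw [Real.sqrt_le_left (hF'0 _)]
    have h1 := hut i hi j hj
    rw [hu', ht', hF']
    simp only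
    rw [div_pow, hs₀, Real.sq_sqrt (mul_pos hU0 hR0).le, div_mul_div_comm]
    exact div_le_div_of_nonneg_right h1 (mul_pos hU0 hR0).le
  set P : ℝ := ∑ i ∈ I, u' i with hP
  set Q : ℝ := ∑ j ∈ J, t' j with hQ
  set T : ℝ := ∑ s ∈ I + J, F' s with hT
  have hP1 : 1 ≤ P := by
    rw [← hu'i₀]; exact Finset.single_le_sum (f := u') (fun i hi => hu'0 i hi) hi₀
  have hQ1 : 1 ≤ Q := by
    rw [← ht'j₀]; exact Finset.single_le_sum (f := t') (fun i hi => ht'0 i hi) hj₀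
  have hT1 : P + Q - 1 ≤ T := by
    apply sum_min (I.card + J.card) I J u' t' F' 1 le_rfl
      (fun i hi => ⟨hu'0 i hi, hu'1 i hi⟩) (fun j hj => ⟨ht'0 j hj, ht'1 j hj⟩)
      ⟨i₀, hi₀, hu'i₀⟩ ⟨j₀, hj₀, ht'j₀⟩
    intro i hi j hj
    refine le_trans ?_ (hF's i hi j hj)
    apply Real.le_sqrt_of_sq_le
    have h0 : 0 ≤ min (u' i) (t' j) := le_min (hu'0 i hi) (ht'0 j hj)
    rw [sq]
    exact mul_le_mul (min_le_left _ _) (min_le_right _ _) h0 (hu'0 i hi)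
  set X₁ : ℝ := ∑ i ∈ I.erase i₀, Real.sqrt (u' i) with hX₁
  set Y₁ : ℝ := ∑ j ∈ J.erase j₀, Real.sqrt (t' j) with hY₁
  have hX0 : 0 ≤ X₁ := Finset.sum_nonneg fun i _ => Real.sqrt_nonneg _
  have hY0 : 0 ≤ Y₁ := Finset.sum_nonneg fun i _ => Real.sqrt_nonneg _
  have hTX : 1 + X₁ ≤ T := by
    have h1 : ∑ i ∈ I, Real.sqrt (u' i) ≤ ∑ i ∈ I, F' (i + j₀) := by
      apply Finset.sum_le_sum
      intro i hi
      have := hF's i hi j₀ hj₀
      rwa [ht'j₀, mul_one] at this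
    have h2 : ∑ i ∈ I, F' (i + j₀) ≤ T := by
      rw [hT, ← Finset.sum_image (f := F') (g := fun i => i + j₀)
        (fun x _ y _ h => by simpa using h)]
      apply Finset.sum_le_sum_of_subset_of_nonneg
      · intro s hs
        obtain ⟨i, hi, rfl⟩ := Finset.mem_image.1 hs
        exact Finset.add_mem_add hi hj₀
      · intro s _ _; exact hF'0 s
    rw [← Finset.add_sum_erase I _ hi₀, hu'i₀, Real.sqrt_one] at h1
    linarith
  have hTY : 1 + Y₁ ≤ T := by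
    have h1 : ∑ j ∈ J, Real.sqrt (t' j) ≤ ∑ j ∈ J, F' (i₀ + j) := by
      apply Finset.sum_le_sum
      intro j hj
      have := hF's i₀ hi₀ j hj
      rwa [hu'i₀, one_mul] at this
    have h2 : ∑ j ∈ J, F' (i₀ + j) ≤ T := by
      rw [hT, ← Finset.sum_image (f := F') (g := fun j => i₀ + j)
        (fun x _ y _ h => by simpa using h)]
      apply Finset.sum_le_sum_of_subset_of_nonneg
      · intro s hs
        obtain ⟨i, hi, rfl⟩ := Finset.mem_image.1 hs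
        exact Finset.add_mem_add hi₀ hi
      · intro s _ _; exact hF'0 s
    rw [← Finset.add_sum_erase J _ hj₀, ht'j₀, Real.sqrt_one] at h1
    linarith
  -- the masses
  have hW0 : 0 < W := (hw i₀ hi₀).trans_le (hW i₀ hi₀)
  have hV0 : 0 < V := (hv j₀ hj₀).trans_le (hV j₀ hj₀)
  have hUβ : 0 < U ^ β := Real.rpow_pos_of_pos hU0 _
  have hRβ : 0 < R ^ β := Real.rpow_pos_of_pos hR0 _
  have hau : ∀ i ∈ I, a i ^ (1 + β) = w i * U ^ β * u' i ^ β := by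
    intro i hi
    rw [huβ i hi, hu']
    simp only
    rw [Real.div_rpow (hu0 i hi).le hU0.le]
    field_simp
  have hbt : ∀ j ∈ J, b j ^ (1 + β) = v j * R ^ β * t' j ^ β := by
    intro j hj
    rw [htβ j hj, ht']
    simp only
    rw [Real.div_rpow (ht0 j hj).le hR0.le]
    field_simp
  have hm1 := holder_mass (w := fun i => w i * U ^ β) hβ0 (fun i hi => (ha i hi).le)
    (fun i hi => (mul_pos (hw i hi) hUβ).le) hu'0 (fun i hi => (hau i hi).le)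
  have hm2 := holder_mass (w := fun i => v i * R ^ β) hβ0 (fun i hi => (hb i hi).le)
    (fun i hi => (mul_pos (hv i hi) hRβ).le) ht'0 (fun i hi => (hbt i hi).le)
  have hm3 := triv_mass (W := W * U ^ β) hβ0 (fun i hi => (ha i hi).le)
    (mul_pos hW0 hUβ).le hu'0 (fun i hi => by
      rw [hau i hi]
      exact mul_le_mul_of_nonneg_right (mul_le_mul_of_nonneg_right (hW i hi) hUβ.le)
        (Real.rpow_nonneg (hu'0 i hi) _))
  have hm4 := triv_mass (W := V * R ^ β) hβ0 (fun i hi => (hb i hi).le)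
    (mul_pos hV0 hRβ).le ht'0 (fun i hi => by
      rw [hbt i hi]
      exact mul_le_mul_of_nonneg_right (mul_le_mul_of_nonneg_right (hV i hi) hRβ.le)
        (Real.rpow_nonneg (ht'0 i hi) _))
  rw [← Finset.sum_mul] at hm1 hm2
  have hWU : 0 < W * U ^ β := mul_pos hW0 hUβ
  have hVR : 0 < V * R ^ β := mul_pos hV0 hRβ
  have hsa : 0 ≤ ∑ i ∈ I, a i := Finset.sum_nonneg fun i hi => (ha i hi).le
  have hsb : 0 ≤ ∑ j ∈ J, b j := Finset.sum_nonneg fun i hi => (hb i hi).le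
  have hPβ : 0 ≤ P ^ β := Real.rpow_nonneg (by linarith) _
  have hQβ : 0 ≤ Q ^ β := Real.rpow_nonneg (by linarith) _
  have hfin := core hc hβ hcβ hP1 hQ1 hT1 (by linarith : 1 + (X₁ + Y₁) / 2 ≤ T) hX0 hY0
    (A₁ := (∑ i ∈ I, a i) ^ (1 + β) / (W * U ^ β)) (B₁ := (∑ j ∈ J, b j) ^ (1 + β) / (V * R ^ β))
    (div_nonneg (Real.rpow_nonneg hsa _) hWU.le) (div_nonneg (Real.rpow_nonneg hsb _) hVR.le)
    (by
      rw [mul_div_assoc', div_le_iff₀ hWU]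
      calc c * (∑ i ∈ I, a i) ^ (1 + β) ≤ c * ((∑ i ∈ I, w i) * U ^ β * P ^ β) :=
            mul_le_mul_of_nonneg_left hm1 hc.le
        _ = (c * ∑ i ∈ I, w i) * (U ^ β * P ^ β) := by ring
        _ ≤ W * (U ^ β * P ^ β) := mul_le_mul_of_nonneg_right hWs (mul_nonneg hUβ.le hPβ)
        _ = P ^ β * (W * U ^ β) := by ring)
    (by
      rw [mul_div_assoc', div_le_iff₀ hVR]
      calc c * (∑ i ∈ J, b i) ^ (1 + β) ≤ c * ((∑ i ∈ J, v i) * R ^ β * Q ^ β) :=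
            mul_le_mul_of_nonneg_left hm2 hc.le
        _ = (c * ∑ i ∈ J, v i) * (R ^ β * Q ^ β) := by ring
        _ ≤ V * (R ^ β * Q ^ β) := mul_le_mul_of_nonneg_right hVs (mul_nonneg hRβ.le hQβ)
        _ = Q ^ β * (V * R ^ β) := by ring)
    (fun h => by
      rw [div_le_iff₀ hWU, mul_comm]
      refine hm3.trans (mul_le_mul_of_nonneg_left ?_ hWU.le)
      exact Real.rpow_le_rpow (Finset.sum_nonneg fun i hi => Real.rpow_nonneg (hu'0 i hi) _)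
        (small_terms hβ hi₀ hu'0 hu'i₀ h) (by linarith))
    (fun h => by
      rw [div_le_iff₀ hVR, mul_comm]
      refine hm4.trans (mul_le_mul_of_nonneg_left ?_ hVR.le)
      exact Real.rpow_le_rpow (Finset.sum_nonneg fun i hi => Real.rpow_nonneg (ht'0 i hi) _)
        (small_terms hβ hj₀ ht'0 ht'j₀ h) (by linarith))
  rw [div_mul_div_comm, div_le_iff₀ (mul_pos hWU hVR)] at hfin
  refine hfin.trans (le_of_eq ?_)
  have hTs : ∑ s ∈ I + J, F s = T * s₀ := by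
    rw [hT, Finset.sum_mul]
    refine Finset.sum_congr rfl fun s _ => ?_
    rw [hF']
    simp only
    field_simp
  have hT0 : 0 ≤ T := by linarith
  have hs₀β : s₀ ^ (2 * β) = U ^ β * R ^ β := by
    rw [Real.rpow_mul hs₀0.le, ← Real.mul_rpow hU0.le hR0.le]
    congr 1
    rw [show (2 : ℝ) = ((2 : ℕ) : ℝ) by norm_num, Real.rpow_natCast, hs₀,
      Real.sq_sqrt (mul_pos hU0 hR0).le]
  rw [hTs, Real.mul_rpow hT0 hs₀0.le, hs₀β]
  ring

end Pool.Agent.H85.TS
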