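import Pool.Agent.H85.TS.Iter

/-!
The asymmetric Balog–Szemerédi–Gowers theorem with power losses.
-/

set_option autoImplicit false

namespace Pool.Agent.H85.TS

open Finset
open scoped Pointwise Classical

theorem stp_iter_mono {ℓ : ℝ} (hℓ : 0 ≤ ℓ) (n : ℕ) : ∀ K K' : ℝ, 0 ≤ K → K ≤ K' →
    (stp ℓ)^[n] K ≤ (stp ℓ)^[n] K' := by
  induction n with
  | zero => intro K K' _ h; simpa using h
  | succ n ih =>
    intro K K' h0 h
    rw [Function.iterate_succ_apply, Function.iterate_succ_apply]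
    exact ih _ _ (by unfold stp; positivity) (stp_mono hℓ h0 h)

theorem stp_iter_le {N δ : ℝ} (hN : 1 ≤ N) (hδ : 0 ≤ δ) (h256 : 256 ≤ N ^ δ) (n : ℕ) :
    ∀ x : ℝ, (stp (N ^ δ))^[n] (N ^ x) ≤ N ^ (2 ^ n * (x + 3 * δ) - 3 * δ) := by
  have hN0 : 0 < N := by linarith
  induction n with
  | zero =>
    intro x
    simp only [Function.iterate_zero, id_eq, pow_zero, one_mul]
    apply le_of_eq
    congr 1
    ring
  | succ n ih =>
    intro x
    rw [Function.iterate_succ_apply]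
    have h1 : stp (N ^ δ) (N ^ x) ≤ N ^ (2 * x + 3 * δ) := by
      unfold stp
      have e1 : (4 * (4 * N ^ x) * N ^ δ) ^ 2 = 256 * (N ^ x * N ^ x * (N ^ δ * N ^ δ)) := by ring
      rw [e1]
      have e2 : N ^ (2 * x + 3 * δ) = N ^ δ * (N ^ x * N ^ x * (N ^ δ * N ^ δ)) := by
        rw [← Real.rpow_add hN0, ← Real.rpow_add hN0, ← Real.rpow_add hN0, ← Real.rpow_add hN0]
        congr 1
        ring
      rw [e2]
      exact mul_le_mul_of_nonneg_right h256 (by positivity)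
    refine (stp_iter_mono (by positivity) n _ _ (by unfold stp; positivity) h1).trans ?_
    refine (ih _).trans (le_of_eq ?_)
    congr 1
    rw [pow_succ]
    ring

theorem iterN (D τ : ℝ) (hD : 1 ≤ D) (hτ : 0 < τ) (hτ1 : τ ≤ 1) :
    ∃ δ N₀ : ℝ, 0 < δ ∧ 1 ≤ N₀ ∧ ∀ (M : Type) [AddCommGroup M] (Γ : AddSubgroup M)
      (U V : Finset M) (N : ℝ), N₀ ≤ N → U.Nonempty → V.Nonempty → (∀ x ∈ V, x ∈ Γ) →
      (U.card : ℝ) ≤ N ^ D → (U.card : ℝ) * (V.card : ℝ) ^ 2 ≤ 4 * N ^ δ * U.addEnergy V →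
      ∃ H : Finset M, H.Nonempty ∧ (∀ x ∈ H, x ∈ Γ) ∧
        ((H - H).card : ℝ) ≤ N ^ τ * H.card ∧ (V.card : ℝ) ≤ N ^ τ * H.card ∧
        (U.card : ℝ) * (H.card : ℝ) ^ 2 ≤ N ^ τ * U.addEnergy H ∧
        ∃ y : M, (V.card : ℝ) ≤ N ^ τ * (V ∩ H.image (fun h => y + h)).card := by
  set t : ℝ := τ / 60 with ht
  have ht0 : 0 < t := by positivity
  have ht1 : t ≤ 1 := by rw [ht]; linarith
  have htτ : 60 * t = τ := by rw [ht]; ring
  obtain ⟨T, hT⟩ := exists_nat_ge ((D + 2) / t)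
  rw [div_le_iff₀ ht0] at hT
  set ρ : ℝ := t / (4 * (T + 1)) with hρ
  have hT0 : (0 : ℝ) ≤ T := Nat.cast_nonneg _
  have hρ0 : 0 < ρ := by positivity
  have hρT : 4 * ρ * T ≤ t := by
    rw [hρ]
    have : 4 * (t / (4 * ((T : ℝ) + 1))) * T = t * (T / (T + 1)) := by field_simp
    rw [this]
    have h2 : (T : ℝ) / (T + 1) ≤ 1 := by rw [div_le_one (by positivity)]; linarith
    nlinarith
  have hρt : ρ ≤ t / 4 := by
    rw [hρ]
    apply div_le_div_of_nonneg_left ht0.le (by norm_num)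
    nlinarith
  set δ : ℝ := ρ / (5 * 2 ^ T) with hδ
  have hδ0 : 0 < δ := by positivity
  have hδρ : 5 * 2 ^ T * δ = ρ := by rw [hδ]; field_simp
  have h2T : (1 : ℝ) ≤ 2 ^ T := one_le_pow₀ (by norm_num)
  have hδρ5 : 5 * δ ≤ ρ := by
    rw [← hδρ]
    nlinarith
  have hl2 : 0 < Real.log 2 := Real.log_pos (by norm_num)
  set Q : ℝ := 2 ^ 22 + (D + 1) / Real.log 2 * (2 / δ) + 1 with hQ
  have hQ1 : 0 ≤ (D + 1) / Real.log 2 * (2 / δ) := by positivity
  have hQ0 : 2 ^ 22 ≤ Q := by rw [hQ]; linarith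
  have hQpos : 0 < Q := by linarith [hQ0, (by norm_num : (0 : ℝ) < 2 ^ 22)]
  have hQge1 : 1 ≤ Q := by linarith [hQ0, (by norm_num : (1 : ℝ) < 2 ^ 22)]
  refine ⟨δ, Q ^ (2 / δ), hδ0, Real.one_le_rpow hQge1 (by positivity), ?_⟩
  intro M _ Γ U V N hN hU hV hVΓ hUN hE
  have hN1 : 1 ≤ N := (Real.one_le_rpow hQge1 (by positivity)).trans hN
  have hN0 : 0 < N := by linarith
  have hNδ2 : Q ≤ N ^ (δ / 2) := by
    have h1 := Real.rpow_le_rpow (by positivity) hN (by positivity : 0 ≤ δ / 2)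
    rw [← Real.rpow_mul hQpos.le, show 2 / δ * (δ / 2) = 1 by field_simp, Real.rpow_one] at h1
    exact h1
  have hmono : ∀ x y : ℝ, x ≤ y → N ^ x ≤ N ^ y := fun x y h =>
    Real.rpow_le_rpow_of_exponent_le hN1 h
  have hNδ : 2 ^ 22 ≤ N ^ δ := hQ0.trans (hNδ2.trans (hmono _ _ (by linarith)))
  have hadd : ∀ x y : ℝ, N ^ x * N ^ y = N ^ (x + y) := fun x y => (Real.rpow_add hN0 x y).symm
  have hpw : ∀ (x : ℝ) (n : ℕ), (N ^ x) ^ n = N ^ (x * n) := fun x n => by
    rw [Real.rpow_mul hN0.le, Real.rpow_natCast]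
  have hpos : ∀ x : ℝ, 0 < N ^ x := fun x => by positivity
  have hN1' : 1 < N := by
    by_contra hcon
    push Not at hcon
    have : N = 1 := le_antisymm hcon hN1
    rw [this, Real.one_rpow] at hNδ
    norm_num at hNδ
  have cV1 : (1 : ℝ) ≤ V.card := by exact_mod_cast hV.card_pos
  have hge1 : ∀ x : ℝ, 0 ≤ x → 1 ≤ N ^ x := fun x hx => Real.one_le_rpow hN1 hx
  have hcon : ∀ x c : ℝ, δ ≤ x → c ≤ 2 ^ 22 → c ≤ N ^ x := fun x c hx hc =>
    hc.trans (hNδ.trans (hmono _ _ hx))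
  have hδt : δ ≤ t := by linarith
  obtain ⟨H, hHn, hHΓ, h1, h2, h3, y, h4⟩ := iter U hU Γ (κ := N ^ (5 * t)) (G := N ^ t)
    (ℓ := N ^ δ) (Kf := N ^ ρ) (hge1 _ (by positivity)) (hge1 _ ht0.le) (hge1 _ hδ0.le)
    (hge1 _ hρ0.le)
    (by
      calc N ^ t * (1024 * (N ^ ρ) ^ 3 * (N ^ δ) ^ 2)
          ≤ N ^ t * (N ^ δ * (N ^ ρ) ^ 3 * (N ^ δ) ^ 2) := by
            apply mul_le_mul_of_nonneg_left _ (hpos _).le
            apply mul_le_mul_of_nonneg_right _ (by positivity)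
            apply mul_le_mul_of_nonneg_right _ (by positivity)
            exact hcon _ _ le_rfl (by norm_num)
        _ = N ^ (t + (δ + ρ * (3 : ℕ) + δ * (2 : ℕ))) := by
            rw [hpw, hpw, hadd, hadd, hadd]
        _ ≤ N ^ (5 * t) := by
            apply hmono
            push_cast
            linarith)
    (by
      intro R hR
      have hR' : (R.card : ℝ) ≤ N ^ (D + 1) := by
        calc (R.card : ℝ) ≤ N ^ ρ * U.card := hR
          _ ≤ N ^ ρ * N ^ D := mul_le_mul_of_nonneg_left hUN (hpos _).le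
          _ = N ^ (ρ + D) := hadd _ _
          _ ≤ _ := hmono _ _ (by linarith)
      have e1 : ((Nat.log 2 R.card : ℕ) : ℝ) ≤ (D + 1) / Real.log 2 * Real.log N := by
        have e2 := Real.natLog_le_logb R.card 2
        refine e2.trans ?_
        unfold Real.logb
        push_cast
        rw [div_mul_eq_mul_div]
        apply div_le_div_of_nonneg_right _ hl2.le
        rcases Nat.eq_zero_or_pos R.card with h0 | h0
        · rw [h0, Nat.cast_zero, Real.log_zero]
          have := Real.log_nonneg hN1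
          positivity
        · have h5 := Real.log_le_log (by exact_mod_cast h0) hR'
          rwa [Real.log_rpow hN0] at h5
      have e3 : Real.log N ≤ 2 / δ * N ^ (δ / 2) := by
        have e4 := Real.log_le_rpow_div hN0.le (by positivity : 0 < δ / 2)
        refine e4.trans (le_of_eq ?_)
        field_simp
      have e5 : (D + 1) / Real.log 2 * Real.log N ≤
          (D + 1) / Real.log 2 * (2 / δ) * N ^ (δ / 2) := by
        rw [mul_assoc]
        exact mul_le_mul_of_nonneg_left e3 (by positivity)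
      have e6 : N ^ (δ / 2) * N ^ (δ / 2) = N ^ δ := by
        rw [hadd]; congr 1; ring
      have e7 : Q * N ^ (δ / 2) ≤ N ^ δ := by
        rw [← e6]
        exact mul_le_mul_of_nonneg_right hNδ2 (hpos _).le
      have e8 : 1 ≤ N ^ (δ / 2) := hge1 _ (by positivity)
      have e9 : 0 ≤ ((2 : ℝ) ^ 22) * N ^ (δ / 2) := by positivity
      have e10 : Q * N ^ (δ / 2) = 2 ^ 22 * N ^ (δ / 2) +
          (D + 1) / Real.log 2 * (2 / δ) * N ^ (δ / 2) + N ^ (δ / 2) := by rw [hQ]; ring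
      linarith)
    T V (4 * N ^ δ) hV hVΓ (by linarith [hge1 δ hδ0.le])
    (by
      have e1 : (4 : ℝ) * N ^ δ ≤ N ^ (2 * δ) := by
        calc (4 : ℝ) * N ^ δ ≤ N ^ δ * N ^ δ :=
              mul_le_mul_of_nonneg_right (hcon _ _ le_rfl (by norm_num)) (hpos _).le
          _ = _ := by rw [hadd]; congr 1; ring
      refine (stp_iter_mono (hpos _).le T _ _ (by positivity) e1).trans ?_
      refine (stp_iter_le hN1 hδ0.le (hcon _ _ le_rfl (by norm_num)) T _).trans ?_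
      apply hmono
      rw [← hδρ]
      have : (2 : ℝ) ^ T * (2 * δ + 3 * δ) = 5 * 2 ^ T * δ := by ring
      linarith)
    (by
      calc N ^ ρ * U.card ≤ N ^ ρ * N ^ D := mul_le_mul_of_nonneg_left hUN (hpos _).le
        _ = N ^ (ρ + D) := hadd _ _
        _ < N ^ (D + 2) := Real.rpow_lt_rpow_of_exponent_lt hN1' (by linarith)
        _ ≤ N ^ (t * T) := hmono _ _ (by linarith)
        _ = (N ^ t) ^ T := (hpw _ _).symm
        _ = (N ^ t) ^ T * 1 := (mul_one _).symm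
        _ ≤ (N ^ t) ^ T * V.card := mul_le_mul_of_nonneg_left cV1 (by positivity))
    hE
  have k1 : 32 * N ^ ρ * N ^ (5 * t) ≤ N ^ (7 * t) := by
    calc 32 * N ^ ρ * N ^ (5 * t) ≤ N ^ t * N ^ ρ * N ^ (5 * t) := by
          apply mul_le_mul_of_nonneg_right _ (hpos _).le
          apply mul_le_mul_of_nonneg_right _ (hpos _).le
          exact hcon _ _ hδt (by norm_num)
      _ = N ^ (t + ρ + 5 * t) := by rw [hadd, hadd]
      _ ≤ _ := hmono _ _ (by linarith)
  refine ⟨H, hHn, hHΓ, ?_, ?_, ?_, y, ?_⟩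
  · refine h1.trans (mul_le_mul_of_nonneg_right ?_ (Nat.cast_nonneg _))
    calc (2 : ℝ) ^ 22 * (N ^ (5 * t)) ^ 10 ≤ N ^ t * (N ^ (5 * t)) ^ 10 :=
          mul_le_mul_of_nonneg_right (hcon _ _ hδt le_rfl) (by positivity)
      _ = N ^ (t + 5 * t * (10 : ℕ)) := by rw [hpw, hadd]
      _ ≤ _ := by
          apply hmono
          push_cast
          linarith
  · refine h2.trans (mul_le_mul_of_nonneg_right ?_ (Nat.cast_nonneg _))
    exact k1.trans (hmono _ _ (by linarith))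
  · refine h3.trans (mul_le_mul_of_nonneg_right ?_ (Nat.cast_nonneg _))
    calc 4 * N ^ ρ * (32 * N ^ ρ * N ^ (5 * t)) ^ 2 ≤ N ^ t * N ^ ρ * (N ^ (7 * t)) ^ 2 := by
          apply mul_le_mul _ (pow_le_pow_left₀ (by positivity) k1 2) (by positivity) (by positivity)
          apply mul_le_mul_of_nonneg_right _ (hpos _).le
          exact hcon _ _ hδt (by norm_num)
      _ = N ^ (t + ρ + 7 * t * (2 : ℕ)) := by rw [hpw, hadd, hadd]
      _ ≤ _ := by
          apply hmono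
          push_cast
          linarith
  · refine h4.trans (mul_le_mul_of_nonneg_right ?_ (Nat.cast_nonneg _))
    have k2 : 64 * (N ^ ρ) ^ 2 * N ^ δ ≤ N ^ (4 * ρ) := by
      calc 64 * (N ^ ρ) ^ 2 * N ^ δ ≤ N ^ ρ * (N ^ ρ) ^ 2 * N ^ ρ := by
            apply mul_le_mul _ (hmono _ _ (by linarith)) (hpos _).le (by positivity)
            apply mul_le_mul_of_nonneg_right _ (by positivity)
            exact hcon _ _ (by linarith) (by norm_num)
        _ = N ^ (ρ + ρ * (2 : ℕ) + ρ) := by rw [hpw, hadd, hadd]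
        _ = _ := by congr 1; push_cast; ring
    calc (64 * (N ^ ρ) ^ 2 * N ^ δ) ^ T * (32 * N ^ ρ * N ^ (5 * t))
        ≤ (N ^ (4 * ρ)) ^ T * N ^ (7 * t) :=
          mul_le_mul (pow_le_pow_left₀ (by positivity) k2 T) k1 (by positivity) (by positivity)
      _ = N ^ (4 * ρ * T + 7 * t) := by rw [hpw, hadd]
      _ ≤ _ := hmono _ _ (by linarith)

end Pool.Agent.H85.TS
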