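import Pool.Agent.H85.TS.Comb

/-!
The mass functional of a set of positive integers, and its behaviour under the splitting into
valuation classes.
-/

set_option autoImplicit false

namespace Pool.Agent.H85.TS

open Finset
open Pool.Agent.TH83.DC (ent jent)
open scoped Pointwise Classical

theorem pigeon {ι : Type*} (γ : ι → ℝ) (g c lam : ℝ) (hlam : 0 ≤ lam) (E : ℕ) :
    ∀ (n : ℕ) (J : Finset ι), J.card = n → (∀ j ∈ J, γ j < g) →
    (∀ J' ⊆ J, ∀ e : ℕ, J'.card = e + 1 → E ≤ e → ∃ j ∈ J', γ j < g - c * e) →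
    ∑ j ∈ J, Real.exp (lam * γ j) ≤ Real.exp (lam * g) *
      (E + ∑ m ∈ Finset.Ico E n, Real.exp (-(lam * c * m))) := by
  intro n
  induction n with
  | zero =>
    intro J hJ h1 _
    rw [Finset.card_eq_zero] at hJ
    subst hJ
    simp only [Finset.sum_empty]
    positivity
  | succ n ih =>
    intro J hJ h1 h2
    by_cases hn : n + 1 ≤ E
    · have h3 : ∑ j ∈ J, Real.exp (lam * γ j) ≤ ∑ _j ∈ J, Real.exp (lam * g) :=
        Finset.sum_le_sum fun j hj => Real.exp_le_exp.2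
          (mul_le_mul_of_nonneg_left (h1 j hj).le hlam)
      rw [Finset.sum_const, hJ, nsmul_eq_mul] at h3
      have h4 : ((n + 1 : ℕ) : ℝ) ≤ E := by exact_mod_cast hn
      have h5 : 0 ≤ ∑ m ∈ Finset.Ico E (n + 1), Real.exp (-(lam * c * m)) :=
        Finset.sum_nonneg fun m _ => (Real.exp_pos _).le
      have h6 := Real.exp_pos (lam * g)
      nlinarith
    · push Not at hn
      have hEn : E ≤ n := by omega
      obtain ⟨j, hj, hjlt⟩ := h2 J le_rfl n hJ hEn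
      have h3 := ih (J.erase j) (by rw [Finset.card_erase_of_mem hj, hJ]; rfl)
        (fun i hi => h1 i (Finset.mem_of_mem_erase hi))
        (fun J' hJ' => h2 J' (hJ'.trans (Finset.erase_subset _ _)))
      rw [← Finset.add_sum_erase J _ hj, Finset.sum_Ico_succ_top hEn]
      have h4 : Real.exp (lam * γ j) ≤ Real.exp (lam * g) * Real.exp (-(lam * c * n)) := by
        rw [← Real.exp_add]
        apply Real.exp_le_exp.2
        have := mul_le_mul_of_nonneg_left hjlt.le hlam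
        linarith
      linarith

theorem geom_bound (E : ℕ) (hE : 1 ≤ E) (n : ℕ) :
    ∑ m ∈ Finset.Ico E n, Real.exp (-(1 / (E : ℝ) * m)) < E := by
  have cE : (1 : ℝ) ≤ E := by exact_mod_cast hE
  set r : ℝ := Real.exp (-(1 / (E : ℝ))) with hr
  have hr0 : 0 < r := Real.exp_pos _
  have hx : 0 < 1 / (E : ℝ) := by positivity
  have hr1 : r < 1 := by rw [hr, Real.exp_lt_one_iff]; linarith
  have h1 : ∀ m : ℕ, Real.exp (-(1 / (E : ℝ) * m)) = r ^ m := by
    intro m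
    rw [hr, ← Real.exp_nat_mul]
    congr 1
    ring
  simp only [h1]
  have hrE : r ^ E < 1 / 2 := by
    rw [← h1 E]
    have h2 : 1 / (E : ℝ) * E = 1 := by field_simp
    rw [h2]
    have h3 := Real.exp_one_gt_d9
    rw [Real.exp_neg, ← one_div, div_lt_div_iff₀ (Real.exp_pos 1) (by norm_num)]
    linarith
  have hgeo : (1 - r) * ∑ m ∈ Finset.Ico E n, r ^ m ≤ r ^ E := by
    have h2 : ∀ k : ℕ, (1 - r) * ∑ m ∈ Finset.Ico E (E + k), r ^ m = r ^ E - r ^ (E + k) := by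
      intro k
      induction k with
      | zero => simp
      | succ k ih =>
        rw [show E + (k + 1) = E + k + 1 by ring, Finset.sum_Ico_succ_top (by omega), mul_add, ih]
        ring
    rcases le_or_gt n E with h | h
    · rw [Finset.Ico_eq_empty_of_le h]
      simp
      positivity
    · obtain ⟨k, rfl⟩ : ∃ k, n = E + k := ⟨n - E, by omega⟩
      rw [h2 k]
      have : 0 < r ^ (E + k) := pow_pos hr0 _
      linarith
  have hlow : 1 / ((E : ℝ) + 1) ≤ 1 - r := by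
    have h2 : (1 / (E : ℝ)) + 1 ≤ Real.exp (1 / (E : ℝ)) := Real.add_one_le_exp _
    have h3 : r * Real.exp (1 / (E : ℝ)) = 1 := by
      rw [hr, ← Real.exp_add]; simp
    have h4 : r * (1 / (E : ℝ) + 1) ≤ 1 := by
      calc r * (1 / (E : ℝ) + 1) ≤ r * Real.exp (1 / (E : ℝ)) := mul_le_mul_of_nonneg_left h2 hr0.le
        _ = 1 := h3
    have h5 : r ≤ E / (E + 1) := by
      rw [le_div_iff₀ (by positivity)]
      have : (1 / (E : ℝ) + 1) * E = E + 1 := by field_simp; ring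
      calc r * (E + 1) = r * ((1 / (E : ℝ) + 1) * E) := by rw [this]
        _ = r * (1 / (E : ℝ) + 1) * E := by ring
        _ ≤ 1 * E := mul_le_mul_of_nonneg_right h4 (by positivity)
        _ = E := one_mul _
    have h6 : (1 : ℝ) - E / (E + 1) = 1 / (E + 1) := by field_simp; ring
    linarith
  have hS : 0 ≤ ∑ m ∈ Finset.Ico E n, r ^ m := Finset.sum_nonneg fun m _ => (pow_pos hr0 m).le
  have h2 : 1 / ((E : ℝ) + 1) * ∑ m ∈ Finset.Ico E n, r ^ m < 1 / 2 :=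
    lt_of_le_of_lt ((mul_le_mul_of_nonneg_right hlow hS).trans hgeo) hrE
  have h3 : ∑ m ∈ Finset.Ico E n, r ^ m < (E + 1) / 2 := by
    have h4 : ∑ m ∈ Finset.Ico E n, r ^ m =
        (E + 1) * (1 / ((E : ℝ) + 1) * ∑ m ∈ Finset.Ico E n, r ^ m) := by field_simp
    rw [h4]
    have := mul_lt_mul_of_pos_left h2 (by positivity : (0 : ℝ) < E + 1)
    linarith
  linarith

/-- the set `A` has potential at least `log w / lam` -/
def Q (δ lam : ℝ) (A : Finset ℕ) (w : ℝ) : Prop := ∃ γ, GP δ A γ ∧ w ≤ Real.exp (lam * γ)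

theorem Q_one {δ lam : ℝ} {A : Finset ℕ} (hA : A.Nonempty) : Q δ lam A 1 :=
  ⟨0, GP_zero δ hA, by simp⟩

theorem Q_sub {δ lam : ℝ} {A' A : Finset ℕ} (h : A' ⊆ A) {w : ℝ} (hQ : Q δ lam A' w) :
    Q δ lam A w := by
  obtain ⟨γ, h1, h2⟩ := hQ
  exact ⟨γ, GP_sub h h1, h2⟩

theorem Q_comb {δ C : ℝ} (hδ : 0 < δ) (hC : 0 < C)
    (hsmall : ∀ (Q : ℤ) (X B : Finset ℤ), X.Nonempty → B.Nonempty →
      (1 - δ) * (ent Q X + ent Q B) - C * (ent Q X * ent Q B) ≤ jent Q X B)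
    {E : ℕ} (hE : 2 ≤ δ * E) (hE1 : 1 ≤ E)
    {p : ℕ} (hp : p.Prime) (J : Finset ℕ) (hJ : J.Nonempty)
    {A : Finset ℕ} {Gs : ℕ → Finset ℕ} (hsub : ∀ i ∈ J, Gs i ⊆ A)
    (hG : ∀ i ∈ J, Val p i (Gs i)) {w : ℕ → ℝ}
    (hQ : ∀ i ∈ J, Q δ (1 / (δ / (2 * C) * E)) (Gs i) (w i)) :
    Q δ (1 / (δ / (2 * C) * E)) A ((∑ i ∈ J, w i) / (2 * E)) := by
  have cE : (1 : ℝ) ≤ E := by exact_mod_cast hE1
  set c : ℝ := δ / (2 * C) with hc
  have hc0 : 0 < c := by positivity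
  set lam : ℝ := 1 / (c * E) with hlam
  have hlam0 : 0 < lam := by positivity
  have hlc : lam * c = 1 / E := by rw [hlam]; field_simp
  choose! γ hγ using hQ
  have hγ0 : ∀ i ∈ J, 0 ≤ γ i := fun i hi => (hγ i hi).1.1
  by_cases hS : (∑ i ∈ J, w i) / (2 * E) ≤ 1
  · obtain ⟨j, hj⟩ := hJ
    exact ⟨γ j, GP_sub (hsub j hj) (hγ j hj).1, hS.trans (Real.one_le_exp
      (mul_nonneg hlam0.le (hγ0 j hj)))⟩
  push Not at hS
  set Sw : ℝ := (∑ i ∈ J, w i) / (2 * E) with hSw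
  have hSw0 : 0 < Sw := by linarith
  set g : ℝ := Real.log Sw / lam with hg
  have hlg : Real.exp (lam * g) = Sw := by
    rw [hg, mul_div_cancel₀ _ hlam0.ne', Real.exp_log hSw0]
  by_cases h1 : ∃ j ∈ J, g ≤ γ j
  · obtain ⟨j, hj, hgj⟩ := h1
    refine ⟨γ j, GP_sub (hsub j hj) (hγ j hj).1, ?_⟩
    rw [← hlg]
    exact Real.exp_le_exp.2 (mul_le_mul_of_nonneg_left hgj hlam0.le)
  push Not at h1
  by_cases h2 : ∃ J' ⊆ J, ∃ e : ℕ, J'.card = e + 1 ∧ E ≤ e ∧ ∀ j ∈ J', g - c * e ≤ γ j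
  · obtain ⟨J', hJ', e, hcard, hEe, hge⟩ := h2
    have hδe : 2 ≤ δ * e := hE.trans (mul_le_mul_of_nonneg_left (by exact_mod_cast hEe) hδ.le)
    refine ⟨c * e + max 0 (g - c * e), GP_comb hδ hC hsmall hp J' hcard hδe
      (fun i hi => hsub i (hJ' hi)) (fun i hi => hG i (hJ' hi)) (le_max_left _ _)
      (γs := γ) (fun i hi => max_le (hγ0 i (hJ' hi)) (hge i hi))
      (fun i hi => (hγ i (hJ' hi)).1), ?_⟩
    rw [← hlg]
    apply Real.exp_le_exp.2
    apply mul_le_mul_of_nonneg_left _ hlam0.le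
    have := le_max_right 0 (g - c * e)
    linarith
  · exfalso
    push Not at h2
    have h3 := pigeon γ g c lam hlam0.le E J.card J rfl h1 h2
    have h4 := geom_bound E hE1 J.card
    rw [hlc, hlg] at h3
    have h5 : ∑ i ∈ J, w i ≤ ∑ j ∈ J, Real.exp (lam * γ j) :=
      Finset.sum_le_sum fun i hi => (hγ i hi).2
    have h6 : ∑ i ∈ J, w i = Sw * (2 * E) := by rw [hSw]; field_simp
    have h7 : Sw * (E + ∑ m ∈ Finset.Ico E J.card, Real.exp (-(1 / (E : ℝ) * m))) <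
        Sw * (2 * E) := mul_lt_mul_of_pos_left (by linarith) hSw0
    linarith

end Pool.Agent.H85.TS
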